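import Mathlib

/-! Definitions for the arithmetic criterion. -/

namespace Pool.Agent.Lib.MP_6bc78b_nt.H11

/-- Selberg's generalised von Mangoldt function: the Dirichlet convolution of the Moebius function
with the `k`-th power of the logarithm, `Λ_k(n) = ∑_{d ∣ n} μ(d) (log (n/d))^k`. For `k = 1` it is
the von Mangoldt function, and `Λ_2 = Λ log + Λ * Λ` is the function of Selberg's formula. -/
noncomputable def selbergLambda (k n : ℕ) : ℝ :=
  ∑ d ∈ n.divisors, (ArithmeticFunction.moebius d : ℝ) * Real.log ((n : ℝ) / d) ^ k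

/-- The smoothed summatory function `A_k(x) = ∑_{n ≤ x} Λ_k(n) (1 - n/x)`. -/
noncomputable def selbergSum (k : ℕ) (x : ℝ) : ℝ :=
  ∑ n ∈ Finset.Icc 1 ⌊x⌋₊, selbergLambda k n * (1 - n / x)

end Pool.Agent.Lib.MP_6bc78b_nt.H11
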