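import Mathlib

/-! Growth of the Riemann zeta function to the right of the imaginary axis. -/

namespace Pool.Agent.Lib.MP_6bc78b_nt.H11

open Complex MeasureTheory Set Filter Topology Asymptotics

/-- The fractional part function cut off to `(1, ∞)`. -/
noncomputable def fr (t : ℝ) : ℂ := Set.indicator (Ioi (1 : ℝ)) (fun t => ((Int.fract t : ℝ) : ℂ)) t

lemma fr_measurable : Measurable fr := by
  unfold fr
  refine Measurable.indicator ?_ measurableSet_Ioi
  exact Complex.measurable_ofReal.comp measurable_fract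

lemma norm_fr_le (t : ℝ) : ‖fr t‖ ≤ 1 := by
  unfold fr
  by_cases h : t ∈ Ioi (1 : ℝ)
  · rw [Set.indicator_of_mem h]
    rw [Complex.norm_real, Real.norm_eq_abs, abs_of_nonneg (Int.fract_nonneg t)]
    exact (Int.fract_lt_one t).le
  · rw [Set.indicator_of_notMem h]; simp

lemma fr_locInt : LocallyIntegrableOn fr (Ioi 0) := by
  have h1 : LocallyIntegrable (fun _ : ℝ => (1 : ℝ)) := locallyIntegrable_const 1
  have : LocallyIntegrable fr :=
    h1.mono fr_measurable.aestronglyMeasurable (ae_of_all _ fun t => by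
      simpa using norm_fr_le t)
  exact this.locallyIntegrableOn _

lemma mellin_fr_diff {s : ℂ} (hs : s.re < 0) : DifferentiableAt ℂ (mellin fr) s := by
  apply mellin_differentiableAt_of_isBigO_rpow (a := 0) (b := s.re - 1) fr_locInt
  · simp only [neg_zero, Real.rpow_zero]
    exact isBigO_of_le _ (fun t => by simpa using norm_fr_le t)
  · exact hs
  · have : fr =ᶠ[𝓝[>] 0] (fun _ => (0 : ℂ)) := by
      have h1 : Iio (1 : ℝ) ∈ 𝓝[>] (0 : ℝ) := mem_nhdsWithin_of_mem_nhds (Iio_mem_nhds one_pos)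
      filter_upwards [h1] with t ht
      unfold fr
      rw [Set.indicator_of_notMem]
      simp only [mem_Ioi, not_lt]
      exact le_of_lt ht
    exact this.trans_isBigO (isBigO_zero _ _)
  · linarith

/-- `mellin fr (-s) = ∫_1^∞ {t} t^{-s-1} dt`. -/
lemma mellin_fr_eq (s : ℂ) :
    mellin fr (-s) = ∫ t in Ioi (1 : ℝ), ((Int.fract t : ℝ) : ℂ) * (t : ℂ) ^ (-(s + 1)) := by
  unfold mellin
  have h1 : ∀ t : ℝ, (t : ℂ) ^ (-s - 1) • fr t =
      Set.indicator (Ioi (1 : ℝ)) (fun t => ((Int.fract t : ℝ) : ℂ) * (t : ℂ) ^ (-(s + 1))) t := by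
    intro t
    unfold fr
    by_cases h : t ∈ Ioi (1 : ℝ)
    · rw [Set.indicator_of_mem h, Set.indicator_of_mem h, smul_eq_mul, mul_comm]
      ring_nf
    · rw [Set.indicator_of_notMem h, Set.indicator_of_notMem h, smul_zero]
  simp_rw [h1]
  rw [setIntegral_indicator measurableSet_Ioi]
  congr 2
  ext t
  simp only [mem_inter_iff, mem_Ioi]
  constructor
  · rintro ⟨_, h⟩; exact h
  · intro h; exact ⟨by linarith, h⟩

lemma norm_mellin_fr_le {s : ℂ} (hs : 0 < s.re) : ‖mellin fr (-s)‖ ≤ 1 / s.re := by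
  rw [mellin_fr_eq]
  have hint : IntegrableOn (fun t : ℝ => t ^ (-(s.re + 1))) (Ioi 1) :=
    integrableOn_Ioi_rpow_of_lt (by linarith) one_pos
  calc ‖∫ t in Ioi (1 : ℝ), ((Int.fract t : ℝ) : ℂ) * (t : ℂ) ^ (-(s + 1))‖
      ≤ ∫ t in Ioi (1 : ℝ), t ^ (-(s.re + 1)) := by
        apply norm_integral_le_of_norm_le hint
        filter_upwards [self_mem_ae_restrict measurableSet_Ioi] with t ht
        have ht0 : (0 : ℝ) < t := lt_trans one_pos ht
        rw [norm_mul, Complex.norm_real, Real.norm_eq_abs, abs_of_nonneg (Int.fract_nonneg t),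
          Complex.norm_cpow_eq_rpow_re_of_pos ht0]
        have : (-(s + 1)).re = -(s.re + 1) := by simp
        rw [this]
        have h2 : (0 : ℝ) ≤ t ^ (-(s.re + 1)) := Real.rpow_nonneg ht0.le _
        have h3 := (Int.fract_lt_one t).le
        nlinarith
    _ = 1 / s.re := by
        rw [integral_Ioi_rpow_of_lt (by linarith) one_pos]
        rw [Real.one_rpow]
        have : -(s.re + 1) + 1 = -s.re := by ring
        rw [this]
        field_simp

/-- Integral representation of `ζ` for `Re s > 1`. -/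
lemma zeta_eq_of_one_lt {s : ℂ} (hs : 1 < s.re) :
    riemannZeta s = s / (s - 1) - s * mellin fr (-s) := by
  have h1 : LSeries (fun n => ((1 : ℝ) : ℂ)) s =
      s * ∫ t in Set.Ioi (1 : ℝ), (∑ k ∈ Finset.Icc 1 ⌊t⌋₊, ((1 : ℝ) : ℂ)) * (t : ℂ) ^ (-(s + 1)) := by
    apply LSeries_eq_mul_integral_of_nonneg (fun _ => (1 : ℝ)) (r := 1) zero_le_one hs
    · simp only [Finset.sum_const, Nat.card_Icc, add_tsub_cancel_right, nsmul_eq_mul, mul_one,
        Real.rpow_one]
      exact isBigO_refl _ _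
    · intro n; exact zero_le_one
  have h2 : riemannZeta s = LSeries (fun n => ((1 : ℝ) : ℂ)) s := by
    rw [← LSeries_one_eq_riemannZeta hs]
    congr 1
  have hs0 : s ≠ 0 := by
    intro h; rw [h] at hs; simp at hs; linarith
  have hs1 : s - 1 ≠ 0 := by
    intro h
    have : s = 1 := by linear_combination h
    rw [this] at hs; simp at hs
  rw [h2, h1, mellin_fr_eq]
  have hint1 : IntegrableOn (fun t : ℝ => (t : ℂ) * (t : ℂ) ^ (-(s + 1))) (Ioi 1) := by
    have h : IntegrableOn (fun t : ℝ => (t : ℂ) ^ (-s)) (Ioi 1) := by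
      apply integrableOn_Ioi_cpow_of_lt _ one_pos
      simp; linarith
    refine h.congr_fun ?_ measurableSet_Ioi
    intro t ht
    have ht0 : (t : ℂ) ≠ 0 := by
      have : (0 : ℝ) < t := lt_trans one_pos ht
      exact_mod_cast this.ne'
    simp only
    rw [show (-s : ℂ) = 1 + (-(s + 1)) by ring, Complex.cpow_add _ _ ht0, Complex.cpow_one]
  have hint2 : IntegrableOn (fun t : ℝ => ((Int.fract t : ℝ) : ℂ) * (t : ℂ) ^ (-(s + 1))) (Ioi 1) := by
    have hb : IntegrableOn (fun t : ℝ => (t : ℂ) ^ (-(s + 1))) (Ioi 1) := by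
      apply integrableOn_Ioi_cpow_of_lt _ one_pos
      simp; linarith
    refine Integrable.mono hb ?_ ?_
    · apply AEStronglyMeasurable.mul
      · exact (Complex.measurable_ofReal.comp measurable_fract).aestronglyMeasurable
      · exact hb.aestronglyMeasurable
    · filter_upwards with t
      rw [norm_mul, Complex.norm_real, Real.norm_eq_abs, abs_of_nonneg (Int.fract_nonneg t)]
      have h3 := (Int.fract_lt_one t).le
      have h4 := norm_nonneg ((t : ℂ) ^ (-(s + 1)))
      nlinarith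
  have hsum : ∫ t in Set.Ioi (1 : ℝ), (∑ k ∈ Finset.Icc 1 ⌊t⌋₊, ((1 : ℝ) : ℂ)) * (t : ℂ) ^ (-(s + 1))
      = (∫ t in Set.Ioi (1 : ℝ), (t : ℂ) * (t : ℂ) ^ (-(s + 1)))
        - ∫ t in Ioi (1 : ℝ), ((Int.fract t : ℝ) : ℂ) * (t : ℂ) ^ (-(s + 1)) := by
    rw [← integral_sub hint1 hint2]
    apply setIntegral_congr_fun measurableSet_Ioi
    intro t ht
    have ht0 : (0 : ℝ) ≤ t := (lt_trans one_pos ht).le
    simp only [Finset.sum_const, Nat.card_Icc, add_tsub_cancel_right, nsmul_eq_mul]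
    rw [← sub_mul]
    congr 1
    have h5 : ((⌊t⌋₊ : ℕ) : ℝ) = t - Int.fract t := by
      rw [natCast_floor_eq_intCast_floor ht0]
      have := Int.floor_add_fract t
      linarith
    have h6 : ((⌊t⌋₊ : ℕ) : ℂ) = (((⌊t⌋₊ : ℕ) : ℝ) : ℂ) := by simp
    rw [h6, h5]
    push_cast
    ring
  rw [hsum]
  have hcalc : ∫ t in Set.Ioi (1 : ℝ), (t : ℂ) * (t : ℂ) ^ (-(s + 1)) = 1 / (s - 1) := by
    have : ∫ t in Set.Ioi (1 : ℝ), (t : ℂ) * (t : ℂ) ^ (-(s + 1)) =
        ∫ t in Set.Ioi (1 : ℝ), (t : ℂ) ^ (-s) := by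
      apply setIntegral_congr_fun measurableSet_Ioi
      intro t ht
      have ht0 : (t : ℂ) ≠ 0 := by
        have : (0 : ℝ) < t := lt_trans one_pos ht
        exact_mod_cast this.ne'
      simp only
      rw [show (-s : ℂ) = 1 + (-(s + 1)) by ring, Complex.cpow_add _ _ ht0, Complex.cpow_one]
    rw [this, integral_Ioi_cpow_of_lt (by simp; linarith) one_pos]
    simp only [Complex.ofReal_one, Complex.one_cpow]
    have h7 : -s + 1 ≠ 0 := by
      intro h; apply hs1; linear_combination -h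
    field_simp
    ring
  rw [hcalc]
  field_simp

/-- Integral representation of `(s-1) ζ(s)` for `Re s > 0`. -/
lemma sub_one_mul_zeta {s : ℂ} (hs : 0 < s.re) :
    riemannZeta₁ s = s - (s - 1) * (s * mellin fr (-s)) := by
  have hopen : IsOpen {s : ℂ | 0 < s.re} := isOpen_lt continuous_const Complex.continuous_re
  have hconv : Convex ℝ {s : ℂ | 0 < s.re} := convex_halfSpace_re_gt 0
  have hf : AnalyticOnNhd ℂ riemannZeta₁ {s : ℂ | 0 < s.re} :=
    (differentiable_riemannZeta₁.differentiableOn).analyticOnNhd hopen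
  have hg : AnalyticOnNhd ℂ (fun s => s - (s - 1) * (s * mellin fr (-s))) {s : ℂ | 0 < s.re} := by
    apply DifferentiableOn.analyticOnNhd _ hopen
    intro z hz
    apply DifferentiableAt.differentiableWithinAt
    have h1 : DifferentiableAt ℂ (fun z => mellin fr (-z)) z := by
      have h2 : DifferentiableAt ℂ (mellin fr) (-z) := mellin_fr_diff (by simpa using hz)
      exact DifferentiableAt.fun_comp' z h2 (differentiableAt_id.neg)
    exact (differentiableAt_id).sub ((differentiableAt_id.sub_const 1).mul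
      (differentiableAt_id.mul h1))
  have heq : riemannZeta₁ =ᶠ[𝓝 (2 : ℂ)] (fun s => s - (s - 1) * (s * mellin fr (-s))) := by
    have : {s : ℂ | 1 < s.re} ∈ 𝓝 (2 : ℂ) :=
      (isOpen_lt continuous_const Complex.continuous_re).mem_nhds (by simp)
    filter_upwards [this] with z hz
    have hz1 : z - 1 ≠ 0 := by
      intro h
      have : z = 1 := by linear_combination h
      rw [this] at hz; simp at hz
    have hz1' : z ≠ 1 := fun h => hz1 (by rw [h]; ring)
    have h8 := zeta_eq_of_one_lt hz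
    have h9 := riemannZeta_eq_inv_sub_mul hz1'
    have h10 : riemannZeta₁ z = (z - 1) * riemannZeta z := by
      rw [h9]; field_simp
    rw [h10, h8]
    field_simp
  exact hf.eqOn_of_preconnected_of_eventuallyEq hg hconv.isPreconnected (by simp) heq hs

lemma zeta_growth {s : ℂ} (hs : (1 : ℝ) / 10 ≤ s.re) (hs1 : s ≠ 1) :
    ‖riemannZeta s‖ ≤ ‖s‖ / ‖s - 1‖ + 10 * ‖s‖ := by
  have hs0 : 0 < s.re := by linarith
  have hz1 : s - 1 ≠ 0 := sub_ne_zero.mpr hs1
  have h9 := riemannZeta_eq_inv_sub_mul hs1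
  have h10 := sub_one_mul_zeta hs0
  have h11 : riemannZeta s = s / (s - 1) - s * mellin fr (-s) := by
    rw [h9, h10]; field_simp
  rw [h11]
  calc ‖s / (s - 1) - s * mellin fr (-s)‖ ≤ ‖s / (s - 1)‖ + ‖s * mellin fr (-s)‖ := norm_sub_le _ _
    _ ≤ ‖s‖ / ‖s - 1‖ + 10 * ‖s‖ := by
        rw [norm_div, norm_mul]
        have h1 := norm_mellin_fr_le hs0
        have h2 : 1 / s.re ≤ 10 := by
          rw [div_le_iff₀ hs0]; linarith
        have h3 := norm_nonneg s
        nlinarith

end Pool.Agent.Lib.MP_6bc78b_nt.H11
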