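import Mathlib

/-! Local factorization of analytic functions (Landau's lemma). -/

namespace Pool.Agent.Lib.MP_6bc78b_nt.H11

open Complex MeasureTheory Set Filter Topology Metric

/-- the product `∏ (z - ρ)` over a multiset -/
noncomputable def zprod (Z : Multiset ℂ) (z : ℂ) : ℂ := (Z.map (fun ρ => z - ρ)).prod

@[simp] lemma zprod_zero (z : ℂ) : zprod 0 z = 1 := by simp [zprod]

@[simp] lemma zprod_cons (a : ℂ) (Z : Multiset ℂ) (z : ℂ) :
    zprod (a ::ₘ Z) z = (z - a) * zprod Z z := by simp [zprod]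

lemma zprod_differentiable (Z : Multiset ℂ) : Differentiable ℂ (zprod Z) := by
  induction Z using Multiset.induction_on with
  | empty =>
    have : zprod 0 = fun _ => 1 := by ext z; simp
    rw [this]; exact differentiable_const _
  | cons a Z ih =>
    have : zprod (a ::ₘ Z) = fun z => (z - a) * zprod Z z := by ext z; simp
    rw [this]
    exact (differentiable_id.sub_const a).mul ih

lemma norm_zprod_ge {Z : Multiset ℂ} {z : ℂ} {d : ℝ} (hd : 0 ≤ d)
    (h : ∀ ρ ∈ Z, d ≤ ‖z - ρ‖) : d ^ Z.card ≤ ‖zprod Z z‖ := by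
  induction Z using Multiset.induction_on with
  | empty => simp
  | cons a Z ih =>
    rw [zprod_cons, norm_mul, Multiset.card_cons, pow_succ, mul_comm]
    have h1 := h a (Multiset.mem_cons_self a Z)
    have h2 := ih (fun ρ hρ => h ρ (Multiset.mem_cons_of_mem hρ))
    exact mul_le_mul h1 h2 (pow_nonneg hd _) (norm_nonneg _)

lemma norm_zprod_le {Z : Multiset ℂ} {z : ℂ} {d : ℝ} (hd : 0 ≤ d)
    (h : ∀ ρ ∈ Z, ‖z - ρ‖ ≤ d) : ‖zprod Z z‖ ≤ d ^ Z.card := by
  induction Z using Multiset.induction_on with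
  | empty => simp
  | cons a Z ih =>
    rw [zprod_cons, norm_mul, Multiset.card_cons, pow_succ, mul_comm (d ^ _)]
    have h1 := h a (Multiset.mem_cons_self a Z)
    have h2 := ih (fun ρ hρ => h ρ (Multiset.mem_cons_of_mem hρ))
    exact mul_le_mul h1 h2 (norm_nonneg _) hd

/-- the Blaschke companion product -/
noncomputable def bprod (c : ℂ) (R : ℝ) (Z : Multiset ℂ) (z : ℂ) : ℂ :=
  (Z.map (fun ρ => ((R : ℂ) ^ 2 - (starRingEnd ℂ) (ρ - c) * (z - c)) / R)).prod

@[simp] lemma bprod_zero (c : ℂ) (R : ℝ) (z : ℂ) : bprod c R 0 z = 1 := by simp [bprod]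

@[simp] lemma bprod_cons (c : ℂ) (R : ℝ) (a : ℂ) (Z : Multiset ℂ) (z : ℂ) :
    bprod c R (a ::ₘ Z) z =
      (((R : ℂ) ^ 2 - (starRingEnd ℂ) (a - c) * (z - c)) / R) * bprod c R Z z := by simp [bprod]

lemma bprod_differentiable (c : ℂ) (R : ℝ) (Z : Multiset ℂ) : Differentiable ℂ (bprod c R Z) := by
  induction Z using Multiset.induction_on with
  | empty =>
    have : bprod c R 0 = fun _ => 1 := by ext z; simp
    rw [this]; exact differentiable_const _
  | cons a Z ih =>
    have : bprod c R (a ::ₘ Z) = fun z =>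
        (((R : ℂ) ^ 2 - (starRingEnd ℂ) (a - c) * (z - c)) / R) * bprod c R Z z := by
      ext z; simp
    rw [this]
    refine Differentiable.mul ?_ ih
    exact ((differentiable_const _).sub
      ((differentiable_const _).mul (differentiable_id.sub_const c))).div_const _

lemma norm_blaschke_eq {R : ℝ} (hR : 0 < R) {a w : ℂ} (hw : ‖w‖ = R) :
    ‖((R : ℂ) ^ 2 - (starRingEnd ℂ) a * w) / R‖ = ‖w - a‖ := by
  have h1 : (R : ℂ) ^ 2 = (starRingEnd ℂ) w * w := by
    rw [mul_comm, Complex.mul_conj, Complex.normSq_eq_norm_sq, hw]; push_cast; ring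
  rw [h1, ← sub_mul, ← map_sub, norm_div, norm_mul, Complex.norm_conj, hw, Complex.norm_real,
    Real.norm_eq_abs, abs_of_pos hR]
  field_simp

lemma norm_bprod_eq {c : ℂ} {R : ℝ} (hR : 0 < R) (Z : Multiset ℂ) {z : ℂ} (hz : ‖z - c‖ = R) :
    ‖bprod c R Z z‖ = ‖zprod Z z‖ := by
  induction Z using Multiset.induction_on with
  | empty => simp
  | cons a Z ih =>
    rw [bprod_cons, zprod_cons, norm_mul, norm_mul, ih, norm_blaschke_eq hR hz]
    congr 2
    ring

lemma bprod_center {c : ℂ} {R : ℝ} (hR : 0 < R) (Z : Multiset ℂ) :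
    bprod c R Z c = (R : ℂ) ^ Z.card := by
  induction Z using Multiset.induction_on with
  | empty => simp
  | cons a Z ih =>
    rw [bprod_cons, ih, Multiset.card_cons, pow_succ]
    have : (R : ℂ) ≠ 0 := by exact_mod_cast hR.ne'
    field_simp
    ring

/-- Maximum modulus on closed balls inside an open set of differentiability. -/
lemma max_mod {f : ℂ → ℂ} {U : Set ℂ} (hf : DifferentiableOn ℂ f U) {c : ℂ}
    {R M : ℝ} (hR : 0 < R) (hcb : closedBall c R ⊆ U) (hM : ∀ z ∈ sphere c R, ‖f z‖ ≤ M)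
    {z : ℂ} (hz : z ∈ closedBall c R) : ‖f z‖ ≤ M := by
  have hd : DiffContOnCl ℂ f (ball c R) := by
    constructor
    · exact hf.mono (ball_subset_closedBall.trans hcb)
    · rw [closure_ball c hR.ne']
      exact hf.continuousOn.mono hcb
  apply Complex.norm_le_of_forall_mem_frontier_norm_le isBounded_ball hd
  · rw [frontier_ball c hR.ne']; exact hM
  · rw [closure_ball c hR.ne']; exact hz

lemma count_bound {f h : ℂ → ℂ} {U : Set ℂ} {c : ℂ} {r R M : ℝ}
    (hr : 0 < r) (hrR : r < R) (hcb : closedBall c R ⊆ U) (hM : ∀ z ∈ sphere c R, ‖f z‖ ≤ M)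
    (Z : Multiset ℂ) (hh : DifferentiableOn ℂ h U) (hfac : ∀ z ∈ U, f z = zprod Z z * h z)
    (hZ : ∀ ρ ∈ Z, ρ ∈ closedBall c r) :
    ‖f c‖ ≤ M * (r / R) ^ Z.card := by
  have hR : 0 < R := hr.trans hrR
  have hcU : c ∈ U := hcb (mem_closedBall_self hR.le)
  have h1 : ‖bprod c R Z c * h c‖ ≤ M := by
    refine max_mod (f := fun z => bprod c R Z z * h z) (U := U) ?_ hR hcb ?_
      (mem_closedBall_self hR.le)
    · exact (bprod_differentiable c R Z).differentiableOn.mul hh
    · intro z hz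
      have hz' : ‖z - c‖ = R := by rwa [mem_sphere_iff_norm] at hz
      have hzU : z ∈ U := hcb (sphere_subset_closedBall hz)
      have := hM z hz
      rw [hfac z hzU, norm_mul, ← norm_bprod_eq hR Z hz', ← norm_mul] at this
      exact this
  rw [bprod_center hR, norm_mul, norm_pow, Complex.norm_real, Real.norm_eq_abs,
    abs_of_pos hR] at h1
  rw [hfac c hcU, norm_mul]
  have h2 : ‖zprod Z c‖ ≤ r ^ Z.card := norm_zprod_le hr.le (fun ρ hρ => by
    have := hZ ρ hρ
    rwa [mem_closedBall, dist_comm, dist_eq_norm] at this)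
  have h3 : ‖h c‖ ≤ M / R ^ Z.card := by
    rw [le_div_iff₀ (pow_pos hR _)]; linarith
  calc ‖zprod Z c‖ * ‖h c‖ ≤ r ^ Z.card * (M / R ^ Z.card) :=
        mul_le_mul h2 h3 (norm_nonneg _) (pow_nonneg hr.le _)
    _ = M * (r / R) ^ Z.card := by rw [div_pow]; ring

/-- Extraction of all zeros in a closed disc. -/
lemma extract_zeros {f : ℂ → ℂ} {U : Set ℂ} (hU : IsOpen U) (hf : DifferentiableOn ℂ f U) {c : ℂ}
    {r R M : ℝ} (hr : 0 < r) (hrR : r < R) (hcb : closedBall c R ⊆ U)
    (hM : ∀ z ∈ sphere c R, ‖f z‖ ≤ M) (hc : f c ≠ 0) :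
    ∃ (Z : Multiset ℂ) (h : ℂ → ℂ), DifferentiableOn ℂ h U ∧
      (∀ z ∈ U, f z = zprod Z z * h z) ∧ (∀ ρ ∈ Z, ρ ∈ closedBall c r ∧ f ρ = 0) ∧
      (∀ z ∈ closedBall c r, h z ≠ 0) := by
  have hR : 0 < R := hr.trans hrR
  let P : ℕ → Prop := fun n => ∃ (Z : Multiset ℂ) (h : ℂ → ℂ), Z.card = n ∧
      DifferentiableOn ℂ h U ∧
      (∀ z ∈ U, f z = zprod Z z * h z) ∧ (∀ ρ ∈ Z, ρ ∈ closedBall c r ∧ f ρ = 0)
  have hP0 : P 0 := ⟨0, f, by simp, hf, by simp, by simp⟩
  -- boundedness
  have hpos : 0 < ‖f c‖ := norm_pos_iff.mpr hc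
  have hq : r / R < 1 := by rw [div_lt_one hR]; exact hrR
  have hq0 : 0 ≤ r / R := by positivity
  obtain ⟨N, hN⟩ : ∃ N : ℕ, ∀ n, P n → n ≤ N := by
    have hlim : Tendsto (fun n : ℕ => M * (r / R) ^ n) atTop (𝓝 (M * 0)) :=
      (tendsto_pow_atTop_nhds_zero_of_lt_one hq0 hq).const_mul M
    rw [mul_zero] at hlim
    have hev := hlim.eventually (Iio_mem_nhds hpos)
    obtain ⟨N, hN⟩ := eventually_atTop.mp hev
    refine ⟨N, fun n hn => ?_⟩
    by_contra hlt
    push Not at hlt
    obtain ⟨Z, h, hcard, hh, hfac, hZ⟩ := hn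
    have := count_bound hr hrR hcb hM Z hh hfac (fun ρ hρ => (hZ ρ hρ).1)
    rw [hcard] at this
    have h2 : M * (r / R) ^ n < ‖f c‖ := hN n hlt.le
    linarith
  classical
  let n := Nat.findGreatest P N
  have hn : P n := Nat.findGreatest_spec (P := P) (Nat.zero_le N) hP0
  have hmax : ∀ m, P m → m ≤ n := fun m hm => Nat.le_findGreatest (hN m hm) hm
  obtain ⟨Z, h, hcard, hh, hfac, hZ⟩ := hn
  refine ⟨Z, h, hh, hfac, hZ, ?_⟩
  intro ρ hρ h0
  have hρU : ρ ∈ U := hcb (closedBall_subset_closedBall hrR.le hρ)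
  have hbad : P (n + 1) := by
    refine ⟨ρ ::ₘ Z, dslope h ρ, by simp [hcard], ?_, ?_, ?_⟩
    · rw [Complex.differentiableOn_dslope (hU.mem_nhds hρU)]; exact hh
    · intro z hz
      rw [hfac z hz, zprod_cons]
      have : (z - ρ) * dslope h ρ z = h z := by
        have := sub_smul_dslope h ρ z
        rw [smul_eq_mul, h0, sub_zero] at this
        exact this
      rw [← this]; ring
    · intro ρ' hρ'
      rcases Multiset.mem_cons.mp hρ' with rfl | hρ''
      · exact ⟨hρ, by rw [hfac _ hρU, h0, mul_zero]⟩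
      · exact hZ _ hρ''
  have := hmax _ hbad
  omega

/-- Harnack type bound for zero free functions. -/
lemma harnack_of_nonvanishing {h : ℂ → ℂ} {c : ℂ} {r₁ r L : ℝ} (hr1 : 0 < r₁)
    (hrr : r₁ < r) (hL : 0 < L) (hh : DifferentiableOn ℂ h (ball c r))
    (hne : ∀ z ∈ ball c r, h z ≠ 0)
    (hb : ∀ z ∈ ball c r, ‖h z‖ ≤ Real.exp L * ‖h c‖) :
    ∀ z ∈ closedBall c r₁, ∀ w ∈ closedBall c r₁,
      ‖h w‖ ≤ Real.exp (8 * r / (r - r₁) ^ 2 * L * ‖w - z‖) * ‖h z‖ := by
  have hr : 0 < r := hr1.trans hrr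
  have hcb : c ∈ ball c r := mem_ball_self hr
  have hdlog : DifferentiableOn ℂ (fun z => deriv h z / h z) (ball c r) :=
    (hh.deriv isOpen_ball).div hh hne
  obtain ⟨g, hg0, hg⟩ := (hdlog.isExactOn_ball).with_val_at c 0
  -- exp g = h / h c
  have hexp : ∀ z ∈ ball c r, h z = h c * Complex.exp (g z) := by
    have hconst : ∀ z ∈ ball c r, h z * Complex.exp (-g z) = h c * Complex.exp (-g c) := by
      intro z hz
      have hd : ∀ x ∈ ball c r, HasDerivAt (fun z => h z * Complex.exp (-g z)) 0 x := by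
        intro x hx
        have h1 : HasDerivAt h (deriv h x) x :=
          ((hh x hx).differentiableAt (isOpen_ball.mem_nhds hx)).hasDerivAt
        have h2 := (hg x hx).neg.cexp
        have h3 := h1.mul h2
        have h4 : deriv h x * Complex.exp (-g x) +
            h x * (Complex.exp (-g x) * -(deriv h x / h x)) = 0 := by
          have := hne x hx
          field_simp
          ring
        have h3' : HasDerivAt (fun z => h z * Complex.exp (-g z)) 0 x := by
          rw [← h4]; exact h3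
        exact h3'
      exact isOpen_ball.is_const_of_deriv_eq_zero (convex_ball c r).isPreconnected
        (fun x hx => (hd x hx).differentiableAt.differentiableWithinAt)
        (fun x hx => (hd x hx).deriv) hz hcb
    intro z hz
    have h1 := hconst z hz
    rw [hg0, neg_zero, Complex.exp_zero, mul_one] at h1
    rw [← h1, mul_assoc, ← Complex.exp_add]
    simp
  have hc0 : 0 < ‖h c‖ := norm_pos_iff.mpr (hne c hcb)
  have hre : ∀ z ∈ ball c r, (g z).re ≤ L := by
    intro z hz
    have h1 := hb z hz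
    rw [hexp z hz, norm_mul, Complex.norm_exp, mul_comm] at h1
    have h2 := le_of_mul_le_mul_right h1 hc0
    exact Real.exp_le_exp.mp h2
  have hgd : DifferentiableOn ℂ g (ball c r) := fun z hz =>
    (hg z hz).differentiableAt.differentiableWithinAt
  -- Borel-Caratheodory
  have hbc : ∀ z ∈ ball c r, ‖g z‖ ≤ 2 * L * ‖z - c‖ / (r - ‖z - c‖) := by
    intro z hz
    have hz' : ‖z - c‖ < r := by rwa [mem_ball_iff_norm] at hz
    have hmaps : ∀ w ∈ ball (0 : ℂ) r, w + c ∈ ball c r := by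
      intro w hw
      rw [mem_ball_iff_norm]
      simpa using hw
    have := Complex.borelCaratheodory_zero (f := fun w => g (w + c)) (M := L) (R := r)
      (z := z - c) hL ?_ ?_ hr ?_ ?_
    · simpa using this
    · intro w hw
      have h1 := hg (w + c) (hmaps w hw)
      have h2 : HasDerivAt (fun w => w + c) 1 w := (hasDerivAt_id w).add_const c
      exact (h1.comp w h2).differentiableAt.differentiableWithinAt
    · intro w hw
      exact hre _ (hmaps w hw)
    · simpa using hz'
    · simpa using hg0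
  -- derivative bound on closedBall c r₁
  set η : ℝ := (r - r₁) / 2 with hη
  have hηpos : 0 < η := by rw [hη]; linarith
  have hgder : ∀ z ∈ closedBall c r₁, ‖deriv g z‖ ≤ 8 * r / (r - r₁) ^ 2 * L := by
    intro z hz
    have hz' : ‖z - c‖ ≤ r₁ := by rwa [mem_closedBall_iff_norm] at hz
    have hsub : closedBall z η ⊆ ball c r := by
      intro w hw
      rw [mem_closedBall_iff_norm] at hw
      rw [mem_ball_iff_norm]
      calc ‖w - c‖ = ‖(w - z) + (z - c)‖ := by ring_nf
        _ ≤ ‖w - z‖ + ‖z - c‖ := norm_add_le _ _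
        _ ≤ η + r₁ := add_le_add hw hz'
        _ < r := by rw [hη]; linarith
    have hd : DiffContOnCl ℂ g (ball z η) := by
      constructor
      · exact hgd.mono (ball_subset_closedBall.trans hsub)
      · rw [closure_ball z hηpos.ne']
        exact hgd.continuousOn.mono hsub
    have hC : ∀ w ∈ sphere z η, ‖g w‖ ≤ 2 * L * r / η := by
      intro w hw
      have hwb := hsub (sphere_subset_closedBall hw)
      have h1 := hbc w hwb
      have hw1 : ‖w - c‖ ≤ η + r₁ := by
        rw [mem_sphere_iff_norm] at hw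
        calc ‖w - c‖ = ‖(w - z) + (z - c)‖ := by ring_nf
          _ ≤ ‖w - z‖ + ‖z - c‖ := norm_add_le _ _
          _ ≤ η + r₁ := add_le_add hw.le hz'
      have hw2 : η ≤ r - ‖w - c‖ := by rw [hη] at *; linarith
      have hw3 : ‖w - c‖ ≤ r := by linarith
      calc ‖g w‖ ≤ 2 * L * ‖w - c‖ / (r - ‖w - c‖) := h1
        _ ≤ 2 * L * r / η := by
          apply div_le_div₀ _ _ hηpos hw2
          · positivity
          · have : 0 ≤ 2 * L := by linarith
            exact mul_le_mul_of_nonneg_left hw3 this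
    have h2 := Complex.norm_deriv_le_of_forall_mem_sphere_norm_le hηpos hd hC
    calc ‖deriv g z‖ ≤ 2 * L * r / η / η := h2
      _ = 8 * r / (r - r₁) ^ 2 * L := by
        rw [hη]
        have : r - r₁ ≠ 0 := by linarith
        field_simp
        ring
  -- mean value inequality
  intro z hz w hw
  have hsub1 : closedBall c r₁ ⊆ ball c r := closedBall_subset_ball hrr
  have hmv : ‖g w - g z‖ ≤ 8 * r / (r - r₁) ^ 2 * L * ‖w - z‖ := by
    apply Convex.norm_image_sub_le_of_norm_deriv_le (s := closedBall c r₁) (𝕜 := ℂ) _ hgder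
      (convex_closedBall c r₁) hz hw
    intro x hx
    exact (hg x (hsub1 hx)).differentiableAt
  rw [hexp w (hsub1 hw), hexp z (hsub1 hz), norm_mul, norm_mul, Complex.norm_exp, Complex.norm_exp]
  have h5 : (g w).re ≤ (g z).re + 8 * r / (r - r₁) ^ 2 * L * ‖w - z‖ := by
    have := (Complex.re_le_norm (g w - g z)).trans hmv
    rw [Complex.sub_re] at this
    linarith
  calc ‖h c‖ * Real.exp (g w).re
      ≤ ‖h c‖ * Real.exp ((g z).re + 8 * r / (r - r₁) ^ 2 * L * ‖w - z‖) := by gcongr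
    _ = Real.exp (8 * r / (r - r₁) ^ 2 * L * ‖w - z‖) * (‖h c‖ * Real.exp (g z).re) := by
      rw [Real.exp_add]; ring

end Pool.Agent.Lib.MP_6bc78b_nt.H11
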