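import Mathlib
import Pool.Agent.Lib.MP_6bc78b_nt.H11.Landau

/-! Bounds for higher derivatives in terms of zeros. -/

namespace Pool.Agent.Lib.MP_6bc78b_nt.H11

open Complex MeasureTheory Set Filter Topology Metric

/-- the sum `∑ 1/|z-ρ|`. -/
noncomputable def zsum (Z : Multiset ℂ) (z : ℂ) : ℝ := (Z.map (fun ρ => 1 / ‖z - ρ‖)).sum

@[simp] lemma zsum_zero (z : ℂ) : zsum 0 z = 0 := by simp [zsum]

@[simp] lemma zsum_cons (a : ℂ) (Z : Multiset ℂ) (z : ℂ) :
    zsum (a ::ₘ Z) z = 1 / ‖z - a‖ + zsum Z z := by simp [zsum]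

lemma zsum_nonneg (Z : Multiset ℂ) (z : ℂ) : 0 ≤ zsum Z z := by
  induction Z using Multiset.induction_on with
  | empty => simp
  | cons a Z ih => rw [zsum_cons]; positivity

lemma iter_linear_mul {F : ℂ → ℂ} {z : ℂ} (hF : AnalyticAt ℂ F z) (ρ : ℂ) (j : ℕ) :
    iteratedDeriv (j + 1) (fun w => (w - ρ) * F w) z =
      (z - ρ) * iteratedDeriv (j + 1) F z + ((j + 1 : ℕ) : ℂ) * iteratedDeriv j F z := by
  have hl : AnalyticAt ℂ (fun w : ℂ => w - ρ) z := by fun_prop
  rw [iteratedDeriv_fun_mul hl.contDiffAt hF.contDiffAt]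
  rw [Finset.sum_range_succ', Finset.sum_range_succ']
  have h1 : deriv (fun w : ℂ => w - ρ) = fun _ => (1 : ℂ) := by
    ext w; simp
  have h0 : ∑ x ∈ Finset.range j, (((j + 1).choose (x + 1 + 1) : ℕ) : ℂ) *
      iteratedDeriv (x + 1 + 1) (fun w : ℂ => w - ρ) z * iteratedDeriv (j + 1 - (x + 1 + 1)) F z
        = 0 := by
    apply Finset.sum_eq_zero
    intro i _
    rw [iteratedDeriv_succ', h1, iteratedDeriv_succ']
    simp
  rw [h0]
  simp only [zero_add, Nat.choose_one_right, iteratedDeriv_one, h1, mul_one, Nat.choose_zero_right,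
    Nat.cast_one, one_mul, iteratedDeriv_zero, Nat.sub_zero, Nat.add_sub_cancel]
  ring

lemma iter_bound_linear {F : ℂ → ℂ} {z : ℂ} (hF : AnalyticAt ℂ F z) {ρ : ℂ} (hz : z ≠ ρ)
    {a X : ℝ} (ha : 0 ≤ a) (hX : 0 ≤ X)
    (hb : ∀ j : ℕ, ‖iteratedDeriv j F z‖ ≤ a * j.factorial * X ^ j * ‖F z‖) (j : ℕ) :
    ‖iteratedDeriv j (fun w => (w - ρ) * F w) z‖ ≤
      a * j.factorial * (1 / ‖z - ρ‖ + X) ^ j * ‖(z - ρ) * F z‖ := by
  have hu : 0 < ‖z - ρ‖ := norm_pos_iff.mpr (sub_ne_zero.mpr hz)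
  set u : ℝ := 1 / ‖z - ρ‖ with hudef
  have hu0 : 0 < u := by positivity
  rcases j with _ | j
  · simp only [iteratedDeriv_zero, Nat.factorial_zero, Nat.cast_one, mul_one, pow_zero]
    have := hb 0
    simp only [iteratedDeriv_zero, Nat.factorial_zero, Nat.cast_one, mul_one, pow_zero] at this
    rw [norm_mul]
    nlinarith [norm_nonneg (F z)]
  · rw [iter_linear_mul hF]
    have h1 := hb (j + 1)
    have h2 := hb j
    have hbern : X ^ (j + 1) + ((j + 1 : ℕ) : ℝ) * u * X ^ j ≤ (u + X) ^ (j + 1) := by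
      have : (u + X) ^ (j + 1) = (X + u) ^ (j + 1) := by ring
      rw [this]
      clear h1 h2 hb this
      induction j with
      | zero => simp
      | succ j ih =>
        rw [pow_succ (X + u)]
        have h3 : (X ^ (j + 1) + ((j + 1 : ℕ) : ℝ) * u * X ^ j) * (X + u) ≤
            (X + u) ^ (j + 1) * (X + u) := mul_le_mul_of_nonneg_right ih (by positivity)
        refine le_trans ?_ h3
        have h4 : 0 ≤ ((j + 1 : ℕ) : ℝ) * u * X ^ j * u := by positivity
        push_cast at h4 ⊢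
        have e : (X ^ (j + 1) + ((j : ℝ) + 1) * u * X ^ j) * (X + u) = X ^ (j + 1 + 1) +
          ((j : ℝ) + 1 + 1) * u * X ^ (j + 1) + ((j : ℝ) + 1) * u * X ^ j * u := by ring
        rw [e]
        linarith
    calc ‖(z - ρ) * iteratedDeriv (j + 1) F z + ((j + 1 : ℕ) : ℂ) * iteratedDeriv j F z‖
        ≤ ‖z - ρ‖ * ‖iteratedDeriv (j + 1) F z‖ + ((j + 1 : ℕ) : ℝ) * ‖iteratedDeriv j F z‖ := by
          refine (norm_add_le _ _).trans ?_
          rw [norm_mul, norm_mul, Complex.norm_natCast]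
      _ ≤ ‖z - ρ‖ * (a * (j + 1).factorial * X ^ (j + 1) * ‖F z‖)
          + ((j + 1 : ℕ) : ℝ) * (a * j.factorial * X ^ j * ‖F z‖) := by gcongr
      _ = a * (j + 1).factorial * ‖z - ρ‖ * ‖F z‖ * (X ^ (j + 1) + u * X ^ j) := by
          rw [Nat.factorial_succ, hudef]
          push_cast
          field_simp
      _ ≤ a * (j + 1).factorial * ‖z - ρ‖ * ‖F z‖ * (u + X) ^ (j + 1) := by
          apply mul_le_mul_of_nonneg_left _ (by positivity)
          refine le_trans ?_ hbern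
          have h5 : u * X ^ j ≤ ((j + 1 : ℕ) : ℝ) * (u * X ^ j) := by
            have : (1 : ℝ) ≤ ((j + 1 : ℕ) : ℝ) := by
              push_cast
              have : (0 : ℝ) ≤ j := Nat.cast_nonneg j
              linarith
            have h6 : 0 ≤ u * X ^ j := by positivity
            nlinarith
          linarith
      _ = a * (j + 1).factorial * (u + X) ^ (j + 1) * ‖(z - ρ) * F z‖ := by
          rw [norm_mul]; ring

lemma iter_bound_zprod {h : ℂ → ℂ} {z : ℂ} (hh : AnalyticAt ℂ h z)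
    {a X : ℝ} (ha : 0 ≤ a) (hX : 0 ≤ X)
    (hb : ∀ j : ℕ, ‖iteratedDeriv j h z‖ ≤ a * j.factorial * X ^ j * ‖h z‖)
    (Z : Multiset ℂ) (hZ : ∀ ρ ∈ Z, z ≠ ρ) (j : ℕ) :
    ‖iteratedDeriv j (fun w => zprod Z w * h w) z‖ ≤
      a * j.factorial * (zsum Z z + X) ^ j * ‖zprod Z z * h z‖ := by
  induction Z using Multiset.induction_on generalizing j with
  | empty =>
    simp only [zprod_zero, one_mul, zsum_zero, zero_add]
    exact hb j
  | cons ρ Z ih =>
    have ih' := ih (fun ρ' hρ' => hZ ρ' (Multiset.mem_cons_of_mem hρ'))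
    have hF : AnalyticAt ℂ (fun w => zprod Z w * h w) z :=
      ((zprod_differentiable Z).analyticAt z).mul hh
    have := iter_bound_linear hF (hZ ρ (Multiset.mem_cons_self ρ Z)) ha
      (add_nonneg (zsum_nonneg Z z) hX) ih' j
    have hfun : (fun w => zprod (ρ ::ₘ Z) w * h w) = fun w => (w - ρ) * (zprod Z w * h w) := by
      ext w; rw [zprod_cons]; ring
    rw [hfun, zprod_cons, zsum_cons]
    have e1 : 1 / ‖z - ρ‖ + zsum Z z + X = 1 / ‖z - ρ‖ + (zsum Z z + X) := by ring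
    have e2 : (z - ρ) * zprod Z z * h z = (z - ρ) * (zprod Z z * h z) := by ring
    rw [e1, e2]
    exact this

/-- derivative bounds from a Harnack inequality. -/
lemma iter_bound_harnack {h : ℂ → ℂ} {c : ℂ} {r₀ r₁ r A : ℝ} (h1r : r₁ < r) (hA : 0 < A)
    (hA1 : r₀ + 1 / A ≤ r₁) (hh : DifferentiableOn ℂ h (ball c r))
    (hharn : ∀ z ∈ closedBall c r₁, ∀ w ∈ closedBall c r₁,
      ‖h w‖ ≤ Real.exp (A * ‖w - z‖) * ‖h z‖) {z : ℂ} (hz : z ∈ closedBall c r₀) (j : ℕ) :
    ‖iteratedDeriv j h z‖ ≤ Real.exp 1 * j.factorial * A ^ j * ‖h z‖ := by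
  have hpos : 0 < 1 / A := by positivity
  have hz' : ‖z - c‖ ≤ r₀ := by rwa [mem_closedBall_iff_norm] at hz
  have hsub : closedBall z (1 / A) ⊆ closedBall c r₁ := by
    intro w hw
    rw [mem_closedBall_iff_norm] at hw ⊢
    calc ‖w - c‖ = ‖(w - z) + (z - c)‖ := by ring_nf
      _ ≤ ‖w - z‖ + ‖z - c‖ := norm_add_le _ _
      _ ≤ 1 / A + r₀ := add_le_add hw hz'
      _ ≤ r₁ := by linarith
  have hzc : z ∈ closedBall c r₁ := hsub (mem_closedBall_self hpos.le)
  have hsub2 : closedBall c r₁ ⊆ ball c r := closedBall_subset_ball h1r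
  have hd : DiffContOnCl ℂ h (ball z (1 / A)) := by
    constructor
    · exact hh.mono ((ball_subset_closedBall.trans hsub).trans hsub2)
    · rw [closure_ball z hpos.ne']
      exact hh.continuousOn.mono (hsub.trans hsub2)
  have hC : ∀ w ∈ sphere z (1 / A), ‖h w‖ ≤ Real.exp 1 * ‖h z‖ := by
    intro w hw
    have h1 := hharn z hzc w (hsub (sphere_subset_closedBall hw))
    rw [mem_sphere_iff_norm] at hw
    rw [hw] at h1
    have : A * (1 / A) = 1 := by field_simp
    rwa [this] at h1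
  have := Complex.norm_iteratedDeriv_le_of_forall_mem_sphere_norm_le j hpos hd hC
  calc ‖iteratedDeriv j h z‖ ≤ j.factorial * (Real.exp 1 * ‖h z‖) / (1 / A) ^ j := this
    _ = Real.exp 1 * j.factorial * A ^ j * ‖h z‖ := by
      rw [div_pow, one_pow]; field_simp

end Pool.Agent.Lib.MP_6bc78b_nt.H11
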