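import Mathlib
import Pool.Agent.Lib.MP_6bc78b_nt.H11.Growth
import Pool.Agent.Lib.MP_6bc78b_nt.H11.Iter

/-! Local factorization of the Riemann zeta function at height `T`. -/

namespace Pool.Agent.Lib.MP_6bc78b_nt.H11

open Complex MeasureTheory Set Filter Topology Metric

/-- the domain `Re s > 0`, `s ≠ 1`. -/
def UZ : Set ℂ := {s : ℂ | 0 < s.re ∧ s ≠ 1}

lemma UZ_open : IsOpen UZ := by
  have h1 : IsOpen {s : ℂ | 0 < s.re} := isOpen_lt continuous_const Complex.continuous_re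
  exact h1.inter isOpen_compl_singleton

lemma zeta_diff_UZ : DifferentiableOn ℂ riemannZeta UZ := fun _ hs =>
  (differentiableAt_riemannZeta hs.2).differentiableWithinAt

lemma norm_zeta_three (T : ℝ) : (1 : ℝ) / 3 ≤ ‖riemannZeta (3 + T * I)‖ := by
  have hre : (3 + T * I : ℂ).re = 3 := by simp
  have h1 : 1 < (3 + T * I : ℂ).re := by rw [hre]; norm_num
  rw [zeta_eq_tsum_one_div_nat_add_one_cpow h1]
  have hsq : HasSum (fun n : ℕ => 1 / (n : ℝ) ^ 2) (Real.pi ^ 2 / 6) := hasSum_zeta_two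
  have hs2 : HasSum (fun n : ℕ => 1 / ((n + 2 : ℕ) : ℝ) ^ 2) (Real.pi ^ 2 / 6 - 1) := by
    rw [← hasSum_nat_add_iff' 2] at hsq
    simpa [Finset.sum_range_succ] using hsq
  have hnorm : ∀ n : ℕ, ‖1 / ((n : ℂ) + 1) ^ (3 + T * I : ℂ)‖ = 1 / ((n : ℝ) + 1) ^ (3 : ℝ) := by
    intro n
    have hpos : (0 : ℝ) < (n : ℝ) + 1 := by positivity
    rw [norm_div, norm_one]
    have : ((n : ℂ) + 1) = (((n : ℝ) + 1 : ℝ) : ℂ) := by push_cast; ring
    rw [this, Complex.norm_cpow_eq_rpow_re_of_pos hpos, hre]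
  have hsummable : Summable (fun n : ℕ => 1 / ((n : ℂ) + 1) ^ (3 + T * I : ℂ)) := by
    rw [← summable_norm_iff]
    simp_rw [hnorm]
    have := (summable_nat_add_iff 1).mpr (Real.summable_one_div_nat_rpow.mpr (show (1 : ℝ) < 3 by norm_num))
    refine this.congr (fun n => by push_cast; ring_nf)
  rw [hsummable.tsum_eq_zero_add]
  have htail : ‖∑' n : ℕ, 1 / (((n + 1 : ℕ) : ℂ) + 1) ^ (3 + T * I : ℂ)‖ ≤ Real.pi ^ 2 / 6 - 1 := by
    rw [← hs2.tsum_eq]
    apply tsum_of_norm_bounded hs2.summable.hasSum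
    intro n
    have h2 := hnorm (n + 1)
    rw [h2]
    have hpos : (0 : ℝ) < ((n + 2 : ℕ) : ℝ) := by positivity
    have e1 : (((n + 1 : ℕ) : ℝ) + 1) = ((n + 2 : ℕ) : ℝ) := by push_cast; ring
    rw [e1]
    apply one_div_le_one_div_of_le (by positivity)
    rw [← Real.rpow_natCast]
    apply Real.rpow_le_rpow_of_exponent_le
    · have : (2 : ℕ) ≤ n + 2 := by omega
      have : (2 : ℝ) ≤ ((n + 2 : ℕ) : ℝ) := by exact_mod_cast this
      linarith
    · norm_num
  have hpi : Real.pi ^ 2 / 6 - 1 ≤ 2 / 3 := by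
    have h3 : Real.pi < 3.15 := Real.pi_lt_d2
    have h4 : 0 < Real.pi := Real.pi_pos
    nlinarith
  have h0 : (1 : ℂ) / (((0 : ℕ) : ℂ) + 1) ^ (3 + T * I : ℂ) = 1 := by simp
  rw [h0]
  have h5 : (1 : ℝ) - ‖∑' n : ℕ, 1 / (((n + 1 : ℕ) : ℂ) + 1) ^ (3 + T * I : ℂ)‖ ≤
      ‖1 + ∑' n : ℕ, 1 / (((n + 1 : ℕ) : ℂ) + 1) ^ (3 + T * I : ℂ)‖ := by
    have := norm_sub_le (1 + ∑' n : ℕ, 1 / (((n + 1 : ℕ) : ℂ) + 1) ^ (3 + T * I : ℂ))
      (∑' n : ℕ, 1 / (((n + 1 : ℕ) : ℂ) + 1) ^ (3 + T * I : ℂ))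
    simp only [add_sub_cancel_right, norm_one] at this
    linarith
  linarith

lemma log_ge_one {T : ℝ} (hT : 3 ≤ |T|) : 1 ≤ Real.log |T| := by
  have h1 : Real.log 3 ≤ Real.log |T| := Real.log_le_log (by norm_num) hT
  have h2 : (1 : ℝ) ≤ Real.log 3 := by
    rw [Real.le_log_iff_exp_le (by norm_num)]
    have := Real.exp_one_lt_d9
    linarith
  linarith

/-- The constant in the local estimates. -/
def KZ : ℝ := 1344000

/-- **Landau's local lemma for `ζ`.** -/
theorem zeta_local {T : ℝ} (hT : 3 ≤ |T|) :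
    ∃ Z : Multiset ℂ, (Z.card : ℝ) ≤ KZ * Real.log |T| ∧
      (∀ ρ ∈ Z, riemannZeta ρ = 0 ∧ (1 : ℝ) / 5 ≤ ρ.re) ∧
      ∀ s : ℂ, 1 / 2 ≤ s.re → s.re ≤ 5 → |s.im - T| ≤ 1 / 2 → riemannZeta s ≠ 0 →
        ∀ k : ℕ, ‖iteratedDeriv k riemannZeta s‖ ≤
          Real.exp 1 * k.factorial * (zsum Z s + KZ * Real.log |T|) ^ k * ‖riemannZeta s‖ := by
  set c : ℂ := 3 + T * I with hc
  have hcre : c.re = 3 := by simp [hc]
  have hcim : c.im = T := by simp [hc]
  have hlog := log_ge_one hT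
  have hTpos : 0 < |T| := by linarith
  -- geometry
  have hgeo : ∀ s ∈ closedBall c (29 / 10 : ℝ), 1 / 10 ≤ s.re ∧ 1 / 10 ≤ |s.im| := by
    intro s hs
    rw [mem_closedBall_iff_norm] at hs
    have h1 := (Complex.abs_re_le_norm (s - c)).trans hs
    have h2 := (Complex.abs_im_le_norm (s - c)).trans hs
    rw [Complex.sub_re, hcre] at h1
    rw [Complex.sub_im, hcim] at h2
    constructor
    · have := (abs_le.mp h1).1; linarith
    · have h3 : |T| ≤ |s.im| + |s.im - T| := by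
        have : T = s.im - (s.im - T) := by ring
        calc |T| = |s.im - (s.im - T)| := by rw [← this]
          _ ≤ |s.im| + |s.im - T| := abs_sub _ _
      linarith
  have hcb : closedBall c (29 / 10 : ℝ) ⊆ UZ := by
    intro s hs
    obtain ⟨h1, h2⟩ := hgeo s hs
    refine ⟨by linarith, ?_⟩
    intro h
    rw [h] at h2
    simp at h2
    linarith
  have hM : ∀ z ∈ sphere c (29 / 10 : ℝ), ‖riemannZeta z‖ ≤ 60 * |T| := by
    intro z hz
    have hz' := sphere_subset_closedBall hz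
    obtain ⟨h1, h2⟩ := hgeo z hz'
    have hz1 : z ≠ 1 := (hcb hz').2
    have h3 := zeta_growth h1 hz1
    have h4 : 1 / 10 ≤ ‖z - 1‖ := by
      have := Complex.abs_im_le_norm (z - 1)
      simp only [Complex.sub_im, Complex.one_im, sub_zero] at this
      linarith
    have h5 : ‖z‖ ≤ 3 * |T| := by
      rw [mem_closedBall_iff_norm] at hz'
      have h6 : ‖z‖ ≤ ‖z - c‖ + ‖c‖ := norm_le_norm_sub_add z c
      have h7 : ‖c‖ ≤ 3 + |T| := by
        rw [hc]
        refine (norm_add_le _ _).trans ?_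
        rw [norm_mul, Complex.norm_I, mul_one, Complex.norm_real, Real.norm_eq_abs]
        simp
      linarith
    have h8 : ‖z‖ / ‖z - 1‖ ≤ 10 * ‖z‖ := by
      rw [div_le_iff₀ (by linarith)]
      nlinarith [norm_nonneg z]
    linarith
  have hfc : (1 : ℝ) / 3 ≤ ‖riemannZeta c‖ := norm_zeta_three T
  have hfc0 : 0 < ‖riemannZeta c‖ := by linarith
  have hc0 : riemannZeta c ≠ 0 := norm_pos_iff.mp hfc0
  obtain ⟨Z, h, hh, hfac, hZ, hne⟩ := extract_zeros UZ_open zeta_diff_UZ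
    (show (0 : ℝ) < 28 / 10 by norm_num) (show (28 / 10 : ℝ) < 29 / 10 by norm_num) hcb hM hc0
  have hcU : c ∈ UZ := hcb (mem_closedBall_self (by norm_num))
  -- the quotient M / |f c|
  have hratio : 60 * |T| ≤ 180 * |T| * ‖riemannZeta c‖ := by nlinarith
  have hlog180 : Real.log (180 * |T|) ≤ 6 * Real.log |T| := by
    rw [Real.log_mul (by norm_num) hTpos.ne']
    have h3 : Real.log 180 ≤ 5 * Real.log 3 := by
      rw [← Real.log_rpow (by norm_num)]
      apply Real.log_le_log (by norm_num)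
      norm_num
    have h4 : Real.log 3 ≤ Real.log |T| := Real.log_le_log (by norm_num) hT
    linarith
  -- number of zeros
  have hcard : (Z.card : ℝ) ≤ 174 * Real.log |T| := by
    have h1 := count_bound (f := riemannZeta) (show (0 : ℝ) < 28 / 10 by norm_num)
      (show (28 / 10 : ℝ) < 29 / 10 by norm_num) hcb hM Z hh hfac (fun ρ hρ => (hZ ρ hρ).1)
    have h2 : ((29 : ℝ) / 28) ^ Z.card ≤ 180 * |T| := by
      have h3 : ((28 / 10 : ℝ) / (29 / 10)) ^ Z.card = (((29 : ℝ) / 28) ^ Z.card)⁻¹ := by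
        rw [← inv_pow]; norm_num
      rw [h3] at h1
      have h4 : (0 : ℝ) < (29 / 28 : ℝ) ^ Z.card := by positivity
      rw [← div_eq_mul_inv, le_div_iff₀ h4] at h1
      have h5 : ‖riemannZeta c‖ * (29 / 28 : ℝ) ^ Z.card ≤ 180 * |T| * ‖riemannZeta c‖ :=
        h1.trans hratio
      nlinarith
    have h6 : (Z.card : ℝ) * Real.log (29 / 28) ≤ 6 * Real.log |T| := by
      have := Real.log_le_log (by positivity) h2
      rw [Real.log_pow] at this
      linarith
    have h7 : (1 : ℝ) / 29 ≤ Real.log (29 / 28) := by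
      have := Real.one_sub_inv_le_log_of_pos (show (0 : ℝ) < 29 / 28 by norm_num)
      norm_num at this ⊢
      linarith
    have h8 : (0 : ℝ) ≤ Z.card := Nat.cast_nonneg _
    nlinarith
  set L : ℝ := 600 * Real.log |T| with hL
  have hLpos : 0 < L := by rw [hL]; linarith
  -- bound for h on the ball
  have hball : ball c (28 / 10 : ℝ) ⊆ closedBall c (29 / 10 : ℝ) :=
    (ball_subset_ball (by norm_num)).trans ball_subset_closedBall
  have hsphere : ∀ z ∈ sphere c (29 / 10 : ℝ), ‖h z‖ ≤ 60 * |T| * 10 ^ Z.card := by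
    intro z hz
    have hzU := hcb (sphere_subset_closedBall hz)
    have h1 := hM z hz
    rw [hfac z hzU, norm_mul] at h1
    have h2 : (1 / 10 : ℝ) ^ Z.card ≤ ‖zprod Z z‖ := by
      apply norm_zprod_ge (by norm_num)
      intro ρ hρ
      have h3 := (hZ ρ hρ).1
      rw [mem_closedBall_iff_norm] at h3
      rw [mem_sphere_iff_norm] at hz
      have h4 : ‖z - c‖ ≤ ‖z - ρ‖ + ‖ρ - c‖ := by
        calc ‖z - c‖ = ‖(z - ρ) + (ρ - c)‖ := by ring_nf
          _ ≤ _ := norm_add_le _ _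
      linarith
    have h3 : (1 / 10 : ℝ) ^ Z.card * ‖h z‖ ≤ 60 * |T| :=
      (mul_le_mul_of_nonneg_right h2 (norm_nonneg _)).trans h1
    rw [one_div, inv_pow] at h3
    have h4 : (0 : ℝ) < (10 : ℝ) ^ Z.card := by positivity
    rw [inv_mul_le_iff₀ h4] at h3
    linarith
  have hhc : ‖riemannZeta c‖ ≤ (28 / 10 : ℝ) ^ Z.card * ‖h c‖ := by
    rw [hfac c hcU, norm_mul]
    apply mul_le_mul_of_nonneg_right _ (norm_nonneg _)
    apply norm_zprod_le (by norm_num)
    intro ρ hρ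
    have := (hZ ρ hρ).1
    rwa [mem_closedBall, dist_comm, dist_eq_norm] at this
  have hbound : ∀ z ∈ ball c (28 / 10 : ℝ), ‖h z‖ ≤ Real.exp L * ‖h c‖ := by
    intro z hz
    have h1 : ‖h z‖ ≤ 60 * |T| * 10 ^ Z.card :=
      max_mod hh (by norm_num) hcb hsphere (hball hz)
    have h2 : 60 * |T| ≤ 180 * |T| * ((28 / 10 : ℝ) ^ Z.card * ‖h c‖) :=
      hratio.trans (mul_le_mul_of_nonneg_left hhc (by positivity))
    have h3 : ‖h z‖ ≤ 180 * |T| * (28 : ℝ) ^ Z.card * ‖h c‖ := by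
      calc ‖h z‖ ≤ 60 * |T| * 10 ^ Z.card := h1
        _ ≤ 180 * |T| * ((28 / 10 : ℝ) ^ Z.card * ‖h c‖) * 10 ^ Z.card := by gcongr
        _ = 180 * |T| * (28 : ℝ) ^ Z.card * ‖h c‖ := by
          have : (28 : ℝ) ^ Z.card = (28 / 10 : ℝ) ^ Z.card * 10 ^ Z.card := by
            rw [← mul_pow]; norm_num
          rw [this]; ring
    refine h3.trans (mul_le_mul_of_nonneg_right ?_ (norm_nonneg _))
    rw [← Real.log_le_iff_le_exp (by positivity), Real.log_mul (by positivity) (by positivity),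
      Real.log_pow]
    have h4 : Real.log 28 ≤ 3.4 := by
      rw [Real.log_le_iff_le_exp (by norm_num)]
      have h5 : Real.exp 3.4 = Real.exp 1 ^ (3 : ℕ) * Real.exp 0.4 := by
        rw [← Real.exp_nat_mul, ← Real.exp_add]; norm_num
      rw [h5]
      have h6 : (2.718 : ℝ) ≤ Real.exp 1 := by have := Real.exp_one_gt_d9; linarith
      have h7 : (1.4 : ℝ) ≤ Real.exp 0.4 := by have := Real.add_one_le_exp (0.4 : ℝ); linarith
      have h8 : (2.718 : ℝ) ^ (3 : ℕ) ≤ Real.exp 1 ^ (3 : ℕ) := by gcongr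
      have h9 : (2.718 : ℝ) ^ (3 : ℕ) * 1.4 ≤ Real.exp 1 ^ (3 : ℕ) * Real.exp 0.4 := by gcongr
      refine le_trans ?_ h9
      norm_num
    have h9 : (Z.card : ℝ) * Real.log 28 ≤ 174 * Real.log |T| * 3.4 := by
      apply mul_le_mul hcard h4 (Real.log_nonneg (by norm_num)) (by positivity)
    rw [hL]
    linarith
  have hharn := harnack_of_nonvanishing (h := h) (c := c) (r₁ := 27 / 10) (r := 28 / 10) (L := L)
    (by norm_num) (by norm_num) hLpos (hh.mono (hball.trans hcb))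
    (fun z hz => hne z (ball_subset_closedBall hz)) hbound
  have hAeq : 8 * (28 / 10 : ℝ) / (28 / 10 - 27 / 10) ^ 2 * L = KZ * Real.log |T| := by
    rw [hL]; unfold KZ; ring
  rw [hAeq] at hharn
  have hApos : 0 < KZ * Real.log |T| := by unfold KZ; positivity
  refine ⟨Z, ?_, ?_, ?_⟩
  · refine hcard.trans ?_
    unfold KZ
    linarith
  · intro ρ hρ
    refine ⟨(hZ ρ hρ).2, ?_⟩
    have h1 := (hZ ρ hρ).1
    rw [mem_closedBall_iff_norm] at h1
    have h2 := (Complex.abs_re_le_norm (ρ - c)).trans h1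
    rw [Complex.sub_re, hcre] at h2
    have := (abs_le.mp h2).1
    linarith
  · intro s hs1 hs2 hs3 hs0 k
    have hsc : s ∈ closedBall c (26 / 10 : ℝ) := by
      rw [mem_closedBall_iff_norm]
      have h1 : ‖s - c‖ ^ 2 ≤ (26 / 10 : ℝ) ^ 2 := by
        rw [Complex.sq_norm, Complex.normSq_apply, Complex.sub_re, Complex.sub_im, hcre, hcim]
        have h2 := abs_le.mp hs3
        nlinarith
      exact le_of_sq_le_sq h1 (by norm_num)
    have hb := iter_bound_harnack (h := h) (c := c) (r₀ := 26 / 10) (r₁ := 27 / 10)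
      (r := 28 / 10) (A := KZ * Real.log |T|) (by norm_num) hApos ?_
      (hh.mono (hball.trans hcb)) hharn hsc
    · have hsU : s ∈ UZ := hcb (closedBall_subset_closedBall (by norm_num) hsc)
      have hana : AnalyticAt ℂ h s := hh.analyticAt (UZ_open.mem_nhds hsU)
      have hZs : ∀ ρ ∈ Z, s ≠ ρ := by
        intro ρ hρ h1
        apply hs0
        rw [h1]; exact (hZ ρ hρ).2
      have hmain := iter_bound_zprod hana (Real.exp_pos 1).le hApos.le hb Z hZs k
      have heq : riemannZeta =ᶠ[𝓝 s] (fun w => zprod Z w * h w) := by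
        filter_upwards [UZ_open.mem_nhds hsU] with w hw
        exact hfac w hw
      rw [heq.iteratedDeriv_eq k, heq.eq_of_nhds]
      exact hmain
    · have : 1 / (KZ * Real.log |T|) ≤ 1 / 10 := by
        apply one_div_le_one_div_of_le (by norm_num)
        unfold KZ; linarith
      linarith

end Pool.Agent.Lib.MP_6bc78b_nt.H11
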