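import Mathlib
import Pool.Agent.Lib.MP_6bc78b_nt.H11.ZetaLocal

/-! Bounds for `ζ^{(k)}/ζ` to the right of the critical line, under RH. -/

namespace Pool.Agent.Lib.MP_6bc78b_nt.H11

open Complex MeasureTheory Set Filter Topology Metric

/-- `ζ^{(k)}(s)/ζ(s)`. -/
noncomputable def DZ (k : ℕ) (s : ℂ) : ℂ := iteratedDeriv k riemannZeta s / riemannZeta s

lemma zeta_ne_zero_of_RH (hRH : RiemannHypothesis) {s : ℂ} (hs : 1 / 2 < s.re) :
    riemannZeta s ≠ 0 := by
  intro h0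
  have h1 : ¬∃ n : ℕ, s = -2 * (n + 1) := by
    rintro ⟨n, hn⟩
    rw [hn] at hs
    have : ((-2 : ℂ) * ((n : ℂ) + 1)).re = -2 * ((n : ℝ) + 1) := by simp
    rw [this] at hs
    have h2 : (0 : ℝ) ≤ n := Nat.cast_nonneg n
    linarith
  have h2 : s ≠ 1 := by
    intro h; rw [h] at h0; exact riemannZeta_one_ne_zero h0
  have := hRH s h0 h1 h2
  linarith

lemma zero_re_of_RH (hRH : RiemannHypothesis) {s : ℂ} (h0 : riemannZeta s = 0)
    (hs : 0 < s.re) : s.re = 1 / 2 := by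
  have h1 : ¬∃ n : ℕ, s = -2 * (n + 1) := by
    rintro ⟨n, hn⟩
    rw [hn] at hs
    have : ((-2 : ℂ) * ((n : ℂ) + 1)).re = -2 * ((n : ℝ) + 1) := by simp
    rw [this] at hs
    have h2 : (0 : ℝ) ≤ n := Nat.cast_nonneg n
    linarith
  have h2 : s ≠ 1 := by
    intro h; rw [h] at h0; exact riemannZeta_one_ne_zero h0
  exact hRH s h0 h1 h2

/-- the sum `∑ 1/|z-ρ|²`. -/
noncomputable def zsum2 (Z : Multiset ℂ) (z : ℂ) : ℝ := (Z.map (fun ρ => 1 / ‖z - ρ‖ ^ 2)).sum

@[simp] lemma zsum2_zero (z : ℂ) : zsum2 0 z = 0 := by simp [zsum2]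

@[simp] lemma zsum2_cons (a : ℂ) (Z : Multiset ℂ) (z : ℂ) :
    zsum2 (a ::ₘ Z) z = 1 / ‖z - a‖ ^ 2 + zsum2 Z z := by simp [zsum2]

lemma zsum2_nonneg (Z : Multiset ℂ) (z : ℂ) : 0 ≤ zsum2 Z z := by
  induction Z using Multiset.induction_on with
  | empty => simp
  | cons a Z ih => rw [zsum2_cons]; positivity

lemma zsum_sq_le (Z : Multiset ℂ) (z : ℂ) : zsum Z z ^ 2 ≤ Z.card * zsum2 Z z := by
  induction Z using Multiset.induction_on with
  | empty => simp
  | cons a Z ih =>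
    rw [zsum_cons, zsum2_cons, Multiset.card_cons]
    set u := 1 / ‖z - a‖ with hu
    have hu2 : 1 / ‖z - a‖ ^ 2 = u ^ 2 := by rw [hu, div_pow, one_pow]
    rw [hu2]
    have hu0 : 0 ≤ u := by positivity
    have hS0 := zsum_nonneg Z z
    have hS2 := zsum2_nonneg Z z
    push_cast
    rcases Nat.eq_zero_or_pos Z.card with h0 | h0
    · have : Z = 0 := Multiset.card_eq_zero.mp h0
      subst this
      simp
    · have hn : (1 : ℝ) ≤ Z.card := by exact_mod_cast h0
      have h3 : 2 * u * zsum Z z ≤ Z.card * u ^ 2 + zsum2 Z z := by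
        -- 2 u S ≤ n u² + S²/n ≤ n u² + S2
        have h4 : 0 ≤ (Z.card * u - zsum Z z) ^ 2 := sq_nonneg _
        have h5 : (Z.card : ℝ) * (2 * u * zsum Z z) ≤ Z.card * (Z.card * u ^ 2 + zsum2 Z z) := by
          nlinarith
        exact le_of_mul_le_mul_left h5 (by linarith)
      nlinarith

lemma zsum_le {Z : Multiset ℂ} {z : ℂ} {d : ℝ} (hd : 0 < d) (h : ∀ ρ ∈ Z, d ≤ ‖z - ρ‖) :
    zsum Z z ≤ Z.card / d := by
  induction Z using Multiset.induction_on with
  | empty => simp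
  | cons a Z ih =>
    rw [zsum_cons, Multiset.card_cons]
    have h1 := h a (Multiset.mem_cons_self a Z)
    have h2 := ih (fun ρ hρ => h ρ (Multiset.mem_cons_of_mem hρ))
    have h3 : 1 / ‖z - a‖ ≤ 1 / d := one_div_le_one_div_of_le hd h1
    push_cast
    rw [add_div]
    linarith

lemma int_poisson {δ a b γ : ℝ} (hδ : 0 < δ) (hab : a ≤ b) :
    ∫ t in a..b, 1 / (δ ^ 2 + (t - γ) ^ 2) ≤ Real.pi / δ := by
  have hder : ∀ t ∈ uIcc a b, HasDerivAt (fun t => (1 / δ) * Real.arctan ((t - γ) / δ))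
      (1 / (δ ^ 2 + (t - γ) ^ 2)) t := by
    intro t _
    have h1 : HasDerivAt (fun t => (t - γ) / δ) (1 / δ) t :=
      ((hasDerivAt_id t).sub_const γ).div_const δ
    have h2 := (h1.arctan).const_mul (1 / δ)
    have h3 : 1 / δ * (1 / (1 + ((t - γ) / δ) ^ 2) * (1 / δ)) = 1 / (δ ^ 2 + (t - γ) ^ 2) := by
      have h4 : δ ^ 2 + (t - γ) ^ 2 ≠ 0 := by positivity
      have h5 : 1 + ((t - γ) / δ) ^ 2 = (δ ^ 2 + (t - γ) ^ 2) / δ ^ 2 := by
        field_simp
      rw [h5]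
      field_simp
    rw [h3] at h2
    exact h2
  have hcont : Continuous (fun t : ℝ => 1 / (δ ^ 2 + (t - γ) ^ 2)) := by
    apply Continuous.div continuous_const (by fun_prop)
    intro t
    positivity
  rw [intervalIntegral.integral_eq_sub_of_hasDerivAt hder (hcont.intervalIntegrable a b)]
  have h1 := Real.arctan_lt_pi_div_two ((b - γ) / δ)
  have h2 := Real.neg_pi_div_two_lt_arctan ((a - γ) / δ)
  have h3 : 0 < 1 / δ := by positivity
  rw [← mul_sub]
  calc 1 / δ * (Real.arctan ((b - γ) / δ) - Real.arctan ((a - γ) / δ))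
      ≤ 1 / δ * Real.pi := by
        apply mul_le_mul_of_nonneg_left _ h3.le
        linarith
    _ = Real.pi / δ := by ring

lemma line_norm_sq {δ t : ℝ} {ρ : ℂ} (hρ : ρ.re = 1 / 2) :
    ‖(1 / 2 + δ + t * I : ℂ) - ρ‖ ^ 2 = δ ^ 2 + (t - ρ.im) ^ 2 := by
  rw [Complex.sq_norm, Complex.normSq_apply]
  simp only [Complex.sub_re, Complex.sub_im, Complex.add_re, Complex.add_im, Complex.mul_re,
    Complex.mul_im, Complex.ofReal_re, Complex.ofReal_im, Complex.I_re, Complex.I_im, hρ]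
  norm_num
  ring

lemma zsum2_line {Z : Multiset ℂ} (hZ : ∀ ρ ∈ Z, ρ.re = 1 / 2) {δ : ℝ} (hδ : 0 < δ) (t : ℝ) :
    zsum2 Z (1 / 2 + δ + t * I) = (Z.map (fun ρ => 1 / (δ ^ 2 + (t - ρ.im) ^ 2))).sum := by
  unfold zsum2
  congr 1
  apply Multiset.map_congr rfl
  intro ρ hρ
  rw [line_norm_sq (hZ ρ hρ)]

lemma zsum2_continuous_and_int {Z : Multiset ℂ} (hZ : ∀ ρ ∈ Z, ρ.re = 1 / 2) {δ a b : ℝ}
    (hδ : 0 < δ) (hab : a ≤ b) :
    Continuous (fun t : ℝ => zsum2 Z (1 / 2 + δ + t * I)) ∧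
    ∫ t in a..b, zsum2 Z (1 / 2 + δ + t * I) ≤ Z.card * (Real.pi / δ) := by
  induction Z using Multiset.induction_on with
  | empty => simp [continuous_const]
  | cons ρ Z ih =>
    obtain ⟨ih1, ih2⟩ := ih (fun ρ' hρ' => hZ ρ' (Multiset.mem_cons_of_mem hρ'))
    have hρ := hZ ρ (Multiset.mem_cons_self ρ Z)
    have hcont : Continuous (fun t : ℝ => 1 / ‖(1 / 2 + δ + t * I : ℂ) - ρ‖ ^ 2) := by
      simp_rw [line_norm_sq hρ]
      apply Continuous.div continuous_const (by fun_prop)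
      intro t
      positivity
    simp only [zsum2_cons]
    refine ⟨hcont.add ih1, ?_⟩
    rw [intervalIntegral.integral_add (hcont.intervalIntegrable a b) (ih1.intervalIntegrable a b)]
    have h1 : ∫ t in a..b, 1 / ‖(1 / 2 + δ + t * I : ℂ) - ρ‖ ^ 2 ≤ Real.pi / δ := by
      simp_rw [line_norm_sq hρ]
      exact int_poisson hδ hab
    rw [Multiset.card_cons]
    push_cast
    linarith

/-- pointwise bound. -/
theorem DZ_pointwise (hRH : RiemannHypothesis) (k : ℕ) {s : ℂ} {δ : ℝ} (hδ : 0 < δ) (hδ1 : δ ≤ 1)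
    (hs : 1 / 2 + δ ≤ s.re) (hs2 : s.re ≤ 5) (hT : 3 ≤ |s.im|) :
    ‖DZ k s‖ ≤ Real.exp 1 * k.factorial * (2 * KZ * Real.log |s.im| / δ) ^ k := by
  obtain ⟨Z, hcard, hZ, hmain⟩ := zeta_local hT
  have hne : riemannZeta s ≠ 0 := zeta_ne_zero_of_RH hRH (by linarith)
  have h1 := hmain s (by linarith) hs2 (by simp) hne k
  have hdist : ∀ ρ ∈ Z, δ ≤ ‖s - ρ‖ := by
    intro ρ hρ
    have h2 : ρ.re = 1 / 2 := zero_re_of_RH hRH (hZ ρ hρ).1 (by have := (hZ ρ hρ).2; linarith)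
    have h3 := Complex.re_le_norm (s - ρ)
    rw [Complex.sub_re, h2] at h3
    linarith
  have h2 := zsum_le hδ hdist
  have hlog := log_ge_one hT
  set B := KZ * Real.log |s.im| with hB
  have hB0 : 0 < B := by rw [hB]; unfold KZ; positivity
  have h3 : zsum Z s + B ≤ 2 * KZ * Real.log |s.im| / δ := by
    have h4 : (Z.card : ℝ) / δ ≤ B / δ := by gcongr
    have h5 : B ≤ B / δ := by
      rw [le_div_iff₀ hδ]; nlinarith
    have h6 : 2 * KZ * Real.log |s.im| / δ = B / δ + B / δ := by rw [hB]; ring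
    rw [h6]; linarith
  unfold DZ
  rw [norm_div, div_le_iff₀ (norm_pos_iff.mpr hne)]
  refine h1.trans ?_
  have h7 := zsum_nonneg Z s
  gcongr

/-- window bound. -/
theorem DZ_window (hRH : RiemannHypothesis) {k : ℕ} (hk : 2 ≤ k) {T δ : ℝ} (hδ : 0 < δ)
    (hδ1 : δ ≤ 1) (hT : 3 ≤ |T|) :
    ∫ t in (T - 1 / 2)..(T + 1 / 2), ‖DZ k (1 / 2 + δ + t * I)‖ ≤
      Real.exp 1 * k.factorial * 2 ^ (k - 1) * (Real.pi + 1) * (KZ * Real.log |T|) ^ k
        / δ ^ (k - 1) := by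
  obtain ⟨Z, hcard, hZ, hmain⟩ := zeta_local hT
  have hlog := log_ge_one hT
  set B := KZ * Real.log |T| with hB
  have hB0 : 0 < B := by rw [hB]; unfold KZ; positivity
  have hZre : ∀ ρ ∈ Z, ρ.re = 1 / 2 := fun ρ hρ =>
    zero_re_of_RH hRH (hZ ρ hρ).1 (by have := (hZ ρ hρ).2; linarith)
  have hsre : ∀ t : ℝ, (1 / 2 + δ + t * I : ℂ).re = 1 / 2 + δ := by intro t; simp
  have hsim : ∀ t : ℝ, (1 / 2 + δ + t * I : ℂ).im = t := by intro t; simp
  have hab : T - 1 / 2 ≤ T + 1 / 2 := by linarith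
  obtain ⟨hc2, hi2⟩ := zsum2_continuous_and_int hZre hδ hab
  obtain ⟨j, rfl⟩ : ∃ j, k = j + 2 := ⟨k - 2, by omega⟩
  set Ck : ℝ := Real.exp 1 * (j + 2).factorial with hCk
  have hCk0 : 0 < Ck := by positivity
  -- pointwise majorant
  have hpt : ∀ t ∈ Icc (T - 1 / 2) (T + 1 / 2), ‖DZ (j + 2) (1 / 2 + δ + t * I)‖ ≤
      Ck * (2 ^ (j + 1) * ((B / δ) ^ j * (B * zsum2 Z (1 / 2 + δ + t * I)) + B ^ (j + 2))) := by
    intro t ht
    have hne : riemannZeta (1 / 2 + δ + t * I) ≠ 0 :=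
      zeta_ne_zero_of_RH hRH (by rw [hsre]; linarith)
    have h1 := hmain (1 / 2 + δ + t * I) (by rw [hsre]; linarith) (by rw [hsre]; linarith)
      (by rw [hsim, abs_le]; constructor <;> linarith [ht.1, ht.2]) hne (j + 2)
    unfold DZ
    rw [norm_div, div_le_iff₀ (norm_pos_iff.mpr hne)]
    refine h1.trans (mul_le_mul_of_nonneg_right ?_ (norm_nonneg _))
    rw [← hCk]
    apply mul_le_mul_of_nonneg_left _ hCk0.le
    have hS0 := zsum_nonneg Z (1 / 2 + δ + t * I)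
    have h2 : (zsum Z (1 / 2 + δ + t * I) + B) ^ (j + 2) ≤
        2 ^ (j + 2 - 1) * (zsum Z (1 / 2 + δ + t * I) ^ (j + 2) + B ^ (j + 2)) :=
      add_pow_le hS0 hB0.le _
    refine h2.trans ?_
    have e1 : j + 2 - 1 = j + 1 := by omega
    rw [e1]
    apply mul_le_mul_of_nonneg_left _ (by positivity)
    apply add_le_add_left
    rw [pow_add]
    have hdist : ∀ ρ ∈ Z, δ ≤ ‖(1 / 2 + δ + t * I : ℂ) - ρ‖ := by
      intro ρ hρ
      have h3 := Complex.re_le_norm ((1 / 2 + δ + t * I : ℂ) - ρ)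
      rw [Complex.sub_re, hZre ρ hρ, hsre] at h3
      linarith
    have h3 : zsum Z (1 / 2 + δ + t * I) ≤ B / δ := by
      refine (zsum_le hδ hdist).trans ?_
      gcongr
    have h4 : zsum Z (1 / 2 + δ + t * I) ^ 2 ≤ B * zsum2 Z (1 / 2 + δ + t * I) := by
      refine (zsum_sq_le Z _).trans ?_
      apply mul_le_mul_of_nonneg_right hcard (zsum2_nonneg _ _)
    apply mul_le_mul _ h4 (by positivity) (by positivity)
    gcongr
  -- integrate
  have hcontR : Continuous (fun t : ℝ => Ck * (2 ^ (j + 1) *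
      ((B / δ) ^ j * (B * zsum2 Z (1 / 2 + δ + t * I)) + B ^ (j + 2)))) := by
    exact continuous_const.mul (continuous_const.mul
      ((continuous_const.mul (continuous_const.mul hc2)).add continuous_const))
  calc ∫ t in (T - 1 / 2)..(T + 1 / 2), ‖DZ (j + 2) (1 / 2 + δ + t * I)‖
      ≤ ∫ t in (T - 1 / 2)..(T + 1 / 2), Ck * (2 ^ (j + 1) *
      ((B / δ) ^ j * (B * zsum2 Z (1 / 2 + δ + t * I)) + B ^ (j + 2))) := by
        rw [intervalIntegral.integral_of_le hab, intervalIntegral.integral_of_le hab]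
        apply integral_mono_of_nonneg
        · exact ae_of_all _ (fun t => norm_nonneg _)
        · exact (hcontR.integrableOn_Icc).mono_set Ioc_subset_Icc_self
        · filter_upwards [self_mem_ae_restrict measurableSet_Ioc] with t ht
          exact hpt t (Ioc_subset_Icc_self ht)
    _ = Ck * (2 ^ (j + 1) * ((B / δ) ^ j * (B *
          ∫ t in (T - 1 / 2)..(T + 1 / 2), zsum2 Z (1 / 2 + δ + t * I)) + B ^ (j + 2))) := by
        rw [intervalIntegral.integral_const_mul, intervalIntegral.integral_const_mul,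
          intervalIntegral.integral_add, intervalIntegral.integral_const_mul,
          intervalIntegral.integral_const_mul, intervalIntegral.integral_const]
        · have : T + 1 / 2 - (T - 1 / 2) = 1 := by ring
          rw [this, one_smul]
        · exact (continuous_const.mul (continuous_const.mul hc2)).intervalIntegrable _ _
        · exact continuous_const.intervalIntegrable _ _
    _ ≤ Ck * (2 ^ (j + 1) * ((B / δ) ^ j * (B * (B * (Real.pi / δ))) + B ^ (j + 2) / δ ^ (j + 1))) := by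
        have h5 : ∫ t in (T - 1 / 2)..(T + 1 / 2), zsum2 Z (1 / 2 + δ + t * I)
            ≤ B * (Real.pi / δ) := by
          refine hi2.trans ?_
          have := Real.pi_pos
          gcongr
        have h6 : B ^ (j + 2) ≤ B ^ (j + 2) / δ ^ (j + 1) := by
          rw [le_div_iff₀ (by positivity)]
          have : δ ^ (j + 1) ≤ 1 := pow_le_one₀ hδ.le hδ1
          have hBp : 0 < B ^ (j + 2) := by positivity
          nlinarith
        gcongr
    _ = Real.exp 1 * (j + 2).factorial * 2 ^ (j + 2 - 1) * (Real.pi + 1) * B ^ (j + 2)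
        / δ ^ (j + 2 - 1) := by
        have e1 : j + 2 - 1 = j + 1 := by omega
        rw [e1, hCk, div_pow]
        field_simp
        ring

end Pool.Agent.Lib.MP_6bc78b_nt.H11
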