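import Mathlib
import Pool.Agent.Lib.MP_6bc78b_nt.H11.Window

/-! The weight function `W`: `ζ^{(k)}/ζ /(s(s+1))` with its polar part at `1` removed. -/

namespace Pool.Agent.Lib.MP_6bc78b_nt.H11

open Complex MeasureTheory Set Filter Topology Metric

/-- the half plane `Re s > 1/2`. -/
def OM : Set ℂ := {s : ℂ | 1 / 2 < s.re}

lemma OM_open : IsOpen OM := isOpen_lt continuous_const Complex.continuous_re

/-- Taylor expansion with remainder by iterated slopes. -/
lemma taylor_dslope {Φ : ℂ → ℂ} {U : Set ℂ} (hU : IsOpen U) (h1 : (1 : ℂ) ∈ U)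
    (hΦ : DifferentiableOn ℂ Φ U) (k : ℕ) :
    ∃ (c : ℕ → ℂ) (Ψ : ℂ → ℂ), DifferentiableOn ℂ Ψ U ∧
      ∀ s, Φ s = (∑ i ∈ Finset.range k, c i * (s - 1) ^ i) + (s - 1) ^ k * Ψ s := by
  induction k with
  | zero => exact ⟨fun _ => 0, Φ, hΦ, fun s => by simp⟩
  | succ k ih =>
    obtain ⟨c, Ψ, hΨ, h⟩ := ih
    refine ⟨Function.update c k (Ψ 1), dslope Ψ 1,
      (Complex.differentiableOn_dslope (hU.mem_nhds h1)).mpr hΨ, ?_⟩
    intro s
    have h2 : (s - 1) * dslope Ψ 1 s = Ψ s - Ψ 1 := by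
      have := sub_smul_dslope Ψ 1 s
      rwa [smul_eq_mul] at this
    rw [h s, Finset.sum_range_succ]
    have h3 : ∑ x ∈ Finset.range k, Function.update c k (Ψ 1) x * (s - 1) ^ x
        = ∑ x ∈ Finset.range k, c x * (s - 1) ^ x := by
      apply Finset.sum_congr rfl
      intro i hi
      have : i ≠ k := (Finset.mem_range.mp hi).ne
      rw [Function.update_of_ne this]
    rw [h3, Function.update_self, pow_succ]
    linear_combination (-(s - 1) ^ k) * h2

lemma iteratedDeriv_inv_sub_one (k : ℕ) {s : ℂ} (hs : s ≠ 1) :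
    iteratedDeriv k (fun s : ℂ => (s - 1)⁻¹) s = (-1) ^ k * k.factorial / (s - 1) ^ (k + 1) := by
  induction k generalizing s with
  | zero => simp
  | succ k ih =>
    rw [iteratedDeriv_succ]
    have hev : iteratedDeriv k (fun s : ℂ => (s - 1)⁻¹) =ᶠ[𝓝 s]
        fun s => (-1) ^ k * k.factorial / (s - 1) ^ (k + 1) := by
      filter_upwards [isOpen_ne.mem_nhds hs] with w hw
      exact ih hw
    rw [hev.deriv_eq]
    have hne : s - 1 ≠ 0 := sub_ne_zero.mpr hs
    have h1 : HasDerivAt (fun s : ℂ => (s - 1) ^ (k + 1)) (((k + 1 : ℕ) : ℂ) * (s - 1) ^ k * 1) s := by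
      have := ((hasDerivAt_id s).sub_const 1).fun_pow (k + 1)
      simpa using this
    have h2 := (hasDerivAt_const s ((-1 : ℂ) ^ k * k.factorial)).fun_div h1 (pow_ne_zero _ hne)
    rw [h2.deriv, Nat.factorial_succ]
    push_cast
    field_simp
    ring

lemma iteratedDeriv_zeta (k : ℕ) {s : ℂ} (hs : s ≠ 1) :
    iteratedDeriv k riemannZeta s =
      iteratedDeriv k riemannZeta₀ s + (-1) ^ k * k.factorial / (s - 1) ^ (k + 1) := by
  have hev : riemannZeta =ᶠ[𝓝 s] (fun s => riemannZeta₀ s + (s - 1)⁻¹) := by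
    filter_upwards [isOpen_ne.mem_nhds hs] with w hw
    rw [riemannZeta_eq_inv_sub_add hw]; ring
  rw [hev.iteratedDeriv_eq k, iteratedDeriv_fun_add, iteratedDeriv_inv_sub_one k hs]
  · exact differentiable_riemannZeta₀.contDiff.contDiffAt
  · have hne : s - 1 ≠ 0 := sub_ne_zero.mpr hs
    have h0 : AnalyticAt ℂ (fun s : ℂ => s - 1) s := by fun_prop
    have : AnalyticAt ℂ (fun s : ℂ => (s - 1)⁻¹) s := h0.fun_inv hne
    exact this.contDiffAt

/-- `(s-1)^k ζ^{(k)}(s)/ζ(s) (-1)^k/(s(s+1))`, analytic also at `s = 1`. -/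
noncomputable def PhiZ (k : ℕ) (s : ℂ) : ℂ :=
  (-1) ^ k * ((s - 1) ^ (k + 1) * iteratedDeriv k riemannZeta₀ s + (-1) ^ k * k.factorial) /
    (riemannZeta₁ s * (s * (s + 1)))

lemma zeta1_eq {s : ℂ} (hs : s ≠ 1) : riemannZeta₁ s = (s - 1) * riemannZeta s := by
  rw [riemannZeta_eq_inv_sub_mul hs]
  have hne : s - 1 ≠ 0 := sub_ne_zero.mpr hs
  field_simp

lemma OM_ne {s : ℂ} (hs : s ∈ OM) : s ≠ 0 ∧ s + 1 ≠ 0 := by
  have h : 1 / 2 < s.re := hs
  constructor
  · intro h0; rw [h0] at h; simp at h; linarith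
  · intro h0
    have : s = -1 := by linear_combination h0
    rw [this] at h; simp at h; linarith

lemma zeta1_ne_zero (hRH : RiemannHypothesis) {s : ℂ} (hs : s ∈ OM) : riemannZeta₁ s ≠ 0 := by
  by_cases h1 : s = 1
  · rw [h1]; simp
  · rw [zeta1_eq h1]
    exact mul_ne_zero (sub_ne_zero.mpr h1) (zeta_ne_zero_of_RH hRH hs)

lemma PhiZ_diff (hRH : RiemannHypothesis) (k : ℕ) : DifferentiableOn ℂ (PhiZ k) OM := by
  intro s hs
  have h0 := OM_ne hs
  have h1 := zeta1_ne_zero hRH hs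
  have hd : DifferentiableAt ℂ (iteratedDeriv k riemannZeta₀) s := by
    have h2 : ContDiff ℂ ⊤ riemannZeta₀ := differentiable_riemannZeta₀.contDiff
    exact (h2.differentiable_iteratedDeriv k (by
      exact_mod_cast WithTop.coe_lt_top (k : ℕ∞))) s
  apply DifferentiableAt.differentiableWithinAt
  unfold PhiZ
  apply DifferentiableAt.fun_div
  · apply DifferentiableAt.fun_mul (by fun_prop)
    apply DifferentiableAt.fun_add _ (by fun_prop)
    exact DifferentiableAt.fun_mul (by fun_prop) hd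
  · have := differentiable_riemannZeta₁ s
    fun_prop
  · exact mul_ne_zero h1 (mul_ne_zero h0.1 h0.2)

lemma PhiZ_eq {k : ℕ} {s : ℂ} (hs : s ∈ OM) (h1 : s ≠ 1) :
    PhiZ k s = (s - 1) ^ k * ((-1) ^ k * DZ k s / (s * (s + 1))) := by
  have h0 := OM_ne hs
  have hne : s - 1 ≠ 0 := sub_ne_zero.mpr h1
  unfold PhiZ DZ
  rw [iteratedDeriv_zeta k h1, zeta1_eq h1]
  by_cases hz : riemannZeta s = 0
  · simp [hz]
  · field_simp
    ring

/-- Existence of the weight `W`. -/
theorem exists_W (hRH : RiemannHypothesis) (k : ℕ) :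
    ∃ (c : ℕ → ℂ) (W : ℂ → ℂ), DifferentiableOn ℂ W OM ∧
      ∀ s ∈ OM, s ≠ 1 → W s = (-1) ^ k * DZ k s / (s * (s + 1)) -
        ((∑ i ∈ Finset.range k, c i / (s - 1) ^ (k - i)) - c (k - 1) / s) := by
  have h1 : (1 : ℂ) ∈ OM := by
    show (1 : ℝ) / 2 < (1 : ℂ).re
    simp; norm_num
  obtain ⟨c, Ψ, hΨ, h⟩ := taylor_dslope OM_open h1 (PhiZ_diff hRH k) k
  refine ⟨c, fun s => Ψ s + c (k - 1) / s, ?_, ?_⟩
  · intro s hs
    have h0 := (OM_ne hs).1
    apply DifferentiableWithinAt.fun_add (hΨ s hs)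
    apply DifferentiableAt.differentiableWithinAt
    exact DifferentiableAt.fun_div (by fun_prop) (by fun_prop) h0
  · intro s hs hs1
    have hne : s - 1 ≠ 0 := sub_ne_zero.mpr hs1
    have h2 := h s
    rw [PhiZ_eq hs hs1] at h2
    have h3 : (-1) ^ k * DZ k s / (s * (s + 1)) =
        (∑ i ∈ Finset.range k, c i / (s - 1) ^ (k - i)) + Ψ s := by
      have hp : (s - 1) ^ k ≠ 0 := pow_ne_zero _ hne
      apply mul_left_cancel₀ hp
      rw [h2, mul_add, Finset.mul_sum]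
      congr 1
      apply Finset.sum_congr rfl
      intro i hi
      have hik : i ≤ k := (Finset.mem_range.mp hi).le
      have : (s - 1) ^ k = (s - 1) ^ (k - i) * (s - 1) ^ i := by
        rw [← pow_add]; congr 1; omega
      rw [this]
      have hp2 : (s - 1) ^ (k - i) ≠ 0 := pow_ne_zero _ hne
      field_simp
    rw [h3]
    ring

end Pool.Agent.Lib.MP_6bc78b_nt.H11
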