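import Mathlib
import Pool.Agent.Lib.MP_6bc78b_nt.H11.Weight

/-! Contour shift in the half plane `Re s > 1/2`. -/

namespace Pool.Agent.Lib.MP_6bc78b_nt.H11

open Complex MeasureTheory Set Filter Topology Metric

/-- the Japanese bracket weight. -/
noncomputable def jb (t : ℝ) : ℝ := (1 + ‖t‖) ^ (-(3 / 2 : ℝ))

lemma jb_integrable : Integrable jb := by
  have : (Module.finrank ℝ ℝ : ℝ) < 3 / 2 := by simp; norm_num
  exact integrable_one_add_norm this

lemma jb_pos (t : ℝ) : 0 < jb t := by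
  unfold jb
  positivity

lemma jb_le_one (t : ℝ) : jb t ≤ 1 := by
  unfold jb
  apply Real.rpow_le_one_of_one_le_of_nonpos
  · have := norm_nonneg t; linarith
  · norm_num

lemma jb_continuous : Continuous jb := by
  unfold jb
  apply Continuous.rpow_const (by fun_prop)
  intro t
  left
  have := norm_nonneg t
  linarith

lemma jb_tendsto : Tendsto jb atTop (𝓝 0) := by
  have h1 : Tendsto (fun x : ℝ => x ^ (-(3 / 2 : ℝ))) atTop (𝓝 0) :=
    tendsto_rpow_neg_atTop (by norm_num)
  have h2 : Tendsto (fun t : ℝ => 1 + ‖t‖) atTop atTop :=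
    tendsto_atTop_add_const_left _ _ tendsto_norm_atTop_atTop
  exact h1.comp h2

lemma jb_neg (t : ℝ) : jb (-t) = jb t := by unfold jb; rw [norm_neg]

/-- vertical line restricted function is continuous. -/
lemma continuous_line {F : ℂ → ℂ} (hF : DifferentiableOn ℂ F OM) {a : ℝ} (ha : 1 / 2 < a) :
    Continuous (fun t : ℝ => F (a + t * I)) := by
  have h1 : ContinuousOn F OM := hF.continuousOn
  have h2 : Continuous (fun t : ℝ => (a + t * I : ℂ)) := by fun_prop
  exact h1.comp_continuous h2 (fun t => by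
    show (1 : ℝ) / 2 < (a + t * I : ℂ).re
    simpa using ha)

lemma integrable_line {F : ℂ → ℂ} (hF : DifferentiableOn ℂ F OM) {a C : ℝ} (ha : 1 / 2 < a)
    (hb : ∀ t : ℝ, ‖F (a + t * I)‖ ≤ C * jb t) :
    Integrable (fun t : ℝ => F (a + t * I)) := by
  refine Integrable.mono' (jb_integrable.const_mul C)
    (continuous_line hF ha).aestronglyMeasurable (ae_of_all _ hb)

theorem contour_shift {F : ℂ → ℂ} (hF : DifferentiableOn ℂ F OM) {a b C : ℝ} (ha : 1 / 2 < a)
    (hab : a ≤ b) (hb : ∀ σ ∈ Icc a b, ∀ t : ℝ, ‖F (σ + t * I)‖ ≤ C * jb t) :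
    ∫ t : ℝ, F (a + t * I) = ∫ t : ℝ, F (b + t * I) := by
  have hIa := integrable_line hF ha (hb a (left_mem_Icc.mpr hab))
  have hIb := integrable_line hF (ha.trans_le hab) (hb b (right_mem_Icc.mpr hab))
  have h1 : Tendsto (fun T : ℝ => ∫ t in (-T)..T, F (a + t * I)) atTop
      (𝓝 (∫ t : ℝ, F (a + t * I))) :=
    intervalIntegral_tendsto_integral hIa tendsto_neg_atTop_atBot tendsto_id
  have h2 : Tendsto (fun T : ℝ => ∫ t in (-T)..T, F (b + t * I)) atTop
      (𝓝 (∫ t : ℝ, F (b + t * I))) :=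
    intervalIntegral_tendsto_integral hIb tendsto_neg_atTop_atBot tendsto_id
  have hrect : ∀ T : ℝ, (∫ x in a..b, F (x + ((-T : ℝ) : ℂ) * I)) -
      (∫ x in a..b, F (x + (T : ℂ) * I)) +
      I • (∫ y in (-T)..T, F (b + y * I)) - I • (∫ y in (-T)..T, F (a + y * I)) = 0 := by
    intro T
    have := Complex.integral_boundary_rect_eq_zero_of_differentiableOn F
      (a + ((-T : ℝ) : ℂ) * I) (b + (T : ℂ) * I) ?_
    · simpa using this
    · apply hF.mono
      intro s hs
      rw [mem_reProdIm] at hs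
      have h3 := hs.1
      simp only [Complex.add_re, Complex.mul_re, Complex.ofReal_re, Complex.ofReal_im,
        Complex.I_re, Complex.I_im, mul_zero, zero_mul, sub_zero, add_zero, mul_one,
        sub_self] at h3
      rw [uIcc_of_le hab] at h3
      exact lt_of_lt_of_le ha h3.1
  have hhor : ∀ T : ℝ, ‖∫ x in a..b, F (x + (T : ℂ) * I)‖ ≤ C * jb T * |b - a| := by
    intro T
    apply intervalIntegral.norm_integral_le_of_norm_le_const
    intro x hx
    rw [uIoc_of_le hab] at hx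
    exact hb x ⟨hx.1.le, hx.2⟩ T
  have hlim1 : Tendsto (fun T : ℝ => C * jb T * |b - a|) atTop (𝓝 0) := by
    have := (jb_tendsto.const_mul C).mul_const |b - a|
    simpa using this
  have h3 : Tendsto (fun T : ℝ => ∫ x in a..b, F (x + (T : ℂ) * I)) atTop (𝓝 0) :=
    squeeze_zero_norm hhor hlim1
  have h4 : Tendsto (fun T : ℝ => ∫ x in a..b, F (x + ((-T : ℝ) : ℂ) * I)) atTop (𝓝 0) := by
    apply squeeze_zero_norm _ hlim1
    intro T
    have := hhor (-T)
    rwa [jb_neg] at this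
  have h5 : Tendsto (fun T : ℝ => (∫ x in a..b, F (x + ((-T : ℝ) : ℂ) * I)) -
      (∫ x in a..b, F (x + (T : ℂ) * I)) +
      I • (∫ y in (-T)..T, F (b + y * I)) - I • (∫ y in (-T)..T, F (a + y * I))) atTop
      (𝓝 (0 - 0 + I • (∫ t : ℝ, F (b + t * I)) - I • (∫ t : ℝ, F (a + t * I)))) :=
    ((h4.sub h3).add (h2.const_smul I)).sub (h1.const_smul I)
  simp_rw [hrect] at h5
  have h6 := tendsto_nhds_unique h5 tendsto_const_nhds
  have h7 : I • (∫ t : ℝ, F (b + t * I)) = I • (∫ t : ℝ, F (a + t * I)) := by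
    have : 0 - 0 + I • (∫ t : ℝ, F (b + t * I)) - I • (∫ t : ℝ, F (a + t * I)) = 0 := h6
    linear_combination this
  have h8 := smul_right_injective ℂ Complex.I_ne_zero h7
  exact h8.symm

end Pool.Agent.Lib.MP_6bc78b_nt.H11
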