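import Mathlib
import Pool.Agent.Lib.MP_6bc78b_nt.H11.Contour

/-! Decay of the weight `W` in vertical directions. -/

namespace Pool.Agent.Lib.MP_6bc78b_nt.H11

open Complex MeasureTheory Set Filter Topology Metric

/-- the polar part. -/
noncomputable def polar (k : ℕ) (c : ℕ → ℂ) (s : ℂ) : ℂ :=
  (∑ i ∈ Finset.range k, c i / (s - 1) ^ (k - i)) - c (k - 1) / s

/-- the specification of `W`. -/
def IsW (k : ℕ) (c : ℕ → ℂ) (W : ℂ → ℂ) : Prop :=
  DifferentiableOn ℂ W OM ∧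
    ∀ s ∈ OM, s ≠ 1 → W s = (-1) ^ k * DZ k s / (s * (s + 1)) - polar k c s

lemma polar_decay {k : ℕ} (hk : 1 ≤ k) (c : ℕ → ℂ) {s : ℂ} (hs : 1 ≤ |s.im|) :
    ‖polar k c s‖ ≤ (∑ i ∈ Finset.range k, ‖c i‖) / |s.im| ^ 2 := by
  obtain ⟨j, rfl⟩ : ∃ j, k = j + 1 := ⟨k - 1, by omega⟩
  have him : 0 < |s.im| := by linarith
  have hn1 : |s.im| ≤ ‖s‖ := Complex.abs_im_le_norm s
  have hn2 : |s.im| ≤ ‖s - 1‖ := by
    have := Complex.abs_im_le_norm (s - 1)
    simpa using this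
  have hs0 : s ≠ 0 := by
    intro h; rw [h] at hn1; simp at hn1; rw [h] at hs; simp at hs; linarith
  have hs1 : s - 1 ≠ 0 := by
    intro h; rw [h, norm_zero] at hn2; linarith
  have hsplit : polar (j + 1) c s =
      (∑ i ∈ Finset.range j, c i / (s - 1) ^ (j + 1 - i)) + c j / ((s - 1) * s) := by
    unfold polar
    rw [Finset.sum_range_succ]
    have e1 : j + 1 - j = 1 := by omega
    have e2 : j + 1 - 1 = j := by omega
    rw [e1, e2, pow_one, add_sub_assoc]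
    congr 1
    field_simp
    ring
  rw [hsplit, Finset.sum_range_succ, add_div, Finset.sum_div]
  refine (norm_add_le _ _).trans (add_le_add ((norm_sum_le _ _).trans ?_) ?_)
  · apply Finset.sum_le_sum
    intro i hi
    have hij : i < j := Finset.mem_range.mp hi
    rw [norm_div, norm_pow]
    apply div_le_div_of_nonneg_left (norm_nonneg _) (by positivity)
    have h1 : |s.im| ^ 2 ≤ |s.im| ^ (j + 1 - i) := pow_le_pow_right₀ hs (by omega)
    exact h1.trans (pow_le_pow_left₀ him.le hn2 _)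
  · rw [norm_div, norm_mul]
    apply div_le_div_of_nonneg_left (norm_nonneg _) (by positivity)
    rw [sq]
    exact mul_le_mul hn2 hn1 him.le (norm_nonneg _)

lemma W_le {k : ℕ} (hk : 1 ≤ k) {c : ℕ → ℂ} {W : ℂ → ℂ} (hW : IsW k c W) {s : ℂ} (hs : s ∈ OM)
    (him : 1 ≤ |s.im|) :
    ‖W s‖ ≤ (‖DZ k s‖ + ∑ i ∈ Finset.range k, ‖c i‖) / |s.im| ^ 2 := by
  have hs1 : s ≠ 1 := by
    intro h; rw [h] at him; simp at him; linarith
  have h0 : 0 < |s.im| := by linarith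
  rw [hW.2 s hs hs1, add_div]
  refine (norm_sub_le _ _).trans (add_le_add ?_ (polar_decay hk c him))
  rw [norm_div, norm_mul, norm_pow, norm_neg, norm_one, one_pow, one_mul, norm_mul]
  apply div_le_div_of_nonneg_left (norm_nonneg _) (by positivity)
  rw [sq]
  have h1 : |s.im| ≤ ‖s‖ := Complex.abs_im_le_norm s
  have h2 : |s.im| ≤ ‖s + 1‖ := by
    have := Complex.abs_im_le_norm (s + 1)
    simpa using this
  exact mul_le_mul h1 h2 h0.le (norm_nonneg _)

lemma log_pow_le (k : ℕ) : ∃ C : ℝ, 0 < C ∧ ∀ x : ℝ, 1 ≤ x → Real.log x ^ k ≤ C * x ^ (1 / 2 : ℝ) := by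
  rcases Nat.eq_zero_or_pos k with rfl | hk
  · refine ⟨1, one_pos, fun x hx => ?_⟩
    rw [pow_zero, one_mul]
    exact Real.one_le_rpow hx (by norm_num)
  · refine ⟨(2 * k) ^ k, by positivity, fun x hx => ?_⟩
    have hx0 : 0 ≤ x := by linarith
    have hk' : (0 : ℝ) < k := by exact_mod_cast hk
    have hε : (0 : ℝ) < 1 / (2 * k) := by positivity
    have h1 := Real.log_le_rpow_div hx0 hε
    have h2 : 0 ≤ Real.log x := Real.log_nonneg hx
    calc Real.log x ^ k ≤ (x ^ (1 / (2 * k) : ℝ) / (1 / (2 * k))) ^ k := by gcongr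
      _ = (2 * k) ^ k * (x ^ (1 / (2 * k) : ℝ)) ^ k := by
        rw [← mul_pow, div_div_eq_mul_div, div_one, mul_comm]
      _ = (2 * k) ^ k * x ^ (1 / 2 : ℝ) := by
        rw [← Real.rpow_natCast (x ^ (1 / (2 * k) : ℝ)), ← Real.rpow_mul hx0]
        congr 2
        field_simp

/-- uniform decay on closed strips inside `Re s > 1/2`. -/
theorem W_uniform (hRH : RiemannHypothesis) {k : ℕ} (hk : 1 ≤ k) {c : ℕ → ℂ} {W : ℂ → ℂ}
    (hW : IsW k c W) {δ : ℝ} (hδ : 0 < δ) (hδ1 : δ ≤ 1) :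
    ∃ C : ℝ, 0 < C ∧ ∀ σ ∈ Icc (1 / 2 + δ) 3, ∀ t : ℝ, ‖W (σ + t * I)‖ ≤ C * jb t := by
  obtain ⟨C₀, hC₀, hlog⟩ := log_pow_le k
  -- compact part
  have hcomp : IsCompact (Icc (1 / 2 + δ) 3 ×ˢ Icc (-3 : ℝ) 3) := isCompact_Icc.prod isCompact_Icc
  have hcont : ContinuousOn (fun p : ℝ × ℝ => W (p.1 + p.2 * I))
      (Icc (1 / 2 + δ) 3 ×ˢ Icc (-3 : ℝ) 3) := by
    apply hW.1.continuousOn.comp (by fun_prop)
    intro p hp
    show (1 : ℝ) / 2 < ((p.1 : ℂ) + p.2 * I).re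
    have := hp.1.1
    simp only [Complex.add_re, Complex.ofReal_re, Complex.mul_re, Complex.I_re, mul_zero,
      Complex.ofReal_im, Complex.I_im, mul_one, sub_self, add_zero]
    linarith
  obtain ⟨C₁, hC₁⟩ := hcomp.exists_bound_of_continuousOn hcont
  set Csum := ∑ i ∈ Finset.range k, ‖c i‖ with hCsum
  have hCs0 : 0 ≤ Csum := Finset.sum_nonneg (fun i _ => norm_nonneg _)
  set A : ℝ := Real.exp 1 * k.factorial * (2 * KZ / δ) ^ k with hA
  have hKZ : (0 : ℝ) < KZ := by unfold KZ; norm_num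
  have hA0 : 0 < A := by rw [hA]; positivity
  refine ⟨8 * |C₁| + 2 * (A * C₀ + Csum) , by positivity, ?_⟩
  intro σ hσ t
  have hjb := jb_pos t
  by_cases ht : |t| ≤ 3
  · -- compact
    have h1 := hC₁ (σ, t) ⟨hσ, abs_le.mp ht⟩
    simp only at h1
    have h2 : 1 / 8 ≤ jb t := by
      unfold jb
      have h3 : (1 + ‖t‖) ≤ 4 := by rw [Real.norm_eq_abs]; linarith
      have h4 : (4 : ℝ) ^ (-(3 / 2 : ℝ)) ≤ (1 + ‖t‖) ^ (-(3 / 2 : ℝ)) := by
        apply Real.rpow_le_rpow_of_nonpos _ h3 (by norm_num)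
        have := norm_nonneg t; linarith
      have h5 : (4 : ℝ) ^ (-(3 / 2 : ℝ)) = 1 / 8 := by
        rw [Real.rpow_neg (by norm_num), show (3 / 2 : ℝ) = (1 / 2) * (3 : ℕ) by norm_num,
          Real.rpow_mul (by norm_num), ← Real.sqrt_eq_rpow,
          show (4 : ℝ) = 2 ^ 2 by norm_num, Real.sqrt_sq (by norm_num), Real.rpow_natCast]
        norm_num
      linarith
    have h6 : ‖W (σ + t * I)‖ ≤ |C₁| := h1.trans (le_abs_self _)
    have h7 : 0 ≤ |C₁| := abs_nonneg _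
    nlinarith [mul_nonneg (show (0 : ℝ) ≤ 2 * (A * C₀ + Csum) by positivity) hjb.le]
  · push Not at ht
    have hs : (σ + t * I : ℂ) ∈ OM := by
      show (1 : ℝ) / 2 < (σ + t * I : ℂ).re
      have := hσ.1
      simp only [Complex.add_re, Complex.ofReal_re, Complex.mul_re, Complex.I_re, mul_zero,
        Complex.ofReal_im, Complex.I_im, mul_one, sub_self, add_zero]
      linarith
    have him : (σ + t * I : ℂ).im = t := by simp
    have hre : (σ + t * I : ℂ).re = σ := by simp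
    have h1 := W_le hk hW hs (by rw [him]; linarith)
    rw [him] at h1
    have h2 := DZ_pointwise hRH k hδ hδ1 (s := (σ + t * I : ℂ)) (by rw [hre]; exact hσ.1)
      (by rw [hre]; linarith [hσ.2]) (by rw [him]; exact ht.le)
    rw [him] at h2
    have h3 : ‖DZ k (σ + t * I)‖ ≤ A * C₀ * |t| ^ (1 / 2 : ℝ) := by
      refine h2.trans ?_
      have e1 : (2 * KZ * Real.log |t| / δ) ^ k = (2 * KZ / δ) ^ k * Real.log |t| ^ k := by
        rw [← mul_pow]; congr 1; ring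
      rw [e1]
      have e2 : Real.exp 1 * k.factorial * ((2 * KZ / δ) ^ k * Real.log |t| ^ k) =
          A * Real.log |t| ^ k := by rw [hA]; ring
      rw [e2]
      have e3 := mul_le_mul_of_nonneg_left (hlog |t| (by linarith)) hA0.le
      linarith
    have ht0 : 0 < |t| := by linarith
    have h4 : Csum ≤ Csum * |t| ^ (1 / 2 : ℝ) := by
      have : 1 ≤ |t| ^ (1 / 2 : ℝ) := Real.one_le_rpow (by linarith) (by norm_num)
      nlinarith
    have h5 : |t| ^ (1 / 2 : ℝ) / |t| ^ 2 = |t| ^ (-(3 / 2 : ℝ)) := by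
      rw [← Real.rpow_natCast |t| 2, ← Real.rpow_sub ht0]
      norm_num
    have h6 : |t| ^ (-(3 / 2 : ℝ)) ≤ 2 * jb t := by
      unfold jb
      rw [Real.norm_eq_abs]
      have h7 : (1 + |t|) / (4 / 3) ≤ |t| := by
        rw [div_le_iff₀ (by norm_num)]; linarith
      have h8 : |t| ^ (-(3 / 2 : ℝ)) ≤ ((1 + |t|) / (4 / 3)) ^ (-(3 / 2 : ℝ)) :=
        Real.rpow_le_rpow_of_nonpos (by positivity) h7 (by norm_num)
      rw [Real.div_rpow (by positivity) (by norm_num)] at h8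
      refine h8.trans ?_
      have h9 : (1 : ℝ) / 2 ≤ (4 / 3 : ℝ) ^ (-(3 / 2 : ℝ)) := by
        have h10 : (4 / 3 : ℝ) ^ (-(2 : ℝ)) ≤ (4 / 3 : ℝ) ^ (-(3 / 2 : ℝ)) :=
          Real.rpow_le_rpow_of_exponent_le (by norm_num) (by norm_num)
        have h11 : (4 / 3 : ℝ) ^ (-(2 : ℝ)) = 9 / 16 := by
          rw [Real.rpow_neg (by norm_num), show (2 : ℝ) = ((2 : ℕ) : ℝ) by norm_num,
            Real.rpow_natCast]
          norm_num
        linarith
      have hp : 0 < (1 + |t|) ^ (-(3 / 2 : ℝ)) := by positivity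
      rw [div_le_iff₀ (by positivity)]
      nlinarith
    calc ‖W (σ + t * I)‖ ≤ (‖DZ k (σ + t * I)‖ + Csum) / |t| ^ 2 := h1
      _ ≤ (A * C₀ * |t| ^ (1 / 2 : ℝ) + Csum * |t| ^ (1 / 2 : ℝ)) / |t| ^ 2 := by gcongr
      _ = (A * C₀ + Csum) * (|t| ^ (1 / 2 : ℝ) / |t| ^ 2) := by ring
      _ ≤ (A * C₀ + Csum) * (2 * jb t) := by
        rw [h5]
        exact mul_le_mul_of_nonneg_left h6 (by positivity)
      _ ≤ (8 * |C₁| + 2 * (A * C₀ + Csum)) * jb t := by
        have : 0 ≤ 8 * |C₁| * jb t := by positivity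
        nlinarith

/-- window bound for `W`. -/
theorem W_window (hRH : RiemannHypothesis) {k : ℕ} (hk : 2 ≤ k) {c : ℕ → ℂ} {W : ℂ → ℂ}
    (hW : IsW k c W) :
    ∃ C : ℝ, 0 < C ∧ ∀ δ : ℝ, 0 < δ → δ ≤ 1 → ∀ T : ℝ, 4 ≤ |T| →
      δ ^ (k - 1) * ∫ t in (T - 1 / 2)..(T + 1 / 2), ‖W (1 / 2 + δ + t * I)‖ ≤
        C * |T| ^ (-(3 / 2 : ℝ)) := by
  obtain ⟨C₀, hC₀, hlog⟩ := log_pow_le k
  set Csum := ∑ i ∈ Finset.range k, ‖c i‖ with hCsum
  have hCs0 : 0 ≤ Csum := Finset.sum_nonneg (fun i _ => norm_nonneg _)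
  have hKZ : (0 : ℝ) < KZ := by unfold KZ; norm_num
  have hpi := Real.pi_pos
  set A : ℝ := Real.exp 1 * k.factorial * 2 ^ (k - 1) * (Real.pi + 1) * KZ ^ k with hA
  have hA0 : 0 < A := by rw [hA]; positivity
  refine ⟨4 * (A * C₀ + Csum), by positivity, ?_⟩
  intro δ hδ hδ1 T hT
  have hT0 : 0 < |T| := by linarith
  have hab : T - 1 / 2 ≤ T + 1 / 2 := by linarith
  have hsre : ∀ t : ℝ, (1 / 2 + δ + t * I : ℂ).re = 1 / 2 + δ := by intro t; simp
  have hsim : ∀ t : ℝ, (1 / 2 + δ + t * I : ℂ).im = t := by intro t; simp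
  have hmem : ∀ t : ℝ, (1 / 2 + δ + t * I : ℂ) ∈ OM := by
    intro t
    show (1 : ℝ) / 2 < (1 / 2 + δ + t * I : ℂ).re
    rw [hsre]; linarith
  have hpt : ∀ t ∈ Icc (T - 1 / 2) (T + 1 / 2), ‖W (1 / 2 + δ + t * I)‖ ≤
      (‖DZ k (1 / 2 + δ + t * I)‖ + Csum) * (4 / |T| ^ 2) := by
    intro t ht
    have h1 : |T| / 2 ≤ |t| := by
      have h2 : |T| ≤ |t| + |T - t| := by
        calc |T| = |t + (T - t)| := by ring_nf
          _ ≤ _ := abs_add_le _ _
      have h3 : |T - t| ≤ 1 / 2 := by rw [abs_le]; constructor <;> linarith [ht.1, ht.2]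
      linarith
    have h2 := W_le (by omega) hW (hmem t) (by rw [hsim]; linarith)
    rw [hsim] at h2
    have ht0 : 0 < |t| := by linarith
    refine h2.trans ?_
    rw [div_eq_mul_inv]
    apply mul_le_mul_of_nonneg_left _ (by positivity)
    rw [← one_div, div_le_div_iff₀ (by positivity) (by positivity)]
    have h3 : (|T| / 2) ^ 2 ≤ |t| ^ 2 := pow_le_pow_left₀ (by positivity) h1 2
    nlinarith
  have hDcont : ContinuousOn (fun t : ℝ => DZ k (1 / 2 + δ + t * I)) (Icc (T - 1 / 2) (T + 1 / 2)) := by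
    intro t ht
    have hT1 : T ≤ -4 ∨ 4 ≤ T := by
      rcases le_abs.mp hT with h | h
      · right; exact h
      · left; linarith
    have hne1 : (1 / 2 + δ + t * I : ℂ) ≠ 1 := by
      intro h
      have := congrArg Complex.im h
      rw [hsim] at this
      simp at this
      rcases hT1 with h | h <;> linarith [ht.1, ht.2]
    have h0 : riemannZeta (1 / 2 + δ + t * I) ≠ 0 := zeta_ne_zero_of_RH hRH (by rw [hsre]; linarith)
    have hana : AnalyticAt ℂ riemannZeta (1 / 2 + δ + t * I) := analyticOn_riemannZeta _ hne1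
    have hc1 : ContinuousAt (iteratedDeriv k riemannZeta) (1 / 2 + δ + t * I) := by
      rw [iteratedDeriv_eq_iterate]
      exact (AnalyticAt.iterated_deriv hana k).continuousAt
    have hc2 : ContinuousAt (DZ k) (1 / 2 + δ + t * I) := by
      unfold DZ
      exact hc1.div hana.continuousAt h0
    have hc3 : ContinuousAt (fun t : ℝ => (1 / 2 + δ + t * I : ℂ)) t := by fun_prop
    exact (ContinuousAt.comp (f := fun t : ℝ => (1 / 2 + δ + t * I : ℂ)) hc2 hc3).continuousWithinAt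
  have hDint : IntervalIntegrable (fun t : ℝ => ‖DZ k (1 / 2 + δ + t * I)‖) volume
      (T - 1 / 2) (T + 1 / 2) := by
    apply ContinuousOn.intervalIntegrable
    rw [uIcc_of_le hab]
    exact hDcont.norm
  have hwin := DZ_window hRH hk hδ hδ1 (show 3 ≤ |T| by linarith)
  have hint : ∫ t in (T - 1 / 2)..(T + 1 / 2), ‖W (1 / 2 + δ + t * I)‖ ≤
      ((∫ t in (T - 1 / 2)..(T + 1 / 2), ‖DZ k (1 / 2 + δ + t * I)‖) + Csum) * (4 / |T| ^ 2) := by
    calc ∫ t in (T - 1 / 2)..(T + 1 / 2), ‖W (1 / 2 + δ + t * I)‖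
        ≤ ∫ t in (T - 1 / 2)..(T + 1 / 2), (‖DZ k (1 / 2 + δ + t * I)‖ + Csum) * (4 / |T| ^ 2) := by
          rw [intervalIntegral.integral_of_le hab, intervalIntegral.integral_of_le hab]
          apply integral_mono_of_nonneg
          · exact ae_of_all _ (fun t => norm_nonneg _)
          · have h5 := (hDint.add (intervalIntegrable_const (c := Csum))).mul_const (4 / |T| ^ 2)
            rw [intervalIntegrable_iff_integrableOn_Ioc_of_le hab] at h5
            exact h5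
          · filter_upwards [self_mem_ae_restrict measurableSet_Ioc] with t ht
            exact hpt t (Ioc_subset_Icc_self ht)
      _ = _ := by
          rw [intervalIntegral.integral_mul_const, intervalIntegral.integral_add hDint
            intervalIntegrable_const, intervalIntegral.integral_const]
          have : T + 1 / 2 - (T - 1 / 2) = 1 := by ring
          rw [this, one_smul]
  have hδk : 0 < δ ^ (k - 1) := by positivity
  have hδk1 : δ ^ (k - 1) ≤ 1 := pow_le_one₀ hδ.le hδ1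
  have hI0 : 0 ≤ ∫ t in (T - 1 / 2)..(T + 1 / 2), ‖DZ k (1 / 2 + δ + t * I)‖ :=
    intervalIntegral.integral_nonneg hab (fun t _ => norm_nonneg _)
  have hmain : δ ^ (k - 1) * ∫ t in (T - 1 / 2)..(T + 1 / 2), ‖DZ k (1 / 2 + δ + t * I)‖ ≤
      A * C₀ * |T| ^ (1 / 2 : ℝ) := by
    have h6 : δ ^ (k - 1) * ∫ t in (T - 1 / 2)..(T + 1 / 2), ‖DZ k (1 / 2 + δ + t * I)‖ ≤
        A * Real.log |T| ^ k := by
      calc δ ^ (k - 1) * ∫ t in (T - 1 / 2)..(T + 1 / 2), ‖DZ k (1 / 2 + δ + t * I)‖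
          ≤ δ ^ (k - 1) * (Real.exp 1 * k.factorial * 2 ^ (k - 1) * (Real.pi + 1) *
            (KZ * Real.log |T|) ^ k / δ ^ (k - 1)) := mul_le_mul_of_nonneg_left hwin hδk.le
        _ = A * Real.log |T| ^ k := by
          rw [hA, mul_pow]
          field_simp
    refine h6.trans ?_
    have e3 := mul_le_mul_of_nonneg_left (hlog |T| (by linarith)) hA0.le
    linarith
  have h4 : Csum ≤ Csum * |T| ^ (1 / 2 : ℝ) := by
    have : 1 ≤ |T| ^ (1 / 2 : ℝ) := Real.one_le_rpow (by linarith) (by norm_num)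
    nlinarith
  have h5 : |T| ^ (1 / 2 : ℝ) / |T| ^ 2 = |T| ^ (-(3 / 2 : ℝ)) := by
    rw [← Real.rpow_natCast |T| 2, ← Real.rpow_sub hT0]
    norm_num
  calc δ ^ (k - 1) * ∫ t in (T - 1 / 2)..(T + 1 / 2), ‖W (1 / 2 + δ + t * I)‖
      ≤ δ ^ (k - 1) * (((∫ t in (T - 1 / 2)..(T + 1 / 2), ‖DZ k (1 / 2 + δ + t * I)‖) + Csum) *
        (4 / |T| ^ 2)) := mul_le_mul_of_nonneg_left hint hδk.le
    _ = (δ ^ (k - 1) * (∫ t in (T - 1 / 2)..(T + 1 / 2), ‖DZ k (1 / 2 + δ + t * I)‖) +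
        δ ^ (k - 1) * Csum) * (4 / |T| ^ 2) := by ring
    _ ≤ (A * C₀ * |T| ^ (1 / 2 : ℝ) + Csum * |T| ^ (1 / 2 : ℝ)) * (4 / |T| ^ 2) := by
        apply mul_le_mul_of_nonneg_right _ (by positivity)
        apply add_le_add hmain
        have : δ ^ (k - 1) * Csum ≤ Csum := by nlinarith
        exact this.trans h4
    _ = 4 * (A * C₀ + Csum) * (|T| ^ (1 / 2 : ℝ) / |T| ^ 2) := by ring
    _ = 4 * (A * C₀ + Csum) * |T| ^ (-(3 / 2 : ℝ)) := by rw [h5]

end Pool.Agent.Lib.MP_6bc78b_nt.H11
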