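import Mathlib
import Pool.Agent.Lib.MP_6bc78b_nt.H11.Decay

/-! The integral of `|W|` on lines approaching the critical line. -/

namespace Pool.Agent.Lib.MP_6bc78b_nt.H11

open Complex MeasureTheory Set Filter Topology Metric

lemma crit_ne_one (t : ℝ) : (1 / 2 + t * I : ℂ) ≠ 1 := by
  intro h
  have := congrArg Complex.re h
  simp at this

lemma crit_ne_zero (t : ℝ) : (1 / 2 + t * I : ℂ) ≠ 0 := by
  intro h
  have := congrArg Complex.re h
  simp at this

lemma zeta_analytic_crit (t : ℝ) : AnalyticAt ℂ riemannZeta (1 / 2 + t * I) :=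
  analyticOn_riemannZeta _ (crit_ne_one t)

/-- Behaviour of `W` near a point of the critical line. -/
lemma local_bound {k : ℕ} {c : ℕ → ℂ} {W : ℂ → ℂ}
    (hW : IsW k c W) {t₀ : ℝ} {m : ℕ} (hm : analyticOrderAt riemannZeta (1 / 2 + t₀ * I) = m) :
    ∃ C : ℝ, 0 < C ∧ ∀ᶠ s in 𝓝 (1 / 2 + t₀ * I : ℂ), s ∈ OM →
      ‖s - (1 / 2 + t₀ * I)‖ ^ m * ‖W s‖ ≤ C := by
  set z₀ : ℂ := 1 / 2 + t₀ * I with hz₀
  have hana := zeta_analytic_crit t₀
  rw [← hz₀] at hana
  obtain ⟨q, hq, hq0, hqeq⟩ := (hana.analyticOrderAt_eq_natCast).mp hm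
  have hc1 : ContinuousAt (iteratedDeriv k riemannZeta) z₀ := by
    rw [iteratedDeriv_eq_iterate]
    exact (AnalyticAt.iterated_deriv hana k).continuousAt
  have hpolar : ContinuousAt (polar k c) z₀ := by
    unfold polar
    have h1 : z₀ - 1 ≠ 0 := sub_ne_zero.mpr (crit_ne_one t₀)
    have h0 : z₀ ≠ 0 := crit_ne_zero t₀
    apply ContinuousAt.sub
    · apply tendsto_finsetSum
      intro i _
      exact ContinuousAt.div continuousAt_const (by fun_prop) (pow_ne_zero _ h1)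
    · exact ContinuousAt.div continuousAt_const continuousAt_id h0
  set B := ‖iteratedDeriv k riemannZeta z₀‖ + 1 with hB
  set P := ‖polar k c z₀‖ + 1 with hP
  have hqpos : 0 < ‖q z₀‖ := norm_pos_iff.mpr hq0
  have e1 : ∀ᶠ s in 𝓝 z₀, ‖iteratedDeriv k riemannZeta s‖ ≤ B := by
    have := hc1.norm.eventually (Iio_mem_nhds (show ‖iteratedDeriv k riemannZeta z₀‖ < B by
      rw [hB]; linarith))
    filter_upwards [this] with s hs
    exact le_of_lt hs
  have e2 : ∀ᶠ s in 𝓝 z₀, ‖polar k c s‖ ≤ P := by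
    have := hpolar.norm.eventually (Iio_mem_nhds (show ‖polar k c z₀‖ < P by
      rw [hP]; linarith))
    filter_upwards [this] with s hs
    exact le_of_lt hs
  have e3 : ∀ᶠ s in 𝓝 z₀, ‖q z₀‖ / 2 ≤ ‖q s‖ := by
    have := hq.continuousAt.norm.eventually (Ioi_mem_nhds (show ‖q z₀‖ / 2 < ‖q z₀‖ by linarith))
    filter_upwards [this] with s hs
    exact le_of_lt hs
  have e4 : ∀ᶠ s in 𝓝 z₀, ‖s - z₀‖ ≤ 1 := by
    filter_upwards [closedBall_mem_nhds z₀ one_pos] with s hs
    rwa [mem_closedBall_iff_norm] at hs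
  have e5 : ∀ᶠ s in 𝓝 z₀, s ≠ 1 := isOpen_ne.mem_nhds (crit_ne_one t₀)
  refine ⟨2 * B / (‖q z₀‖ / 2) + P, by positivity, ?_⟩
  filter_upwards [e1, e2, e3, e4, e5, hqeq] with s h1 h2 h3 h4 h5 h6 hs
  have hre : 1 / 2 < s.re := hs
  have hsz : s ≠ z₀ := by
    intro h
    rw [h, hz₀] at hre
    simp at hre
  have hd : 0 < ‖s - z₀‖ := norm_pos_iff.mpr (sub_ne_zero.mpr hsz)
  have hdm : 0 < ‖s - z₀‖ ^ m := pow_pos hd m
  have hdm1 : ‖s - z₀‖ ^ m ≤ 1 := pow_le_one₀ hd.le h4
  rw [hW.2 s hs h5]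
  have hns : 1 / 2 ≤ ‖s * (s + 1)‖ := by
    rw [norm_mul]
    have h7 : 1 / 2 ≤ ‖s‖ := hre.le.trans (Complex.re_le_norm s)
    have h8 : 1 ≤ ‖s + 1‖ := by
      have := Complex.re_le_norm (s + 1)
      simp at this
      linarith
    nlinarith
  have hDZ : ‖s - z₀‖ ^ m * ‖DZ k s‖ ≤ B / (‖q z₀‖ / 2) := by
    unfold DZ
    rw [norm_div, h6, smul_eq_mul, norm_mul, norm_pow]
    have hqs : 0 < ‖q s‖ := lt_of_lt_of_le (by positivity) h3
    have : ‖s - z₀‖ ^ m * (‖iteratedDeriv k riemannZeta s‖ / (‖s - z₀‖ ^ m * ‖q s‖)) =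
        ‖iteratedDeriv k riemannZeta s‖ / ‖q s‖ := by
      field_simp
    rw [this]
    apply div_le_div₀ (by positivity) h1 (by positivity) h3
  calc ‖s - z₀‖ ^ m * ‖(-1) ^ k * DZ k s / (s * (s + 1)) - polar k c s‖
      ≤ ‖s - z₀‖ ^ m * (‖(-1) ^ k * DZ k s / (s * (s + 1))‖ + ‖polar k c s‖) :=
        mul_le_mul_of_nonneg_left (norm_sub_le _ _) hdm.le
    _ = ‖s - z₀‖ ^ m * ‖DZ k s‖ / ‖s * (s + 1)‖ + ‖s - z₀‖ ^ m * ‖polar k c s‖ := by
        rw [norm_div, norm_mul, norm_pow, norm_neg, norm_one, one_pow, one_mul]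
        ring
    _ ≤ 2 * B / (‖q z₀‖ / 2) + P := by
        apply add_le_add
        · rw [div_le_iff₀ (by linarith)]
          have hBq : 0 ≤ B / (‖q z₀‖ / 2) := by positivity
          have : 2 * B / (‖q z₀‖ / 2) = 2 * (B / (‖q z₀‖ / 2)) := by ring
          rw [this]
          nlinarith
        · have hP0 : 0 ≤ ‖polar k c s‖ := norm_nonneg _
          nlinarith

/-- Uniform bound of `(Re s - 1/2)^(k-1) |W s|` on compact sets of the closed half plane. -/
lemma compact_bound {k : ℕ} (hk : 1 ≤ k) {c : ℕ → ℂ} {W : ℂ → ℂ}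
    (hW : IsW k c W) (hord : ∀ t : ℝ, analyticOrderAt riemannZeta (1 / 2 + t * I) < k) (N : ℝ) :
    ∃ C : ℝ, 0 < C ∧ ∀ δ : ℝ, 0 < δ → δ ≤ 1 → ∀ t : ℝ, |t| ≤ N →
      δ ^ (k - 1) * ‖W (1 / 2 + δ + t * I)‖ ≤ C := by
  have hK : IsCompact (Icc (1 / 2 : ℝ) (3 / 2) ×ℂ Icc (-N) N) := by
    exact isCompact_Icc.reProdIm isCompact_Icc
  have main : ∃ C : ℝ, ∀ s ∈ (Icc (1 / 2 : ℝ) (3 / 2) ×ℂ Icc (-N) N), s ∈ OM →
      (s.re - 1 / 2) ^ (k - 1) * ‖W s‖ ≤ C := by
    refine hK.induction_on (p := fun S => ∃ C : ℝ, ∀ s ∈ S, s ∈ OM →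
      (s.re - 1 / 2) ^ (k - 1) * ‖W s‖ ≤ C) ?_ ?_ ?_ ?_
    · exact ⟨0, fun s hs => absurd hs (notMem_empty s)⟩
    · rintro S S' hSS ⟨C, hC⟩
      exact ⟨C, fun s hs => hC s (hSS hs)⟩
    · rintro S S' ⟨C, hC⟩ ⟨C', hC'⟩
      refine ⟨max C C', fun s hs hs' => ?_⟩
      rcases hs with hs | hs
      · exact (hC s hs hs').trans (le_max_left _ _)
      · exact (hC' s hs hs').trans (le_max_right _ _)
    · intro z hz
      rw [mem_reProdIm] at hz
      rcases eq_or_lt_of_le hz.1.1 with hz1 | hz1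
      · -- on the critical line
        have hzt : z = 1 / 2 + z.im * I := by
          apply Complex.ext
          · simp; linarith
          · simp
        have hlt := hord z.im
        obtain ⟨m, hm⟩ : ∃ m : ℕ, analyticOrderAt riemannZeta (1 / 2 + z.im * I) = m :=
          ENat.ne_top_iff_exists.1 (ne_top_of_lt hlt) |>.imp fun k hk => hk.symm
        rw [hm] at hlt
        have hmk : m ≤ k - 1 := by
          have : m < k := by exact_mod_cast hlt
          omega
        obtain ⟨C, _, hC⟩ := local_bound hW hm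
        rw [← hzt] at hC
        have e4 : ∀ᶠ s in 𝓝 z, ‖s - z‖ ≤ 1 := by
          filter_upwards [closedBall_mem_nhds z one_pos] with s hs
          rwa [mem_closedBall_iff_norm] at hs
        refine ⟨{s | (s ∈ OM → ‖s - z‖ ^ m * ‖W s‖ ≤ C) ∧ ‖s - z‖ ≤ 1},
          mem_nhdsWithin_of_mem_nhds (hC.and e4), C, ?_⟩
        rintro s ⟨hs1, hs2⟩ hs3
        have hre : 1 / 2 < s.re := hs3
        refine le_trans (mul_le_mul_of_nonneg_right ?_ (norm_nonneg _)) (hs1 hs3)
        have h1 : s.re - 1 / 2 ≤ ‖s - z‖ := by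
          have := Complex.re_le_norm (s - z)
          rw [Complex.sub_re, ← hz1] at this
          exact this
        have h2 : (s.re - 1 / 2) ^ (k - 1) ≤ ‖s - z‖ ^ (k - 1) :=
          pow_le_pow_left₀ (by linarith) h1 _
        exact h2.trans (pow_le_pow_of_le_one (norm_nonneg _) hs2 hmk)
      · -- interior
        have hzO : z ∈ OM := hz1
        have hcont : ContinuousAt (fun s => (s.re - 1 / 2) ^ (k - 1) * ‖W s‖) z := by
          have h1 : ContinuousAt W z := (hW.1 z hzO).continuousWithinAt.continuousAt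
            (OM_open.mem_nhds hzO)
          have h2 : ContinuousAt (fun s : ℂ => (s.re - 1 / 2) ^ (k - 1)) z := by fun_prop
          exact h2.mul h1.norm
        have := hcont.eventually (Iio_mem_nhds (show (z.re - 1 / 2) ^ (k - 1) * ‖W z‖ <
          (z.re - 1 / 2) ^ (k - 1) * ‖W z‖ + 1 by linarith))
        refine ⟨_, mem_nhdsWithin_of_mem_nhds this, (z.re - 1 / 2) ^ (k - 1) * ‖W z‖ + 1, ?_⟩
        intro s hs _
        exact le_of_lt hs
  obtain ⟨C, hC⟩ := main
  refine ⟨|C| + 1, by positivity, ?_⟩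
  intro δ hδ hδ1 t ht
  have hre : (1 / 2 + δ + t * I : ℂ).re = 1 / 2 + δ := by simp
  have him : (1 / 2 + δ + t * I : ℂ).im = t := by simp
  have h1 := hC (1 / 2 + δ + t * I) ?_ ?_
  · rw [hre] at h1
    have e1 : (1 / 2 + δ - 1 / 2 : ℝ) = δ := by ring
    rw [e1] at h1
    exact h1.trans ((le_abs_self C).trans (by linarith))
  · rw [mem_reProdIm, hre, him]
    exact ⟨⟨by linarith, by linarith⟩, abs_le.mp ht⟩
  · show (1 : ℝ) / 2 < (1 / 2 + δ + t * I : ℂ).re
    rw [hre]; linarith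

/-- pointwise limit. -/
lemma pointwise_limit {k : ℕ} (hk : 2 ≤ k) {c : ℕ → ℂ} {W : ℂ → ℂ}
    (hW : IsW k c W) {t : ℝ} (ht : riemannZeta (1 / 2 + t * I) ≠ 0) :
    Tendsto (fun δ : ℝ => δ ^ (k - 1) * ‖W (1 / 2 + δ + t * I)‖) (𝓝[>] 0) (𝓝 0) := by
  have hm : analyticOrderAt riemannZeta (1 / 2 + t * I) = (0 : ℕ) := by
    have := (zeta_analytic_crit t).analyticOrderAt_eq_zero.mpr ht
    simpa using this
  obtain ⟨C, hC0, hC⟩ := local_bound hW hm
  have hlim : Tendsto (fun δ : ℝ => (1 / 2 + δ + t * I : ℂ)) (𝓝[>] 0) (𝓝 (1 / 2 + t * I)) := by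
    have h1 : Continuous (fun δ : ℝ => (1 / 2 + δ + t * I : ℂ)) := by fun_prop
    have h2 := h1.tendsto 0
    simp only [Complex.ofReal_zero, add_zero] at h2
    exact h2.mono_left nhdsWithin_le_nhds
  have h1 := hlim.eventually hC
  have h2 : Tendsto (fun δ : ℝ => δ ^ (k - 1) * C) (𝓝[>] 0) (𝓝 0) := by
    have h3 : Tendsto (fun δ : ℝ => δ ^ (k - 1)) (𝓝 0) (𝓝 0) := by
      have := (continuous_pow (k - 1)).tendsto (0 : ℝ)
      have e : (0 : ℝ) ^ (k - 1) = 0 := zero_pow (by omega)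
      simpa [e] using this
    have := (h3.mono_left (nhdsWithin_le_nhds (s := Ioi 0))).mul_const C
    simpa using this
  refine squeeze_zero' ?_ ?_ h2
  · filter_upwards [self_mem_nhdsWithin] with δ hδ
    have : 0 < δ := hδ
    positivity
  · filter_upwards [self_mem_nhdsWithin, h1] with δ hδ h4
    have hδ' : 0 < δ := hδ
    apply mul_le_mul_of_nonneg_left _ (by positivity)
    have h5 := h4 (by
      show (1 : ℝ) / 2 < (1 / 2 + δ + t * I : ℂ).re
      simp; exact hδ')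
    simpa using h5

lemma zeros_countable : (riemannZetaZeros).Countable := by
  have h1 : riemannZetaZeros ⊆ ⋃ n : ℕ, (closedBall (0 : ℂ) n ∩ riemannZetaZeros) := by
    intro z hz
    obtain ⟨n, hn⟩ := exists_nat_ge ‖z‖
    rw [mem_iUnion]
    exact ⟨n, by rw [mem_closedBall_zero_iff]; exact hn, hz⟩
  apply Set.Countable.mono h1
  apply Set.countable_iUnion
  intro n
  exact ((isCompact_closedBall (0 : ℂ) n).inter_riemannZetaZeros_finite).countable

lemma ae_zeta_ne_zero : ∀ᵐ t : ℝ, riemannZeta (1 / 2 + t * I) ≠ 0 := by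
  have hinj : Function.Injective (fun t : ℝ => (1 / 2 + t * I : ℂ)) := by
    intro a b h
    have := congrArg Complex.im h
    simpa using this
  have hc : ((fun t : ℝ => (1 / 2 + t * I : ℂ)) ⁻¹' riemannZetaZeros).Countable :=
    zeros_countable.preimage_of_injOn hinj.injOn
  have := hc.measure_zero volume
  rw [ae_iff]
  convert this using 2
  ext t
  simp [mem_riemannZetaZeros]

/-- window limit. -/
lemma window_limit {k : ℕ} (hk : 2 ≤ k) {c : ℕ → ℂ} {W : ℂ → ℂ}
    (hW : IsW k c W) (hord : ∀ t : ℝ, analyticOrderAt riemannZeta (1 / 2 + t * I) < k)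
    (a b : ℝ) :
    Tendsto (fun δ : ℝ => δ ^ (k - 1) * ∫ t in a..b, ‖W (1 / 2 + δ + t * I)‖) (𝓝[>] 0) (𝓝 0) := by
  obtain ⟨C, hC0, hC⟩ := compact_bound (by omega) hW hord (|a| + |b|)
  have h1 : Tendsto (fun δ : ℝ => ∫ t in a..b, δ ^ (k - 1) * ‖W (1 / 2 + δ + t * I)‖) (𝓝[>] 0)
      (𝓝 (∫ t in a..b, (0 : ℝ))) := by
    apply intervalIntegral.tendsto_integral_filter_of_dominated_convergence (fun _ => C)
    · filter_upwards [self_mem_nhdsWithin] with δ hδ
      have hδ' : 0 < δ := hδ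
      have hc := continuous_line hW.1 (a := 1 / 2 + δ) (by linarith)
      push_cast at hc
      exact (continuous_const.mul hc.norm).aestronglyMeasurable
    · have : Ioc (0 : ℝ) 1 ∈ 𝓝[>] (0 : ℝ) := Ioc_mem_nhdsGT one_pos
      filter_upwards [this] with δ hδ
      refine ae_of_all _ (fun t ht => ?_)
      rw [norm_mul, norm_norm, norm_pow, Real.norm_eq_abs, abs_of_pos hδ.1]
      apply hC δ hδ.1 hδ.2
      rw [uIoc, mem_Ioc] at ht
      rw [abs_le]
      constructor
      · have h2 : -(|a| + |b|) ≤ min a b := by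
          rw [le_min_iff]
          constructor
          · have := neg_abs_le a; have := abs_nonneg b; linarith
          · have := neg_abs_le b; have := abs_nonneg a; linarith
        linarith [ht.1]
      · have h2 : max a b ≤ |a| + |b| := by
          rw [max_le_iff]
          constructor
          · have := le_abs_self a; have := abs_nonneg b; linarith
          · have := le_abs_self b; have := abs_nonneg a; linarith
        linarith [ht.2]
    · exact intervalIntegrable_const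
    · filter_upwards [ae_zeta_ne_zero] with t ht _
      exact pointwise_limit hk hW ht
  simp only [intervalIntegral.integral_zero, intervalIntegral.integral_const_mul] at h1
  exact h1

/-- The main limit. -/
theorem main_limit (hRH : RiemannHypothesis) {k : ℕ} (hk : 2 ≤ k) {c : ℕ → ℂ} {W : ℂ → ℂ}
    (hW : IsW k c W) (hord : ∀ t : ℝ, analyticOrderAt riemannZeta (1 / 2 + t * I) < k) :
    Tendsto (fun δ : ℝ => δ ^ (k - 1) * ∫ t : ℝ, ‖W (1 / 2 + δ + t * I)‖) (𝓝[>] 0) (𝓝 0) := by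
  obtain ⟨C₁, hC₁0, hC₁⟩ := W_window hRH hk hW
  obtain ⟨C₂, hC₂0, hC₂⟩ := compact_bound (by omega) hW hord 5
  let bound : ℤ → ℝ := fun n => C₁ * |(n : ℝ)| ^ (-(3 / 2 : ℝ)) +
    if n ∈ Finset.Icc (-3 : ℤ) 3 then C₂ else 0
  have hsum : Summable bound := by
    apply Summable.add
    · exact (Real.summable_abs_int_rpow (by norm_num)).mul_left C₁
    · apply summable_of_ne_finset_zero (s := Finset.Icc (-3 : ℤ) 3)
      intro n hn
      simp [hn]
  have hkey : Tendsto (fun δ : ℝ => ∑' n : ℤ, δ ^ (k - 1) *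
      ∫ t in (-(1 / 2 : ℝ) + n)..(-(1 / 2 : ℝ) + n + 1), ‖W (1 / 2 + δ + t * I)‖) (𝓝[>] 0)
      (𝓝 (∑' _ : ℤ, (0 : ℝ))) := by
    apply tendsto_tsum_of_dominated_convergence hsum
    · intro n
      exact window_limit hk hW hord _ _
    · have : Ioc (0 : ℝ) 1 ∈ 𝓝[>] (0 : ℝ) := Ioc_mem_nhdsGT one_pos
      filter_upwards [this] with δ hδ n
      have hle : (-(1 / 2 : ℝ) + n) ≤ (-(1 / 2 : ℝ) + n + 1) := by linarith
      have hnn : 0 ≤ δ ^ (k - 1) *
          ∫ t in (-(1 / 2 : ℝ) + n)..(-(1 / 2 : ℝ) + n + 1), ‖W (1 / 2 + δ + t * I)‖ := by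
        have h1 : 0 ≤ δ ^ (k - 1) := pow_nonneg hδ.1.le _
        exact mul_nonneg h1 (intervalIntegral.integral_nonneg hle (fun t _ => norm_nonneg _))
      rw [Real.norm_eq_abs, abs_of_nonneg hnn]
      have hrp : 0 ≤ |(n : ℝ)| ^ (-(3 / 2 : ℝ)) := Real.rpow_nonneg (abs_nonneg _) _
      by_cases hn : n ∈ Finset.Icc (-3 : ℤ) 3
      · simp only [bound, hn, if_true]
        have h2 : δ ^ (k - 1) *
          ∫ t in (-(1 / 2 : ℝ) + n)..(-(1 / 2 : ℝ) + n + 1), ‖W (1 / 2 + δ + t * I)‖ ≤ C₂ := by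
          rw [← intervalIntegral.integral_const_mul]
          have hc := continuous_line hW.1 (a := 1 / 2 + δ) (by linarith [hδ.1])
          push_cast at hc
          have hint : IntervalIntegrable (fun t : ℝ => δ ^ (k - 1) * ‖W (1 / 2 + δ + t * I)‖)
            volume (-(1 / 2 : ℝ) + n) (-(1 / 2 : ℝ) + n + 1) :=
            (continuous_const.mul hc.norm).intervalIntegrable _ _
          have h3 := intervalIntegral.integral_mono_on hle hint
            (intervalIntegrable_const (c := C₂)) (fun t ht => by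
              apply hC₂ δ hδ.1 hδ.2
              rw [Finset.mem_Icc] at hn
              have h4 : (-3 : ℝ) ≤ n := by exact_mod_cast hn.1
              have h5 : (n : ℝ) ≤ 3 := by exact_mod_cast hn.2
              rw [abs_le]
              constructor <;> linarith [ht.1, ht.2])
          refine h3.trans ?_
          rw [intervalIntegral.integral_const]
          have : (-(1 / 2 : ℝ) + n + 1 - (-(1 / 2 : ℝ) + n)) = 1 := by ring
          rw [this, one_smul]
        have h3 : 0 ≤ C₁ * |(n : ℝ)| ^ (-(3 / 2 : ℝ)) := mul_nonneg hC₁0.le hrp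
        linarith
      · simp only [bound, hn, if_false, add_zero]
        have h4 : 4 ≤ |(n : ℝ)| := by
          have h5 : (4 : ℤ) ≤ |n| := by
            by_contra hcon
            push Not at hcon
            apply hn
            rw [Finset.mem_Icc]
            have := abs_lt.mp hcon
            constructor <;> omega
          exact_mod_cast h5
        have h6 := hC₁ δ hδ.1 hδ.2 n h4
        have e1 : (-(1 / 2 : ℝ) + n) = (n : ℝ) - 1 / 2 := by ring
        have e2 : (-(1 / 2 : ℝ) + n + 1) = (n : ℝ) + 1 / 2 := by ring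
        rw [e2, e1]
        exact h6
  rw [tsum_zero] at hkey
  refine hkey.congr' ?_
  have : Ioc (0 : ℝ) 1 ∈ 𝓝[>] (0 : ℝ) := Ioc_mem_nhdsGT one_pos
  filter_upwards [this] with δ hδ
  rw [tsum_mul_left]
  congr 1
  obtain ⟨C, hC0, hC⟩ := W_uniform hRH (by omega) hW hδ.1 hδ.2
  have hint := integrable_line hW.1 (a := 1 / 2 + δ) (C := C) (by linarith [hδ.1])
    (fun t => hC (1 / 2 + δ) ⟨le_rfl, by linarith [hδ.2]⟩ t)
  push_cast at hint
  exact (hint.norm.hasSum_intervalIntegral (-(1 / 2))).tsum_eq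

end Pool.Agent.Lib.MP_6bc78b_nt.H11
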