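import Mathlib
import Pool.Agent.Lib.MP_6bc78b_nt.H11.CritDefs
import Pool.Agent.Lib.MP_6bc78b_nt.H11.Limit

/-! Mellin transforms attached to Selberg's generalised von Mangoldt functions. -/

namespace Pool.Agent.Lib.MP_6bc78b_nt.H11

open Complex MeasureTheory Set Filter Topology Metric

lemma logMul_iter_one (k n : ℕ) : LSeries.logMul^[k] 1 n = ((Real.log n ^ k : ℝ) : ℂ) := by
  induction k with
  | zero => simp
  | succ k ih =>
    rw [Function.iterate_succ', Function.comp_apply, LSeries.logMul, ih]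
    rw [← Complex.natCast_log]
    push_cast
    ring

lemma LamK_conv (k : ℕ) :
    (fun n => ((selbergLambda k n : ℝ) : ℂ)) =
      LSeries.convolution (fun n => ((ArithmeticFunction.moebius n : ℤ) : ℂ))
        (LSeries.logMul^[k] 1) := by
  rw [LSeries.convolution_def]
  funext n
  rw [Nat.sum_divisorsAntidiagonal
    (fun a b => ((ArithmeticFunction.moebius a : ℤ) : ℂ) * LSeries.logMul^[k] 1 b)]
  unfold selbergLambda
  push_cast
  apply Finset.sum_congr rfl
  intro d hd
  have hd0 : d ≠ 0 := by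
    intro h; rw [h] at hd; simp at hd
  have hdvd : d ∣ n := Nat.dvd_of_mem_divisors hd
  rw [logMul_iter_one, Nat.cast_div hdvd (by exact_mod_cast hd0)]
  push_cast
  rfl

lemma abscissa_log (k : ℕ) : LSeries.abscissaOfAbsConv (LSeries.logMul^[k] 1) = 1 := by
  rw [LSeries.absicssaOfAbsConv_logPowMul, LSeries.abscissaOfAbsConv_one]

lemma summable_log (k : ℕ) {s : ℂ} (hs : 1 < s.re) : LSeriesSummable (LSeries.logMul^[k] 1) s := by
  apply LSeriesSummable_of_abscissaOfAbsConv_lt_re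
  rw [abscissa_log]
  exact_mod_cast hs

lemma LamK_summable (k : ℕ) {s : ℂ} (hs : 1 < s.re) :
    LSeriesSummable (fun n => ((selbergLambda k n : ℝ) : ℂ)) s := by
  rw [LamK_conv]
  exact LSeriesSummable.convolution (ArithmeticFunction.LSeriesSummable_moebius_iff.mpr hs)
    (summable_log k hs)

lemma LamK_LSeries (k : ℕ) {s : ℂ} (hs : 1 < s.re) :
    LSeries (fun n => ((selbergLambda k n : ℝ) : ℂ)) s = (-1) ^ k * DZ k s := by
  rw [LamK_conv, LSeries_convolution' (ArithmeticFunction.LSeriesSummable_moebius_iff.mpr hs)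
    (summable_log k hs)]
  have hab : LSeries.abscissaOfAbsConv 1 < (s.re : EReal) := by
    rw [LSeries.abscissaOfAbsConv_one]; exact_mod_cast hs
  have h1 := LSeries_iteratedDeriv (f := 1) k hab
  have h2 : iteratedDeriv k (LSeries 1) s = iteratedDeriv k riemannZeta s := by
    apply Filter.EventuallyEq.iteratedDeriv_eq
    have : {z : ℂ | 1 < z.re} ∈ 𝓝 s :=
      (isOpen_lt continuous_const Complex.continuous_re).mem_nhds hs
    filter_upwards [this] with z hz
    exact LSeries_one_eq_riemannZeta hz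
  have h3 : LSeries (LSeries.logMul^[k] 1) s = (-1) ^ k * iteratedDeriv k riemannZeta s := by
    rw [← h2, h1, ← mul_assoc, ← mul_pow]
    norm_num
  have h4 : LSeries (fun n => ((ArithmeticFunction.moebius n : ℤ) : ℂ)) s = (riemannZeta s)⁻¹ := by
    have h5 := ArithmeticFunction.LSeries_zeta_mul_Lseries_moebius hs
    rw [ArithmeticFunction.LSeries_zeta_eq_riemannZeta hs] at h5
    exact eq_inv_of_mul_eq_one_right h5
  rw [h3, h4]
  unfold DZ
  have hz : riemannZeta s ≠ 0 := riemannZeta_ne_zero_of_one_lt_re hs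
  field_simp

/-- the hat function. -/
noncomputable def hat (y : ℝ) : ℂ :=
  (Ioc (0 : ℝ) 1).indicator (fun _ => (1 : ℂ)) y - (Ioc (0 : ℝ) 1).indicator (fun t : ℝ => (t : ℂ) ^ (1 : ℂ)) y

lemma hat_mellin {s : ℂ} (hs : 0 < s.re) : HasMellin hat s (1 / (s * (s + 1))) := by
  have h1 := hasMellin_one_Ioc hs
  have h2 := hasMellin_cpow_Ioc (1 : ℂ) (s := s) (by simp; linarith)
  have h3 := hasMellin_sub h1.1 h2.1
  rw [h1.2, h2.2] at h3
  have hs0 : s ≠ 0 := by
    intro h; rw [h] at hs; simp at hs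
  have hs1 : s + 1 ≠ 0 := by
    intro h
    have := congrArg Complex.re h
    simp at this; linarith
  have e : 1 / (s * (s + 1)) = 1 / s - 1 / (s + 1) := by
    field_simp
    ring
  rw [e]
  exact h3

lemma hat_of_le {y : ℝ} (h0 : 0 < y) (h1 : y ≤ 1) : hat y = 1 - y := by
  unfold hat
  rw [indicator_of_mem (show y ∈ Ioc (0 : ℝ) 1 from ⟨h0, h1⟩),
    indicator_of_mem (show y ∈ Ioc (0 : ℝ) 1 from ⟨h0, h1⟩), cpow_one]

lemma hat_of_gt {y : ℝ} (h1 : 1 < y) : hat y = 0 := by
  unfold hat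
  rw [indicator_of_notMem (show y ∉ Ioc (0 : ℝ) 1 from fun h => by linarith [h.2]),
    indicator_of_notMem (show y ∉ Ioc (0 : ℝ) 1 from fun h => by linarith [h.2]), sub_zero]

lemma hat_eq_max {y : ℝ} (h0 : 0 < y) : hat y = ((max (1 - y) 0 : ℝ) : ℂ) := by
  rcases le_or_gt y 1 with h | h
  · rw [hat_of_le h0 h, max_eq_left (by linarith)]
    push_cast; rfl
  · rw [hat_of_gt h, max_eq_right (by linarith)]
    simp

lemma LamK_zero (k : ℕ) : selbergLambda k 0 = 0 := by
  unfold selbergLambda; simp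

lemma Asum_inv_eq_sum {k : ℕ} {y : ℝ} (hy : 0 < y) {N : ℕ} (hN : 1 / y ≤ N) :
    ((selbergSum k (1 / y) : ℝ) : ℂ) =
      ∑ n ∈ Finset.range (N + 1), (selbergLambda k n : ℂ) * ((max (1 - n * y) 0 : ℝ) : ℂ) := by
  unfold selbergSum
  push_cast
  have hsub : Finset.Icc 1 ⌊1 / y⌋₊ ⊆ Finset.range (N + 1) := by
    intro n hn
    rw [Finset.mem_Icc] at hn
    rw [Finset.mem_range]
    have : ⌊1 / y⌋₊ ≤ N := Nat.floor_le_of_le hN
    omega
  rw [← Finset.sum_subset hsub]
  · apply Finset.sum_congr rfl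
    intro n hn
    rw [Finset.mem_Icc] at hn
    have h1 : (n : ℝ) ≤ 1 / y := (Nat.le_floor_iff (by positivity)).mp hn.2
    have h2 : (n : ℝ) * y ≤ 1 := by
      rwa [le_div_iff₀ hy] at h1
    have h3 : max (1 - (n : ℝ) * y) 0 = 1 - n * y := max_eq_left (by linarith)
    have h4 : ((max (1 - (n : ℝ) * y) 0 : ℝ) : ℂ) = 1 - n * y := by
      rw [h3]; push_cast; rfl
    congr 1
    rw [h4]
    have : (y : ℂ) ≠ 0 := by exact_mod_cast hy.ne'
    field_simp
  · intro n _ hn
    rw [Finset.mem_Icc, not_and_or] at hn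
    rcases hn with h | h
    · have : n = 0 := by omega
      rw [this, LamK_zero]; simp
    · have h1 : ⌊1 / y⌋₊ < n := by omega
      have h2 : 1 / y < n := Nat.lt_of_floor_lt h1
      have h3 : 1 < (n : ℝ) * y := by rwa [div_lt_iff₀ hy] at h2
      rw [max_eq_right (by linarith)]
      simp

lemma Asum_inv_eq_tsum {k : ℕ} {y : ℝ} (hy : 0 < y) :
    ((selbergSum k (1 / y) : ℝ) : ℂ) = ∑' n : ℕ, (selbergLambda k n : ℂ) * hat (n * y) := by
  obtain ⟨N, hN⟩ := exists_nat_ge (1 / y)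
  rw [Asum_inv_eq_sum hy hN, tsum_eq_sum (s := Finset.range (N + 1))]
  · apply Finset.sum_congr rfl
    intro n _
    rcases Nat.eq_zero_or_pos n with rfl | hn
    · rw [LamK_zero]; simp
    · rw [hat_eq_max (by positivity)]
  · intro n hn
    rw [Finset.mem_range, not_lt] at hn
    have h0 : 1 / y < n := lt_of_le_of_lt hN (by exact_mod_cast hn)
    have h3 : 1 < (n : ℝ) * y := by rwa [div_lt_iff₀ hy] at h0
    rw [hat_of_gt h3, mul_zero]

lemma Asum_continuousAt (k : ℕ) {y : ℝ} (hy : 0 < y) :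
    ContinuousAt (fun y : ℝ => ((selbergSum k (1 / y) : ℝ) : ℂ)) y := by
  obtain ⟨N, hN⟩ := exists_nat_ge (1 / (y / 2))
  have hmem : Ioi (y / 2) ∈ 𝓝 y := Ioi_mem_nhds (by linarith)
  have heq : (fun z : ℝ => ∑ n ∈ Finset.range (N + 1), (selbergLambda k n : ℂ) * ((max (1 - n * z) 0 : ℝ) : ℂ))
      =ᶠ[𝓝 y] (fun y : ℝ => ((selbergSum k (1 / y) : ℝ) : ℂ)) := by
    filter_upwards [hmem] with z hz
    have hz' : y / 2 < z := hz
    symm
    apply Asum_inv_eq_sum (by linarith)
    refine le_trans ?_ hN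
    exact one_div_le_one_div_of_le (by linarith) hz'.le
  refine ContinuousAt.congr ?_ heq
  apply Continuous.continuousAt
  fun_prop

lemma hat_norm_int (s : ℂ) {n : ℕ} (hn : 0 < n) :
    ∫ y in Ioi (0 : ℝ), ‖(y : ℂ) ^ (s - 1) • hat (n * y)‖ =
      (n : ℝ) ^ (-s.re) * ∫ y in Ioi (0 : ℝ), ‖(y : ℂ) ^ (s - 1) • hat y‖ := by
  have hn' : (0 : ℝ) < n := by exact_mod_cast hn
  have h1 := integral_comp_mul_left_Ioi (fun y : ℝ => ‖(y : ℂ) ^ (s - 1) • hat y‖) 0 hn'
  rw [mul_zero] at h1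
  have h2 : ∫ y in Ioi (0 : ℝ), ‖(((n : ℝ) * y : ℝ) : ℂ) ^ (s - 1) • hat (n * y)‖ =
      (n : ℝ) ^ (s.re - 1) * ∫ y in Ioi (0 : ℝ), ‖(y : ℂ) ^ (s - 1) • hat (n * y)‖ := by
    rw [← integral_const_mul]
    apply setIntegral_congr_fun measurableSet_Ioi
    intro y hy
    have hy' : 0 < y := hy
    simp only [norm_smul]
    rw [norm_cpow_eq_rpow_re_of_pos (by positivity), norm_cpow_eq_rpow_re_of_pos hy',
      Real.mul_rpow hn'.le hy'.le]
    simp only [sub_re, one_re]
    ring
  rw [h2] at h1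
  have h3 : (n : ℝ) ^ (-s.re) = ((n : ℝ) ^ (s.re - 1))⁻¹ * (n : ℝ)⁻¹ := by
    rw [← Real.rpow_neg hn'.le, ← Real.rpow_neg_one (n : ℝ), ← Real.rpow_add hn']
    congr 1; ring
  have h4 : (n : ℝ) ^ (s.re - 1) ≠ 0 := (Real.rpow_pos_of_pos hn' _).ne'
  rw [h3, mul_assoc, ← smul_eq_mul ((n : ℝ)⁻¹), ← h1, ← mul_assoc, inv_mul_cancel₀ h4, one_mul]

theorem Asum_mellin (k : ℕ) {s : ℂ} (hs : 1 < s.re) :
    HasMellin (fun y : ℝ => ((selbergSum k (1 / y) : ℝ) : ℂ)) s ((-1) ^ k * DZ k s / (s * (s + 1))) := by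
  have hs0 : 0 < s.re := by linarith
  set F : ℕ → ℝ → ℂ := fun n y => (y : ℂ) ^ (s - 1) • ((selbergLambda k n : ℂ) * hat (n * y)) with hF
  have hconv : ∀ n : ℕ, 0 < n → MellinConvergent (fun y => hat (n * y)) s := by
    intro n hn
    have hn' : (0 : ℝ) < n := by exact_mod_cast hn
    exact (MellinConvergent.comp_mul_left hn').mpr (hat_mellin hs0).1
  have hFint : ∀ n, Integrable (F n) (volume.restrict (Ioi 0)) := by
    intro n
    rcases Nat.eq_zero_or_pos n with rfl | hn
    · have : F 0 = fun _ => 0 := by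
        funext y
        simp [hF, LamK_zero]
      rw [this]
      exact integrable_zero _ _ _
    · have h1 := (hconv n hn).const_smul (selbergLambda k n : ℂ)
      simpa [hF, MellinConvergent, IntegrableOn, smul_eq_mul] using h1
  set M : ℝ := ∫ y in Ioi (0 : ℝ), ‖(y : ℂ) ^ (s - 1) • hat y‖ with hM
  have hnorm : ∀ n, ∫ y in Ioi (0 : ℝ), ‖F n y‖ =
      ‖LSeries.term (fun n => ((selbergLambda k n : ℝ) : ℂ)) s n‖ * M := by
    intro n
    rcases Nat.eq_zero_or_pos n with rfl | hn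
    · simp [hF, LamK_zero]
    · have hn' : (0 : ℝ) < n := by exact_mod_cast hn
      have e1 : ∀ y : ℝ, ‖F n y‖ = |selbergLambda k n| * ‖(y : ℂ) ^ (s - 1) • hat (n * y)‖ := by
        intro y
        simp only [hF, smul_eq_mul, norm_mul, Complex.norm_real, Real.norm_eq_abs]
        ring
      simp_rw [e1]
      rw [integral_const_mul, hat_norm_int s hn, LSeries.norm_term_eq, if_neg hn.ne',
        Complex.norm_real, Real.norm_eq_abs, Real.rpow_neg hn'.le]
      ring
  have hsum : Summable fun n => ∫ y in Ioi (0 : ℝ), ‖F n y‖ := by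
    simp_rw [hnorm]
    exact ((LamK_summable k hs).norm).mul_right M
  have key := hasSum_integral_of_summable_integral_norm hFint hsum
  have hval : ∀ n, ∫ y in Ioi (0 : ℝ), F n y =
      LSeries.term (fun n => ((selbergLambda k n : ℝ) : ℂ)) s n * (1 / (s * (s + 1))) := by
    intro n
    rcases Nat.eq_zero_or_pos n with rfl | hn
    · simp [hF, LamK_zero]
    · have hn' : (0 : ℝ) < n := by exact_mod_cast hn
      have e1 : ∫ y in Ioi (0 : ℝ), F n y = (selbergLambda k n : ℂ) * mellin (fun y => hat (n * y)) s := by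
        rw [mellin, ← integral_const_mul]
        apply setIntegral_congr_fun measurableSet_Ioi
        intro y _
        simp only [hF, smul_eq_mul]
        ring
      rw [e1, mellin_comp_mul_left hat s hn', (hat_mellin hs0).2, LSeries.term_of_ne_zero hn.ne',
        smul_eq_mul, cpow_neg]
      push_cast
      ring
  have htsum : (fun y : ℝ => ∑' n, F n y) =ᵐ[volume.restrict (Ioi 0)]
      fun y : ℝ => (y : ℂ) ^ (s - 1) • ((selbergSum k (1 / y) : ℝ) : ℂ) := by
    filter_upwards [ae_restrict_mem measurableSet_Ioi] with y hy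
    rw [Asum_inv_eq_tsum hy]
    simp only [hF, smul_eq_mul]
    rw [tsum_mul_left]
  rw [integral_congr_ae htsum] at key
  simp_rw [hval] at key
  have hL := (LamK_summable k hs).LSeriesHasSum
  rw [LamK_LSeries k hs] at hL
  have hL2 := (show HasSum (LSeries.term (fun n => ((selbergLambda k n : ℝ) : ℂ)) s) _ from hL).mul_right
    (1 / (s * (s + 1)))
  constructor
  · -- convergence
    have hmeas : AEStronglyMeasurable (fun y : ℝ => (y : ℂ) ^ (s - 1) • ((selbergSum k (1 / y) : ℝ) : ℂ))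
        (volume.restrict (Ioi 0)) := by
      apply ContinuousOn.aestronglyMeasurable _ measurableSet_Ioi
      intro y hy
      have hy' : 0 < y := hy
      apply ContinuousAt.continuousWithinAt
      simp only [smul_eq_mul]
      exact ContinuousAt.fun_mul (continuousAt_ofReal_cpow_const y (s - 1) (Or.inr hy'.ne'))
        (Asum_continuousAt k hy')
    refine ⟨hmeas, ?_⟩
    have e1 : ∫⁻ y in Ioi (0 : ℝ), ‖(y : ℂ) ^ (s - 1) • ((selbergSum k (1 / y) : ℝ) : ℂ)‖ₑ ≤
        ∫⁻ y in Ioi (0 : ℝ), ∑' n, ‖F n y‖ₑ := by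
      apply lintegral_mono_ae
      filter_upwards [htsum] with y hy
      rw [← hy]
      exact enorm_tsum_le_tsum_enorm
    have e2 : ∫⁻ y in Ioi (0 : ℝ), ∑' n, ‖F n y‖ₑ =
        ∑' n, ENNReal.ofReal (∫ y in Ioi (0 : ℝ), ‖F n y‖) := by
      rw [lintegral_tsum (fun n => (hFint n).1.enorm)]
      congr 1
      funext n
      rw [ofReal_integral_norm_eq_lintegral_enorm (hFint n)]
    show HasFiniteIntegral _ _
    rw [hasFiniteIntegral_iff_enorm]
    refine lt_of_le_of_lt e1 ?_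
    rw [e2]
    exact hsum.tsum_ofReal_lt_top
  · have := hL2.unique key
    rw [mellin]
    rw [← this]
    ring

end Pool.Agent.Lib.MP_6bc78b_nt.H11
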