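import Mathlib
import Pool.Agent.Lib.MP_6bc78b_nt.H11.Mellin

/-! Mellin transforms of powers of the logarithm on the unit interval. -/

namespace Pool.Agent.Lib.MP_6bc78b_nt.H11

open Complex MeasureTheory Set Filter Topology Metric

/-- basis function. -/
noncomputable def eb (j : ℕ) (y : ℝ) : ℂ :=
  (((-Real.log y) ^ j : ℝ) : ℂ) * (Ioc (0 : ℝ) 1).indicator (fun t : ℝ => (t : ℂ) ^ (-1 : ℂ)) y

lemma eb_of_gt {j : ℕ} {y : ℝ} (h : 1 < y) : eb j y = 0 := by
  unfold eb
  rw [indicator_of_notMem (show y ∉ Ioc (0 : ℝ) 1 from fun h => by linarith [h.2]), mul_zero]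

lemma eb_of_le {j : ℕ} {y : ℝ} (h0 : 0 < y) (h1 : y ≤ 1) :
    eb j y = (((-Real.log y) ^ j * y⁻¹ : ℝ) : ℂ) := by
  unfold eb
  rw [indicator_of_mem (show y ∈ Ioc (0 : ℝ) 1 from ⟨h0, h1⟩), cpow_neg_one]
  push_cast
  rfl

lemma eb_succ (j : ℕ) (y : ℝ) : eb (j + 1) y = -(Real.log y • eb j y) := by
  unfold eb
  rw [pow_succ, Complex.real_smul]
  push_cast
  ring

lemma eb_isBigO_top (j : ℕ) (a : ℝ) : eb j =O[atTop] fun x : ℝ => x ^ (-a) := by
  have : eb j =ᶠ[atTop] fun _ => (0 : ℂ) := by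
    filter_upwards [eventually_gt_atTop (1 : ℝ)] with y hy
    exact eb_of_gt hy
  exact (Asymptotics.isBigO_zero _ _).congr' this.symm EventuallyEq.rfl

lemma eb_isBigO_bot (j : ℕ) {b : ℝ} (hb : 1 < b) : eb j =O[𝓝[>] 0] fun x : ℝ => x ^ (-b) := by
  have h1 : (fun x : ℝ => |Real.log x| ^ (j : ℝ)) =o[𝓝[>] 0] fun x => x ^ (-(b - 1)) :=
    isLittleO_abs_log_rpow_rpow_nhdsGT_zero (j : ℝ) (by linarith)
  have h2 : (fun x : ℝ => |Real.log x| ^ (j : ℝ) * x⁻¹) =O[𝓝[>] 0]
      fun x => x ^ (-(b - 1)) * x⁻¹ := h1.isBigO.mul (Asymptotics.isBigO_refl _ _)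
  have h3 : eb j =O[𝓝[>] 0] (fun x : ℝ => |Real.log x| ^ (j : ℝ) * x⁻¹) := by
    apply Asymptotics.IsBigO.of_bound 1
    filter_upwards [self_mem_nhdsWithin] with y hy
    have hy' : 0 < y := hy
    rw [one_mul]
    rcases le_or_gt y 1 with h | h
    · rw [eb_of_le hy' h]
      simp only [Complex.norm_real, norm_mul, Real.rpow_natCast, norm_pow, norm_neg,
        Real.norm_eq_abs, abs_abs]
      exact le_rfl
    · rw [eb_of_gt h, norm_zero]; positivity
  refine (h3.trans h2).congr' EventuallyEq.rfl ?_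
  filter_upwards [self_mem_nhdsWithin] with y hy
  have hy' : 0 < y := hy
  rw [← Real.rpow_neg_one y, ← Real.rpow_add hy']
  congr 1; ring

lemma locInt_of_mellin {f : ℝ → ℂ} {s : ℂ} (h : MellinConvergent f s) :
    LocallyIntegrableOn f (Ioi 0) := by
  have h1 : LocallyIntegrableOn (fun t : ℝ => (t : ℂ) ^ (s - 1) • f t) (Ioi 0) :=
    IntegrableOn.locallyIntegrableOn h
  have h2 : ContinuousOn (fun t : ℝ => (t : ℂ) ^ (1 - s)) (Ioi 0) := by
    intro y hy
    exact (continuousAt_ofReal_cpow_const y (1 - s) (Or.inr (show (0:ℝ) < y from hy).ne')).continuousWithinAt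
  have h3 := h1.continuousOn_smul (isOpen_Ioi.isLocallyClosed) h2
  have key : ∀ K ⊆ Ioi (0 : ℝ), IsCompact K → IntegrableOn f K := by
    intro K hK hKc
    have h4 := h3.integrableOn_compact_subset hK hKc
    refine h4.congr_fun ?_ hKc.measurableSet
    intro y hy
    have hy' : (0:ℝ) < y := hK hy
    simp only [Pi.smul_apply, smul_eq_mul]
    rw [← mul_assoc, ← cpow_add _ _ (by exact_mod_cast hy'.ne')]
    simp
  rw [locallyIntegrableOn_iff isOpen_Ioi.isLocallyClosed]
  exact key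

lemma eb_mellin (j : ℕ) {s : ℂ} (hs : 1 < s.re) :
    HasMellin (eb j) s ((j.factorial : ℂ) / (s - 1) ^ (j + 1)) := by
  induction j generalizing s with
  | zero =>
    have h1 := hasMellin_cpow_Ioc (-1 : ℂ) (s := s) (by simp; linarith)
    have h2 : eb 0 = (Ioc (0 : ℝ) 1).indicator (fun t : ℝ => (t : ℂ) ^ (-1 : ℂ)) := by
      funext y
      unfold eb; simp
    have h3 : ((Nat.factorial 0 : ℕ) : ℂ) / (s - 1) ^ (0 + 1) = 1 / (s + -1) := by
      simp [sub_eq_add_neg]
    rw [h2, h3]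
    exact h1
  | succ j ih =>
    have h1 := mellin_hasDerivAt_of_isBigO_rpow (f := eb j) (s := s) (a := s.re + 1)
      (b := (1 + s.re) / 2) (locInt_of_mellin (ih hs).1) (eb_isBigO_top j _) (by linarith)
      (eb_isBigO_bot j (by linarith)) (by linarith)
    have hfun : eb (j + 1) = fun y => (-1 : ℂ) • (Real.log y • eb j y) := by
      funext y
      rw [eb_succ]; simp
    rw [hfun]
    refine ⟨h1.1.const_smul (-1 : ℂ), ?_⟩
    rw [mellin_const_smul]
    have h2 : HasDerivAt (mellin (eb j))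
        (-((j.factorial : ℂ) * ((j + 1 : ℕ) : ℂ)) / (s - 1) ^ (j + 2)) s := by
      have hd : HasDerivAt (fun z : ℂ => (j.factorial : ℂ) / (z - 1) ^ (j + 1))
          (-((j.factorial : ℂ) * ((j + 1 : ℕ) : ℂ)) / (s - 1) ^ (j + 2)) s := by
        have hs1 : s - 1 ≠ 0 := by
          intro h
          have := congrArg Complex.re h
          simp at this; linarith
        have h3 : HasDerivAt (fun z : ℂ => (z - 1) ^ (j + 1)) (((j + 1 : ℕ) : ℂ) * (s - 1) ^ j * 1) s := by
          have := ((hasDerivAt_id s).sub_const 1).fun_pow (j + 1)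
          simpa using this
        have h4 := (hasDerivAt_const s (j.factorial : ℂ)).fun_div h3 (pow_ne_zero _ hs1)
        have e : (0 * (s - 1) ^ (j + 1) - (j.factorial : ℂ) * (((j + 1 : ℕ) : ℂ) * (s - 1) ^ j * 1)) /
            ((s - 1) ^ (j + 1)) ^ 2 = -((j.factorial : ℂ) * ((j + 1 : ℕ) : ℂ)) / (s - 1) ^ (j + 2) := by
          rw [div_eq_div_iff (by positivity) (by positivity)]
          ring
        rw [e] at h4
        exact h4
      refine hd.congr_of_eventuallyEq ?_
      have : {z : ℂ | 1 < z.re} ∈ 𝓝 s :=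
        (isOpen_lt continuous_const Complex.continuous_re).mem_nhds hs
      filter_upwards [this] with z hz
      exact (ih hz).2
    have h3 := h1.2.unique h2
    rw [h3, Nat.factorial_succ]
    push_cast
    simp only [smul_eq_mul]
    ring

end Pool.Agent.Lib.MP_6bc78b_nt.H11
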