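import Mathlib
import Pool.Agent.Lib.MP_6bc78b_nt.H11.Basis

/-! The remainder term as an inverse Mellin transform. -/

namespace Pool.Agent.Lib.MP_6bc78b_nt.H11

open Complex MeasureTheory Set Filter Topology Metric

/-- the remainder. -/
noncomputable def Rem (k : ℕ) (c : ℕ → ℂ) (y : ℝ) : ℂ :=
  ((selbergSum k (1 / y) : ℝ) : ℂ) -
    ((∑ i ∈ Finset.range k, (c i / ((k - 1 - i).factorial : ℂ)) • eb (k - 1 - i) y) -
      c (k - 1) • (Ioc (0 : ℝ) 1).indicator (fun _ => (1 : ℂ)) y)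

lemma polar_mellin (k : ℕ) (c : ℕ → ℂ) {s : ℂ} (hs : 1 < s.re) :
    HasMellin (fun y => (∑ i ∈ Finset.range k, (c i / ((k - 1 - i).factorial : ℂ)) • eb (k - 1 - i) y) -
      c (k - 1) • (Ioc (0 : ℝ) 1).indicator (fun _ => (1 : ℂ)) y) s (polar k c s) := by
  have h1 : HasMellin (fun y => c (k - 1) • (Ioc (0 : ℝ) 1).indicator (fun _ => (1 : ℂ)) y) s
      (c (k - 1) / s) := by
    have h := hasMellin_one_Ioc (s := s) (by linarith)
    refine ⟨h.1.const_smul _, ?_⟩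
    rw [mellin_const_smul, h.2, smul_eq_mul]
    ring
  have h2 : ∀ S : Finset ℕ, (∀ i ∈ S, i < k) → HasMellin (fun y => ∑ i ∈ S,
      (c i / ((k - 1 - i).factorial : ℂ)) • eb (k - 1 - i) y) s
      (∑ i ∈ S, c i / (s - 1) ^ (k - i)) := by
    intro S
    induction S using Finset.induction_on with
    | empty =>
      intro _
      simp only [Finset.sum_empty]
      refine ⟨?_, ?_⟩
      · simp [MellinConvergent, integrableOn_zero]
      · simp [mellin]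
    | insert a S ha ih =>
      intro hS
      have hak : a < k := hS a (Finset.mem_insert_self a S)
      have ih' := ih (fun i hi => hS i (Finset.mem_insert_of_mem hi))
      have h3 := eb_mellin (k - 1 - a) hs
      have h4 := h3.1.const_smul (c a / ((k - 1 - a).factorial : ℂ))
      have h5 := hasMellin_add h4 ih'.1
      simp only [Finset.sum_insert ha]
      refine ⟨h5.1, ?_⟩
      rw [h5.2, mellin_const_smul, h3.2, ih'.2]
      congr 1
      have e : k - 1 - a + 1 = k - a := by omega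
      rw [e, smul_eq_mul]
      have : ((k - 1 - a).factorial : ℂ) ≠ 0 := by exact_mod_cast Nat.factorial_ne_zero _
      field_simp
  have h3 := h2 (Finset.range k) (fun i hi => Finset.mem_range.mp hi)
  have h4 := hasMellin_sub h3.1 h1.1
  rw [h3.2, h1.2] at h4
  exact h4

lemma Rem_mellin (k : ℕ) (c : ℕ → ℂ) {s : ℂ} (hs : 1 < s.re) :
    HasMellin (Rem k c) s ((-1) ^ k * DZ k s / (s * (s + 1)) - polar k c s) := by
  have h1 := Asum_mellin k hs
  have h2 := polar_mellin k c hs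
  have h3 := hasMellin_sub h1.1 h2.1
  rw [h1.2, h2.2] at h3
  exact h3

lemma eb_continuousAt (j : ℕ) {y : ℝ} (h0 : 0 < y) (h1 : y < 1) : ContinuousAt (eb j) y := by
  have heq : (fun z : ℝ => (((-Real.log z) ^ j * z⁻¹ : ℝ) : ℂ)) =ᶠ[𝓝 y] eb j := by
    filter_upwards [Ioo_mem_nhds h0 h1] with z hz
    rw [eb_of_le hz.1 hz.2.le]
  refine ContinuousAt.congr ?_ heq
  have hy : y ≠ 0 := h0.ne'
  fun_prop (disch := assumption)

lemma Rem_continuousAt (k : ℕ) (c : ℕ → ℂ) {y : ℝ} (h0 : 0 < y) (h1 : y < 1) :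
    ContinuousAt (Rem k c) y := by
  have e1 : ContinuousAt (fun y : ℝ => ∑ i ∈ Finset.range k,
      (c i / ((k - 1 - i).factorial : ℂ)) * eb (k - 1 - i) y) y := by
    apply tendsto_finsetSum
    intro i _
    exact (continuousAt_const (y := c i / ((k - 1 - i).factorial : ℂ))).fun_mul
      (eb_continuousAt _ h0 h1)
  have e2 : ContinuousAt ((Ioc (0 : ℝ) 1).indicator (fun _ => (1 : ℂ))) y := by
    have heq : (fun _ : ℝ => (1 : ℂ)) =ᶠ[𝓝 y] (Ioc (0 : ℝ) 1).indicator (fun _ => (1 : ℂ)) := by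
      filter_upwards [Ioo_mem_nhds h0 h1] with z hz
      rw [indicator_of_mem (show z ∈ Ioc (0 : ℝ) 1 from ⟨hz.1, hz.2.le⟩)]
    exact ContinuousAt.congr continuousAt_const heq
  have e3 : ContinuousAt (fun y : ℝ => c (k - 1) * (Ioc (0 : ℝ) 1).indicator (fun _ => (1 : ℂ)) y) y :=
    (continuousAt_const (y := c (k - 1))).fun_mul e2
  exact (Asum_continuousAt k h0).fun_sub (e1.fun_sub e3)

/-- the inversion formula on the line `Re s = 1/2 + δ`. -/
theorem Rem_inversion (hRH : RiemannHypothesis) {k : ℕ} (hk : 1 ≤ k) {c : ℕ → ℂ} {W : ℂ → ℂ}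
    (hW : IsW k c W) {y : ℝ} (h0 : 0 < y) (h1 : y < 1) {δ : ℝ} (hδ : 0 < δ) (hδ1 : δ ≤ 1) :
    Rem k c y = (1 / (2 * Real.pi) : ℂ) * ∫ t : ℝ, W (1 / 2 + δ + t * I) * (y : ℂ) ^ (-(1 / 2 + δ + t * I : ℂ)) := by
  obtain ⟨C, hC0, hC⟩ := W_uniform hRH hk hW hδ hδ1
  have hMW : ∀ t : ℝ, mellin (Rem k c) (((2 : ℝ) : ℂ) + t * I) = W (((2 : ℝ) : ℂ) + t * I) := by
    intro t
    have hs : 1 < (((2 : ℝ) : ℂ) + t * I).re := by simp
    have hsO : (((2 : ℝ) : ℂ) + t * I) ∈ OM := by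
      show (1 : ℝ) / 2 < (((2 : ℝ) : ℂ) + t * I).re
      linarith
    have hs1 : (((2 : ℝ) : ℂ) + t * I) ≠ 1 := by
      intro h; rw [h] at hs; simp at hs
    rw [(Rem_mellin k c hs).2, hW.2 _ hsO hs1]
  have hvert : VerticalIntegrable (mellin (Rem k c)) 2 volume := by
    unfold VerticalIntegrable
    simp_rw [hMW]
    exact integrable_line hW.1 (a := 2) (C := C) (by norm_num)
      (fun t => hC 2 ⟨by linarith, by norm_num⟩ t)
  have hconv : MellinConvergent (Rem k c) ((2 : ℝ) : ℂ) :=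
    (Rem_mellin k c (s := ((2 : ℝ) : ℂ)) (by simp)).1
  have hinv := mellinInv_mellin_eq 2 (Rem k c) h0 hconv hvert (Rem_continuousAt k c h0 h1)
  have hy0 : (y : ℂ) ≠ 0 := by exact_mod_cast h0.ne'
  rw [← hinv, mellinInv]
  -- contour shift
  have hF : DifferentiableOn ℂ (fun s => W s * (y : ℂ) ^ (-s)) OM := by
    apply hW.1.fun_mul
    intro s _
    apply DifferentiableAt.differentiableWithinAt
    exact DifferentiableAt.const_cpow (by fun_prop) (Or.inl hy0)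
  have hnormy : ∀ σ t : ℝ, ‖(y : ℂ) ^ (-(σ + t * I : ℂ))‖ = y ^ (-σ) := by
    intro σ t
    rw [norm_cpow_eq_rpow_re_of_pos h0]
    simp
  have hb : ∀ σ ∈ Icc (1 / 2 + δ) (2 : ℝ), ∀ t : ℝ,
      ‖(fun s => W s * (y : ℂ) ^ (-s)) (σ + t * I)‖ ≤ (C * y ^ (-(2 : ℝ))) * jb t := by
    intro σ hσ t
    simp only [norm_mul]
    rw [hnormy σ t]
    have e1 := hC σ ⟨hσ.1, by linarith [hσ.2]⟩ t
    have e2 : y ^ (-σ) ≤ y ^ (-(2 : ℝ)) :=
      Real.rpow_le_rpow_of_exponent_ge h0 h1.le (by linarith [hσ.2])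
    calc ‖W (σ + t * I)‖ * y ^ (-σ) ≤ (C * jb t) * y ^ (-(2 : ℝ)) := by
          apply mul_le_mul e1 e2 (Real.rpow_nonneg h0.le _)
          have := jb_pos t
          positivity
      _ = (C * y ^ (-(2 : ℝ))) * jb t := by ring
  have hshift := contour_shift hF (a := 1 / 2 + δ) (b := 2) (by linarith) (by linarith) hb
  push_cast at hshift
  rw [hshift, Complex.real_smul]
  push_cast
  congr 1
  congr 1
  funext t
  have := hMW t
  push_cast at this
  rw [this, smul_eq_mul]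
  ring

/-- the resulting bound. -/
theorem Rem_bound (hRH : RiemannHypothesis) {k : ℕ} (hk : 1 ≤ k) {c : ℕ → ℂ} {W : ℂ → ℂ}
    (hW : IsW k c W) {y : ℝ} (h0 : 0 < y) (h1 : y < 1) {δ : ℝ} (hδ : 0 < δ) (hδ1 : δ ≤ 1) :
    ‖Rem k c y‖ ≤ y ^ (-(1 / 2 + δ)) * ∫ t : ℝ, ‖W (1 / 2 + δ + t * I)‖ := by
  rw [Rem_inversion hRH hk hW h0 h1 hδ hδ1, norm_mul]
  have hnormy : ∀ t : ℝ, ‖(y : ℂ) ^ (-(1 / 2 + δ + t * I : ℂ))‖ = y ^ (-(1 / 2 + δ)) := by
    intro t
    rw [norm_cpow_eq_rpow_re_of_pos h0]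
    simp
  have e1 : ‖∫ t : ℝ, W (1 / 2 + δ + t * I) * (y : ℂ) ^ (-(1 / 2 + δ + t * I : ℂ))‖ ≤
      y ^ (-(1 / 2 + δ)) * ∫ t : ℝ, ‖W (1 / 2 + δ + t * I)‖ := by
    refine (norm_integral_le_integral_norm _).trans ?_
    rw [← integral_const_mul]
    apply le_of_eq
    congr 1
    funext t
    rw [norm_mul, hnormy t]
    ring
  have e2 : ‖(1 / (2 * Real.pi) : ℂ)‖ ≤ 1 := by
    rw [norm_div, norm_one, norm_mul, Complex.norm_real, Real.norm_eq_abs,
      abs_of_pos Real.pi_pos]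
    have := Real.pi_gt_three
    have hn : ‖(2 : ℂ)‖ = 2 := by simp
    rw [hn, div_le_one (by linarith)]
    linarith
  calc ‖(1 / (2 * Real.pi) : ℂ)‖ * ‖∫ t : ℝ, W (1 / 2 + δ + t * I) * (y : ℂ) ^ (-(1 / 2 + δ + t * I : ℂ))‖
      ≤ 1 * (y ^ (-(1 / 2 + δ)) * ∫ t : ℝ, ‖W (1 / 2 + δ + t * I)‖) :=
        mul_le_mul e2 e1 (norm_nonneg _) zero_le_one
    _ = _ := one_mul _

end Pool.Agent.Lib.MP_6bc78b_nt.H11
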