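import Mathlib
import Pool.Agent.Lib.MP_6bc78b_nt.H11.Inversion

/-! From the Riemann hypothesis and the multiplicity bound to the asymptotic estimates. -/

namespace Pool.Agent.Lib.MP_6bc78b_nt.H11

open Complex MeasureTheory Set Filter Topology Metric

/-- the main term polynomial. -/
noncomputable def mainPoly (k : ℕ) (c : ℕ → ℂ) : Polynomial ℝ :=
  ∑ i ∈ Finset.range k, Polynomial.C ((c i).re / ((k - 1 - i).factorial : ℝ)) *
    Polynomial.X ^ (k - 1 - i)

lemma mainPoly_eval (k : ℕ) (c : ℕ → ℂ) (u : ℝ) :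
    (mainPoly k c).eval u =
      ∑ i ∈ Finset.range k, (c i).re / ((k - 1 - i).factorial : ℝ) * u ^ (k - 1 - i) := by
  unfold mainPoly
  rw [Polynomial.eval_finsetSum]
  apply Finset.sum_congr rfl
  intro i _
  simp

lemma Asum_sub_main (k : ℕ) (c : ℕ → ℂ) {x : ℝ} (hx : 1 < x) :
    selbergSum k x - x * (mainPoly k c).eval (Real.log x) =
      (Rem k c (1 / x)).re - (c (k - 1)).re := by
  have hx0 : 0 < x := by linarith
  have hy0 : 0 < 1 / x := by positivity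
  have hy1 : 1 / x ≤ 1 := by rw [div_le_one hx0]; exact hx.le
  have hterm : ∀ i, ((c i / ((k - 1 - i).factorial : ℂ)) • eb (k - 1 - i) (1 / x)).re =
      x * ((c i).re / ((k - 1 - i).factorial : ℝ) * Real.log x ^ (k - 1 - i)) := by
    intro i
    have e1 : c i / ((k - 1 - i).factorial : ℂ) = c i / (((k - 1 - i).factorial : ℝ) : ℂ) := by
      push_cast; rfl
    have e2 : (-Real.log (1 / x)) ^ (k - 1 - i) * (1 / x)⁻¹ = Real.log x ^ (k - 1 - i) * x := by
      rw [one_div, Real.log_inv, neg_neg, inv_inv]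
    rw [eb_of_le hy0 hy1, e2, smul_eq_mul, Complex.re_mul_ofReal, e1, Complex.div_ofReal_re]
    ring
  unfold Rem
  rw [one_div_one_div, Complex.sub_re, Complex.sub_re, Complex.re_sum, Complex.ofReal_re,
    Finset.sum_congr rfl (fun i _ => hterm i), mainPoly_eval, Finset.mul_sum]
  rw [indicator_of_mem (show 1 / x ∈ Ioc (0 : ℝ) 1 from ⟨hy0, hy1⟩), smul_eq_mul, mul_one]
  ring

lemma Rem_bound_x (hRH : RiemannHypothesis) {k : ℕ} (hk : 1 ≤ k) {c : ℕ → ℂ} {W : ℂ → ℂ}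
    (hW : IsW k c W) {x : ℝ} (hx : 1 < x) {δ : ℝ} (hδ : 0 < δ) (hδ1 : δ ≤ 1) :
    |selbergSum k x - x * (mainPoly k c).eval (Real.log x)| ≤
      x ^ (1 / 2 + δ) * (∫ t : ℝ, ‖W (1 / 2 + δ + t * I)‖) + ‖c (k - 1)‖ := by
  have hx0 : 0 < x := by linarith
  have hy0 : 0 < 1 / x := by positivity
  have hy1 : 1 / x < 1 := by rw [div_lt_one hx0]; exact hx
  have h1 := Rem_bound hRH hk hW hy0 hy1 hδ hδ1
  rw [Asum_sub_main k c hx]
  have e1 : (1 / x) ^ (-(1 / 2 + δ)) = x ^ (1 / 2 + δ) := by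
    rw [one_div, Real.inv_rpow hx0.le, Real.rpow_neg hx0.le, inv_inv]
  rw [e1] at h1
  have h2 : |(Rem k c (1 / x)).re - (c (k - 1)).re| ≤ |(Rem k c (1 / x)).re| + |(c (k - 1)).re| :=
    abs_sub _ _
  have h3 := Complex.abs_re_le_norm (Rem k c (1 / x))
  have h4 := Complex.abs_re_le_norm (c (k - 1))
  linarith

theorem estimate_one (hRH : RiemannHypothesis) :
    ∃ a : ℝ, ∀ ε : ℝ, 0 < ε →
      (fun x : ℝ => selbergSum 1 x - a * x) =O[atTop] (fun x : ℝ => x ^ (1 / 2 + ε)) := by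
  obtain ⟨c, W, hW1, hW2⟩ := exists_W hRH 1
  have hW : IsW 1 c W := ⟨hW1, hW2⟩
  refine ⟨(c 0).re, fun ε hε => ?_⟩
  set δ := min ε 1 with hδdef
  have hδ : 0 < δ := lt_min hε one_pos
  have hδ1 : δ ≤ 1 := min_le_right _ _
  have hδε : δ ≤ ε := min_le_left _ _
  set M := ∫ t : ℝ, ‖W (1 / 2 + δ + t * I)‖ with hM
  have hM0 : 0 ≤ M := integral_nonneg (fun t => norm_nonneg _)
  apply Asymptotics.IsBigO.of_bound (M + ‖c 0‖)
  filter_upwards [eventually_gt_atTop (1 : ℝ)] with x hx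
  have hx0 : 0 < x := by linarith
  have h1 := Rem_bound_x hRH le_rfl hW hx hδ hδ1
  rw [← hM, mainPoly_eval] at h1
  simp only [Finset.range_one, Finset.sum_singleton, tsub_self, Nat.factorial_zero, Nat.cast_one,
    div_one, pow_zero, mul_one] at h1
  rw [Real.norm_eq_abs, Real.norm_eq_abs, abs_of_nonneg (Real.rpow_nonneg hx0.le (1 / 2 + ε))]
  have h2 : x ^ (1 / 2 + δ) ≤ x ^ (1 / 2 + ε) :=
    Real.rpow_le_rpow_of_exponent_le hx.le (by linarith)
  have h3 : 1 ≤ x ^ (1 / 2 + ε) := Real.one_le_rpow hx.le (by linarith)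
  have h4 : selbergSum 1 x - (c 0).re * x = selbergSum 1 x - x * (c 0).re := by ring
  rw [h4]
  have h5 := norm_nonneg (c 0)
  nlinarith

theorem estimate_k (hRH : RiemannHypothesis) {k : ℕ} (hk : 2 ≤ k)
    (hord : ∀ t : ℝ, analyticOrderAt riemannZeta (1 / 2 + t * I) < k) :
    ∃ P : Polynomial ℝ, (fun x : ℝ => selbergSum k x - x * P.eval (Real.log x)) =o[atTop]
      (fun x : ℝ => Real.sqrt x * Real.log x ^ (k - 1)) := by
  obtain ⟨c, W, hW1, hW2⟩ := exists_W hRH k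
  have hW : IsW k c W := ⟨hW1, hW2⟩
  have hlim := main_limit hRH hk hW hord
  refine ⟨mainPoly k c, ?_⟩
  rw [Asymptotics.isLittleO_iff]
  intro ε hε
  have hlog : Tendsto (fun x : ℝ => 1 / Real.log x) atTop (𝓝[>] 0) := by
    have h1 : Tendsto (fun x : ℝ => (Real.log x)⁻¹) atTop (𝓝[>] 0) :=
      tendsto_inv_atTop_nhdsGT_zero.comp Real.tendsto_log_atTop
    simpa [one_div] using h1
  have h2 := hlog.eventually (hlim.eventually (Iio_mem_nhds (show (0 : ℝ) < ε / 2 / Real.exp 1 by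
    positivity)))
  have h3 : ∀ᶠ x : ℝ in atTop, ‖c (k - 1)‖ ≤ ε / 2 * Real.sqrt x := by
    have h4 : Tendsto (fun x : ℝ => ε / 2 * Real.sqrt x) atTop atTop :=
      Real.tendsto_sqrt_atTop.const_mul_atTop (by positivity)
    exact h4.eventually_ge_atTop _
  filter_upwards [h2, h3, eventually_ge_atTop (Real.exp 1)] with x hx2 hx3 hx4
  have hx0 : 0 < x := lt_of_lt_of_le (Real.exp_pos 1) hx4
  have hlx : 1 ≤ Real.log x := by
    rw [Real.le_log_iff_exp_le hx0]; exact hx4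
  have hx1 : 1 < x := by
    have := Real.add_one_le_exp (1 : ℝ)
    linarith
  have hlx0 : 0 < Real.log x := by linarith
  have hδ : 0 < 1 / Real.log x := by positivity
  have hδ1 : 1 / Real.log x ≤ 1 := by rw [div_le_one hlx0]; exact hlx
  have h5 := Rem_bound_x hRH (by omega) hW hx1 hδ hδ1
  have e1 : x ^ (1 / 2 + 1 / Real.log x) = Real.sqrt x * Real.exp 1 := by
    rw [Real.rpow_add hx0, ← Real.sqrt_eq_rpow]
    congr 1
    rw [Real.rpow_def_of_pos hx0]
    congr 1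
    field_simp
  rw [e1] at h5
  have hx2' : (1 / Real.log x) ^ (k - 1) * ∫ t : ℝ, ‖W (1 / 2 + ((1 / Real.log x : ℝ) : ℂ) + t * I)‖ <
    ε / 2 / Real.exp 1 := hx2
  set J := ∫ t : ℝ, ‖W (1 / 2 + ((1 / Real.log x : ℝ) : ℂ) + t * I)‖ with hJ
  have hJ2 : J < ε / 2 / Real.exp 1 * Real.log x ^ (k - 1) := by
    have h6 : 0 < Real.log x ^ (k - 1) := by positivity
    rw [one_div, inv_pow, inv_mul_lt_iff₀ h6] at hx2'
    linarith
  have hsq : 0 < Real.sqrt x := Real.sqrt_pos.mpr hx0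
  have hlk : 1 ≤ Real.log x ^ (k - 1) := one_le_pow₀ hlx
  rw [Real.norm_eq_abs, Real.norm_eq_abs, abs_of_nonneg (by positivity : 0 ≤ Real.sqrt x * Real.log x ^ (k - 1))]
  calc |selbergSum k x - x * (mainPoly k c).eval (Real.log x)|
      ≤ Real.sqrt x * Real.exp 1 * J + ‖c (k - 1)‖ := h5
    _ ≤ Real.sqrt x * Real.exp 1 * (ε / 2 / Real.exp 1 * Real.log x ^ (k - 1)) + ε / 2 * Real.sqrt x := by
        gcongr
    _ = ε / 2 * (Real.sqrt x * Real.log x ^ (k - 1)) + ε / 2 * Real.sqrt x := by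
        have := Real.exp_pos 1
        field_simp
    _ ≤ ε / 2 * (Real.sqrt x * Real.log x ^ (k - 1)) + ε / 2 * (Real.sqrt x * Real.log x ^ (k - 1)) := by
        have : Real.sqrt x ≤ Real.sqrt x * Real.log x ^ (k - 1) := by
          nlinarith
        gcongr
    _ = ε * (Real.sqrt x * Real.log x ^ (k - 1)) := by ring

end Pool.Agent.Lib.MP_6bc78b_nt.H11
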