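import Mathlib
import Pool.Agent.Lib.MP_6bc78b_nt.H11.DirB

/-! Local structure of zeta at a zero, and the punctured half plane. -/

namespace Pool.Agent.Lib.MP_6bc78b_nt.H11

open Complex MeasureTheory Set Filter Topology Metric

lemma local_deriv {f q : ℂ → ℂ} {z₀ : ℂ} {m : ℕ} (hq : AnalyticAt ℂ q z₀)
    (hf : ∀ᶠ z in 𝓝 z₀, f z = (z - z₀) ^ m * q z) (j : ℕ) (hj : j ≤ m) :
    ∃ r : ℂ → ℂ, AnalyticAt ℂ r z₀ ∧ r z₀ = (m.descFactorial j : ℂ) * q z₀ ∧
      ∀ᶠ z in 𝓝 z₀, iteratedDeriv j f z = (z - z₀) ^ (m - j) * r z := by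
  induction j with
  | zero =>
    exact ⟨q, hq, by simp, by simpa using hf⟩
  | succ j ih =>
    obtain ⟨r, hr, hr0, hrf⟩ := ih (by omega)
    refine ⟨fun z => ((m - j : ℕ) : ℂ) * r z + (z - z₀) * deriv r z, ?_, ?_, ?_⟩
    · have h1 := hr.deriv
      have h2 : AnalyticAt ℂ (fun z : ℂ => z - z₀) z₀ := by fun_prop
      exact (analyticAt_const.fun_mul hr).fun_add (h2.fun_mul h1)
    · simp only [sub_self, zero_mul, add_zero]
      rw [hr0, Nat.descFactorial_succ]
      push_cast
      ring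
    · have h1 := hrf.eventually_nhds
      have h2 := hr.eventually_analyticAt
      filter_upwards [h1, h2] with z hz1 hz2
      rw [iteratedDeriv_succ]
      have hz1' : iteratedDeriv j f =ᶠ[𝓝 z] fun z => (z - z₀) ^ (m - j) * r z := hz1
      rw [hz1'.deriv_eq]
      obtain ⟨n, hn⟩ : ∃ n, m - j = n + 1 := ⟨m - j - 1, by omega⟩
      have hn' : m - (j + 1) = n := by omega
      rw [hn, hn']
      have hd1 : HasDerivAt (fun z : ℂ => (z - z₀) ^ (n + 1)) (((n + 1 : ℕ) : ℂ) * (z - z₀) ^ n) z := by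
        have := ((hasDerivAt_id z).sub_const z₀).fun_pow (n + 1)
        simpa using this
      have hd2 := hd1.fun_mul hz2.differentiableAt.hasDerivAt
      rw [hd2.deriv]
      ring

lemma OM1_preconnected : IsPreconnected (OM \ {1}) := by
  set A : Set ℂ := {s | 1 / 2 < s.re} ∩ {s | 0 < s.im} with hA
  set B : Set ℂ := {s | 1 / 2 < s.re} ∩ {s | s.im < 0} with hB
  set C : Set ℂ := {s | 1 / 2 < s.re} ∩ {s | s.re < 1} with hC
  set D : Set ℂ := {s | 1 < s.re} with hD
  have cA : IsPreconnected A := ((convex_halfSpace_re_gt _).inter (convex_halfSpace_im_gt _)).isPreconnected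
  have cB : IsPreconnected B := ((convex_halfSpace_re_gt _).inter (convex_halfSpace_im_lt _)).isPreconnected
  have cC : IsPreconnected C := ((convex_halfSpace_re_gt _).inter (convex_halfSpace_re_lt _)).isPreconnected
  have cD : IsPreconnected D := (convex_halfSpace_re_gt _).isPreconnected
  have h1 : IsPreconnected (A ∪ C) := by
    refine cA.union ((3 / 4 : ℝ) + (1 : ℝ) * I : ℂ) ?_ ?_ cC
    · constructor
      · show (1 : ℝ) / 2 < _
        simp; norm_num
      · show (0 : ℝ) < _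
        simp
    · constructor
      · show (1 : ℝ) / 2 < _
        simp; norm_num
      · show _ < (1 : ℝ)
        simp; norm_num
  have h2 : IsPreconnected ((A ∪ C) ∪ B) := by
    refine h1.union ((3 / 4 : ℝ) + (-1 : ℝ) * I : ℂ) (Or.inr ?_) ?_ cB
    · constructor
      · show (1 : ℝ) / 2 < _
        simp; norm_num
      · show _ < (1 : ℝ)
        simp; norm_num
    · constructor
      · show (1 : ℝ) / 2 < _
        simp; norm_num
      · show _ < (0 : ℝ)
        simp
  have h3 : IsPreconnected (((A ∪ C) ∪ B) ∪ D) := by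
    refine h2.union ((2 : ℝ) + (1 : ℝ) * I : ℂ) (Or.inl (Or.inl ?_)) ?_ cD
    · constructor
      · show (1 : ℝ) / 2 < _
        simp; norm_num
      · show (0 : ℝ) < _
        simp
    · show (1 : ℝ) < _
      simp
  have h4 : OM \ {1} = ((A ∪ C) ∪ B) ∪ D := by
    ext s
    constructor
    · rintro ⟨h1, h2⟩
      have h1' : 1 / 2 < s.re := h1
      rcases lt_trichotomy s.im 0 with h | h | h
      · exact Or.inl (Or.inr ⟨h1', h⟩)
      · rcases lt_trichotomy s.re 1 with h' | h' | h'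
        · exact Or.inl (Or.inl (Or.inr ⟨h1', h'⟩))
        · exfalso
          apply h2
          rw [mem_singleton_iff]
          apply Complex.ext <;> simp [h, h']
        · exact Or.inr h'
      · exact Or.inl (Or.inl (Or.inl ⟨h1', h⟩))
    · rintro (((⟨h1, h2⟩ | ⟨h1, h2⟩) | ⟨h1, h2⟩) | h1)
      · refine ⟨h1, ?_⟩
        rintro rfl
        simp at h2
      · refine ⟨h1, ?_⟩
        rintro rfl
        simp at h2
      · refine ⟨h1, ?_⟩
        rintro rfl
        simp at h2
      · have h1' : 1 < s.re := h1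
        refine ⟨?_, ?_⟩
        · show 1 / 2 < s.re
          linarith
        · rintro rfl
          simp at h1'
  rw [h4]
  exact h3

lemma zeta_order_ne_top {z : ℂ} (hz : z ≠ 1) : analyticOrderAt riemannZeta z ≠ ⊤ := by
  intro h
  rw [analyticOrderAt_eq_top] at h
  have hrank : 1 < Module.rank ℝ ℂ := by
    rw [Complex.rank_real_complex]
    norm_num
  have hconn := (isConnected_compl_singleton_of_one_lt_rank hrank (1 : ℂ)).isPreconnected
  have hana : AnalyticOnNhd ℂ riemannZeta {1}ᶜ := analyticOn_riemannZeta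
  have h0 : AnalyticOnNhd ℂ (fun _ : ℂ => (0 : ℂ)) {1}ᶜ := fun _ _ => analyticAt_const
  have := hana.eqOn_of_preconnected_of_eventuallyEq h0 hconn hz h
  have h2 := this (show (2 : ℂ) ∈ ({1}ᶜ : Set ℂ) by simp)
  exact riemannZeta_ne_zero_of_one_lt_re (s := 2) (by simp) h2

/-- local factorization of zeta and its derivatives at a point. -/
lemma zeta_local_struct {z₀ : ℂ} (hz : z₀ ≠ 1) :
    ∃ (m : ℕ) (q : ℂ → ℂ), analyticOrderAt riemannZeta z₀ = m ∧ AnalyticAt ℂ q z₀ ∧ q z₀ ≠ 0 ∧
      ∀ᶠ z in 𝓝 z₀, riemannZeta z = (z - z₀) ^ m * q z := by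
  have hana : AnalyticAt ℂ riemannZeta z₀ := analyticOn_riemannZeta _ hz
  obtain ⟨m, hm⟩ := ENat.ne_top_iff_exists.mp (zeta_order_ne_top hz)
  obtain ⟨q, hq, hq0, hqeq⟩ := (hana.analyticOrderAt_eq_natCast).mp hm.symm
  exact ⟨m, q, hm.symm, hq, hq0, by simpa using hqeq⟩

end Pool.Agent.Lib.MP_6bc78b_nt.H11
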