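import Mathlib
import Pool.Agent.Lib.MP_6bc78b_nt.HardyOrder
import Pool.Agent.Lib.MP_6bc78b_nt.H11.LocalZeta

/-! The multiplicity of a zero of Hardy's function equals the order of zeta. -/

namespace Pool.Agent.Lib.MP_6bc78b_nt.H11

open Complex Set Filter Topology

theorem order_eq (γ : ℝ) :
    analyticOrderAt riemannZeta (1 / 2 + γ * I) = (zeroMult γ : ℕ∞) := by
  set s₀ : ℂ := 1 / 2 + γ * I with hs₀
  have hs1 : s₀ ≠ 1 := crit_ne_one γ
  obtain ⟨m, q, hm, hq, hq0, hqeq⟩ := zeta_local_struct hs1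
  have hZ := analyticAt_hardyZ γ
  have hline : Tendsto (fun x : ℝ => (1 / 2 + x * I : ℂ)) (𝓝[≠] γ) (𝓝 s₀) := by
    have : Continuous (fun x : ℝ => (1 / 2 + x * I : ℂ)) := by fun_prop
    exact (this.tendsto γ).mono_left nhdsWithin_le_nhds
  have habs : ∀ᶠ x : ℝ in 𝓝[≠] γ, |hardyZ x| = |x - γ| ^ m * ‖q (1 / 2 + x * I)‖ := by
    filter_upwards [hline.eventually hqeq] with x hx1
    have e2 : (1 / 2 + x * I : ℂ) - s₀ = ((x - γ : ℝ) : ℂ) * I := by
      rw [hs₀]; push_cast; ring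
    rw [abs_hardyZ, hx1, norm_mul, e2, norm_pow, norm_mul, norm_I, mul_one, Complex.norm_real,
      Real.norm_eq_abs]
  have hlimq : Tendsto (fun x : ℝ => ‖q (1 / 2 + x * I)‖) (𝓝[≠] γ) (𝓝 ‖q s₀‖) :=
    ((hq.continuousAt.tendsto).comp hline).norm
  have hpow : ∀ j : ℕ, j ≠ 0 → Tendsto (fun x : ℝ => |x - γ| ^ j) (𝓝[≠] γ) (𝓝 0) := by
    intro j hj
    have : Continuous (fun x : ℝ => |x - γ| ^ j) := by fun_prop
    have h := (this.tendsto γ).mono_left (nhdsWithin_le_nhds (s := {γ}ᶜ))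
    simpa [hj] using h
  have hq0' : ‖q s₀‖ ≠ 0 := norm_ne_zero_iff.mpr hq0
  have hZm : analyticOrderAt hardyZ γ = m := by
    rcases eq_or_ne (analyticOrderAt hardyZ γ) ⊤ with htop | hfin
    · exfalso
      rw [analyticOrderAt_eq_top] at htop
      have h1 : ∀ᶠ x : ℝ in 𝓝[≠] γ, ‖q (1 / 2 + x * I)‖ = 0 := by
        filter_upwards [habs, htop.filter_mono nhdsWithin_le_nhds, self_mem_nhdsWithin] with x h1 h2 h3
        have h3' : x - γ ≠ 0 := sub_ne_zero.mpr h3
        rw [h2, abs_zero] at h1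
        have h4 : |x - γ| ^ m ≠ 0 := pow_ne_zero _ (abs_pos.mpr h3').ne'
        rcases mul_eq_zero.mp h1.symm with h5 | h5
        · exact absurd h5 h4
        · exact h5
      have h2 : Tendsto (fun x : ℝ => ‖q (1 / 2 + x * I)‖) (𝓝[≠] γ) (𝓝 0) :=
        tendsto_const_nhds.congr' (h1.mono fun x hx => hx.symm)
      exact hq0' (tendsto_nhds_unique hlimq h2)
    · obtain ⟨n, hn⟩ := ENat.ne_top_iff_exists.mp hfin
      obtain ⟨g, hg, hg0, hgeq⟩ := (hZ.analyticOrderAt_eq_natCast).mp hn.symm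
      have hlimg : Tendsto (fun x : ℝ => |g x|) (𝓝[≠] γ) (𝓝 |g γ|) :=
        (hg.continuousAt.tendsto.mono_left nhdsWithin_le_nhds).abs
      have hg0' : |g γ| ≠ 0 := abs_ne_zero.mpr hg0
      have hcomb : ∀ᶠ x : ℝ in 𝓝[≠] γ, |x - γ| ^ n * |g x| = |x - γ| ^ m * ‖q (1 / 2 + x * I)‖ := by
        filter_upwards [habs, hgeq.filter_mono nhdsWithin_le_nhds] with x h1 h2
        rw [← h1, h2, smul_eq_mul, abs_mul, abs_pow]
      rw [← hn]
      rcases lt_trichotomy n m with h | h | h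
      · exfalso
        have h1 : ∀ᶠ x : ℝ in 𝓝[≠] γ, |x - γ| ^ (m - n) * ‖q (1 / 2 + x * I)‖ = |g x| := by
          filter_upwards [hcomb, self_mem_nhdsWithin] with x h1 h3
          have h3' : x - γ ≠ 0 := sub_ne_zero.mpr h3
          have h4 : |x - γ| ^ n ≠ 0 := pow_ne_zero _ (abs_pos.mpr h3').ne'
          apply mul_left_cancel₀ h4
          rw [h1, ← mul_assoc, ← pow_add]
          congr 2
          omega
        have h2 := ((hpow (m - n) (by omega)).mul hlimq).congr' h1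
        rw [zero_mul] at h2
        exact hg0' (tendsto_nhds_unique hlimg h2)
      · rw [h]
      · exfalso
        have h1 : ∀ᶠ x : ℝ in 𝓝[≠] γ, |x - γ| ^ (n - m) * |g x| = ‖q (1 / 2 + x * I)‖ := by
          filter_upwards [hcomb, self_mem_nhdsWithin] with x h1 h3
          have h3' : x - γ ≠ 0 := sub_ne_zero.mpr h3
          have h4 : |x - γ| ^ m ≠ 0 := pow_ne_zero _ (abs_pos.mpr h3').ne'
          apply mul_left_cancel₀ h4
          rw [← h1, ← mul_assoc, ← pow_add]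
          congr 2
          omega
        have h2 := ((hpow (n - m) (by omega)).mul hlimg).congr' h1
        rw [zero_mul] at h2
        exact hq0' (tendsto_nhds_unique hlimq h2)
  rw [hm]
  congr 1
  -- m = zeroMult
  have h1 : ∀ i < m, iteratedDeriv i hardyZ γ = 0 :=
    (natCast_le_analyticOrderAt_iff_iteratedDeriv_eq_zero hZ).mp (by rw [hZm])
  have h2 : iteratedDeriv m hardyZ γ ≠ 0 := by
    intro h0
    have h3 : ((m + 1 : ℕ) : ℕ∞) ≤ analyticOrderAt hardyZ γ := by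
      rw [natCast_le_analyticOrderAt_iff_iteratedDeriv_eq_zero hZ]
      intro i hi
      rcases Nat.lt_succ_iff_lt_or_eq.mp hi with h | h
      · exact h1 i h
      · rw [h]; exact h0
    rw [hZm] at h3
    have : m + 1 ≤ m := by exact_mod_cast h3
    omega
  apply le_antisymm
  · by_contra hcon
    push Not at hcon
    have h3 : iteratedDeriv (zeroMult γ) hardyZ γ ≠ 0 := Nat.sInf_mem (s := {m : ℕ | iteratedDeriv m hardyZ γ ≠ 0}) ⟨m, h2⟩
    exact h3 (h1 _ hcon)
  · exact Nat.sInf_le h2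

end Pool.Agent.Lib.MP_6bc78b_nt.H11
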