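import Mathlib
import Pool.Agent.Lib.MP_6bc78b_nt.H11.Order
import Pool.Agent.Lib.MP_6bc78b_nt.H11.DirB

/-! Removing the leading singular parts at the zeros of high multiplicity. -/

namespace Pool.Agent.Lib.MP_6bc78b_nt.H11

open Complex MeasureTheory Set Filter Topology Metric

/-- the coefficient attached to the point `1/2 + i t`. -/
noncomputable def coefA (k : ℕ) (t : ℝ) : ℂ :=
  (-1) ^ k * ((zeroMult t).descFactorial k : ℂ) / ((1 / 2 + t * I) * (3 / 2 + t * I))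

lemma coefA_eq_zero {k : ℕ} {t : ℝ} (h : zeroMult t < k) : coefA k t = 0 := by
  unfold coefA
  rw [Nat.descFactorial_eq_zero_iff_lt.mpr h]
  simp

lemma zeroMult_eq_zero_of_ne {t : ℝ} (h : riemannZeta (1 / 2 + t * I) ≠ 0) : zeroMult t = 0 := by
  have h1 := (zeta_analytic_crit t).analyticOrderAt_eq_zero.mpr h
  rw [order_eq] at h1
  exact_mod_cast h1

lemma polar_continuousAt {k : ℕ} {c : ℕ → ℂ} (t₀ : ℝ) :
    ContinuousAt (polar k c) (1 / 2 + t₀ * I) := by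
  unfold polar
  have h1 : (1 / 2 + t₀ * I : ℂ) - 1 ≠ 0 := sub_ne_zero.mpr (crit_ne_one t₀)
  have h0 : (1 / 2 + t₀ * I : ℂ) ≠ 0 := crit_ne_zero t₀
  apply ContinuousAt.sub
  · apply tendsto_finsetSum
    intro i _
    exact ContinuousAt.div continuousAt_const (by fun_prop) (pow_ne_zero _ h1)
  · exact ContinuousAt.div continuousAt_const continuousAt_id h0

/-- Behaviour of `W` near a point of the critical line, with the leading part removed. -/
lemma local_bound2 {k : ℕ} (hk : 1 ≤ k) {c : ℕ → ℂ} {W : ℂ → ℂ} (hW : IsW k c W) (t₀ : ℝ) :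
    ∃ C : ℝ, 0 < C ∧ ∀ᶠ s in 𝓝 (1 / 2 + t₀ * I : ℂ), s ∈ OM →
      ‖s - (1 / 2 + t₀ * I)‖ ^ (k - 1) * ‖W s - coefA k t₀ / (s - (1 / 2 + t₀ * I)) ^ k‖ ≤ C := by
  set z₀ : ℂ := 1 / 2 + t₀ * I with hz₀
  have hz1 : z₀ ≠ 1 := crit_ne_one t₀
  have e4 : ∀ᶠ s in 𝓝 z₀, ‖s - z₀‖ ≤ 1 := by
    filter_upwards [closedBall_mem_nhds z₀ one_pos] with s hs
    rwa [mem_closedBall_iff_norm] at hs
  rcases lt_or_ge (zeroMult t₀) k with hlt | hge
  · -- low order
    obtain ⟨C, hC0, hC⟩ := local_bound hW (order_eq t₀)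
    rw [← hz₀] at hC
    refine ⟨C, hC0, ?_⟩
    filter_upwards [hC, e4] with s hs hs4 hsO
    rw [coefA_eq_zero hlt, zero_div, sub_zero]
    refine le_trans (mul_le_mul_of_nonneg_right ?_ (norm_nonneg _)) (hs hsO)
    exact pow_le_pow_of_le_one (norm_nonneg _) hs4 (by omega)
  · obtain ⟨m, q, hm, hq, hq0, hqeq⟩ := zeta_local_struct hz1
    have hmz : m = zeroMult t₀ := by
      rw [order_eq] at hm
      exact_mod_cast hm.symm
    have hkm : k ≤ m := by omega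
    obtain ⟨r, hr, hr0, hrf⟩ := local_deriv hq hqeq k hkm
    have hz00 : z₀ ≠ 0 := crit_ne_zero t₀
    have hz01 : z₀ + 1 ≠ 0 := by
      intro h
      have := congrArg Complex.re h
      rw [hz₀] at this
      simp at this
      norm_num at this
    have hden : q z₀ * (z₀ * (z₀ + 1)) ≠ 0 := mul_ne_zero hq0 (mul_ne_zero hz00 hz01)
    set u : ℂ → ℂ := fun s => (-1) ^ k * r s / (q s * (s * (s + 1))) with hu
    have hua : AnalyticAt ℂ u z₀ := by
      apply AnalyticAt.fun_div (analyticAt_const.fun_mul hr) _ hden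
      exact hq.fun_mul (by fun_prop)
    have hu0 : u z₀ = coefA k t₀ := by
      simp only [hu]
      rw [hr0, hmz]
      unfold coefA
      have e1 : (3 / 2 + t₀ * I : ℂ) = z₀ + 1 := by rw [hz₀]; ring
      rw [e1, ← hz₀]
      field_simp
    obtain ⟨C₁, hC₁⟩ := hua.differentiableAt.isBigO_sub.bound
    have hpolar := polar_continuousAt (k := k) (c := c) t₀
    rw [← hz₀] at hpolar
    set P := ‖polar k c z₀‖ + 1 with hP
    have e2 : ∀ᶠ s in 𝓝 z₀, ‖polar k c s‖ ≤ P := by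
      have := hpolar.norm.eventually (Iio_mem_nhds (show ‖polar k c z₀‖ < P by
        rw [hP]; linarith))
      filter_upwards [this] with s hs
      exact le_of_lt hs
    have e5 : ∀ᶠ s in 𝓝 z₀, s ≠ 1 := isOpen_ne.mem_nhds hz1
    have e6 : ∀ᶠ s in 𝓝 z₀, q s ≠ 0 := hq.continuousAt.eventually_ne hq0
    refine ⟨|C₁| + P, by positivity, ?_⟩
    filter_upwards [hC₁, e2, e4, e5, e6, hqeq, hrf] with s h1 h2 h4 h5 h6 h7 h8 hs
    have hre : 1 / 2 < s.re := hs
    have hsz : s ≠ z₀ := by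
      intro h
      rw [h, hz₀] at hre
      simp at hre
    have hsz' : s - z₀ ≠ 0 := sub_ne_zero.mpr hsz
    have hd : 0 < ‖s - z₀‖ := norm_pos_iff.mpr hsz'
    have hs0 : s ≠ 0 := by
      intro h; rw [h] at hre; simp at hre; linarith
    have hs1 : s + 1 ≠ 0 := by
      intro h
      have := congrArg Complex.re h
      simp at this; linarith
    obtain ⟨n, hn⟩ : ∃ n, m = k + n := ⟨m - k, by omega⟩
    obtain ⟨j, rfl⟩ : ∃ j, k = j + 1 := ⟨k - 1, by omega⟩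
    have hDZ : DZ (j + 1) s = r s / (q s * (s - z₀) ^ (j + 1)) := by
      unfold DZ
      have e : m - (j + 1) = n := by omega
      rw [h8, h7, e, hn, pow_add]
      have := pow_ne_zero n hsz'
      field_simp
    have hWs : W s - coefA (j + 1) t₀ / (s - z₀) ^ (j + 1) =
        (u s - u z₀) / (s - z₀) ^ (j + 1) - polar (j + 1) c s := by
      rw [hW.2 s hs h5, hDZ, hu0, sub_div]
      simp only [hu]
      field_simp
      ring
    rw [hWs]
    simp only [Nat.add_sub_cancel]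
    have hdj : ‖s - z₀‖ ^ j ≤ 1 := pow_le_one₀ hd.le h4
    calc ‖s - z₀‖ ^ j * ‖(u s - u z₀) / (s - z₀) ^ (j + 1) - polar (j + 1) c s‖
        ≤ ‖s - z₀‖ ^ j * (‖(u s - u z₀) / (s - z₀) ^ (j + 1)‖ + ‖polar (j + 1) c s‖) := by
          apply mul_le_mul_of_nonneg_left (norm_sub_le _ _) (by positivity)
      _ = ‖u s - u z₀‖ / ‖s - z₀‖ + ‖s - z₀‖ ^ j * ‖polar (j + 1) c s‖ := by
          rw [norm_div, norm_pow, mul_add]
          congr 1
          field_simp
          ring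
      _ ≤ |C₁| + P := by
          apply add_le_add
          · rw [div_le_iff₀ hd]
            exact h1.trans (mul_le_mul_of_nonneg_right (le_abs_self _) (norm_nonneg _))
          · calc ‖s - z₀‖ ^ j * ‖polar (j + 1) c s‖ ≤ 1 * P :=
                mul_le_mul hdj h2 (norm_nonneg _) zero_le_one
              _ = P := one_mul _

/-- The remainder after subtraction of finitely many leading parts. -/
noncomputable def VF (k : ℕ) (W : ℂ → ℂ) (F : Finset ℝ) (s : ℂ) : ℂ :=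
  W s - ∑ τ ∈ F, coefA k τ / (s - (1 / 2 + τ * I)) ^ k

lemma VF_split {k : ℕ} {W : ℂ → ℂ} {F : Finset ℝ} {t₀ : ℝ}
    (h : t₀ ∈ F ∨ coefA k t₀ = 0) (s : ℂ) :
    VF k W F s = (W s - coefA k t₀ / (s - (1 / 2 + t₀ * I)) ^ k) -
      ∑ τ ∈ F.erase t₀, coefA k τ / (s - (1 / 2 + τ * I)) ^ k := by
  unfold VF
  rcases h with h | h
  · rw [← Finset.add_sum_erase F _ h]
    ring
  · by_cases hF : t₀ ∈ F
    · rw [← Finset.add_sum_erase F _ hF]
      ring
    · rw [h, Finset.erase_eq_of_notMem hF]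
      ring

lemma crit_injective {a b : ℝ} (h : (1 / 2 + a * I : ℂ) = 1 / 2 + b * I) : a = b := by
  have := congrArg Complex.im h
  simpa using this

lemma sum_erase_continuousAt {k : ℕ} (F : Finset ℝ) (t₀ : ℝ) :
    ContinuousAt (fun s : ℂ => ∑ τ ∈ F.erase t₀, coefA k τ / (s - (1 / 2 + τ * I)) ^ k)
      (1 / 2 + t₀ * I) := by
  apply tendsto_finsetSum
  intro τ hτ
  have hne : τ ≠ t₀ := Finset.ne_of_mem_erase hτ
  have h1 : (1 / 2 + t₀ * I : ℂ) - (1 / 2 + τ * I) ≠ 0 := by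
    rw [sub_ne_zero]
    intro h
    exact hne (crit_injective h).symm
  exact ContinuousAt.div continuousAt_const (by fun_prop) (pow_ne_zero _ h1)

lemma VF_diff {k : ℕ} {c : ℕ → ℂ} {W : ℂ → ℂ} (hW : IsW k c W) (F : Finset ℝ) :
    DifferentiableOn ℂ (VF k W F) OM := by
  unfold VF
  apply hW.1.fun_sub
  apply DifferentiableOn.fun_sum
  intro τ _ s hs
  have hre : 1 / 2 < s.re := hs
  have h1 : s - (1 / 2 + τ * I) ≠ 0 := by
    intro h
    have := congrArg Complex.re h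
    simp at this
    linarith
  apply DifferentiableAt.differentiableWithinAt
  exact DifferentiableAt.fun_div (by fun_prop) (by fun_prop) (pow_ne_zero _ h1)

/-- the local bound for `VF`. -/
lemma VF_local {k : ℕ} (hk : 1 ≤ k) {c : ℕ → ℂ} {W : ℂ → ℂ} (hW : IsW k c W) {F : Finset ℝ}
    {t₀ : ℝ} (h : t₀ ∈ F ∨ coefA k t₀ = 0) :
    ∃ C : ℝ, 0 < C ∧ ∀ᶠ s in 𝓝 (1 / 2 + t₀ * I : ℂ), s ∈ OM →
      ‖s - (1 / 2 + t₀ * I)‖ ^ (k - 1) * ‖VF k W F s‖ ≤ C := by
  obtain ⟨C, hC0, hC⟩ := local_bound2 hk hW t₀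
  have hc := (sum_erase_continuousAt (k := k) F t₀).norm
  set S₀ := ‖∑ τ ∈ F.erase t₀, coefA k τ / ((1 / 2 + t₀ * I : ℂ) - (1 / 2 + τ * I)) ^ k‖ with hS₀
  have e2 : ∀ᶠ s in 𝓝 (1 / 2 + t₀ * I : ℂ),
      ‖∑ τ ∈ F.erase t₀, coefA k τ / (s - (1 / 2 + τ * I)) ^ k‖ < S₀ + 1 :=
    hc.eventually (Iio_mem_nhds (by change S₀ < S₀ + 1; linarith))
  have e4 : ∀ᶠ s in 𝓝 (1 / 2 + t₀ * I : ℂ), ‖s - (1 / 2 + t₀ * I)‖ ≤ 1 := by
    filter_upwards [closedBall_mem_nhds (1 / 2 + t₀ * I : ℂ) one_pos] with s hs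
    rwa [mem_closedBall_iff_norm] at hs
  have hS0 : 0 ≤ S₀ := norm_nonneg _
  refine ⟨C + (S₀ + 1), by positivity, ?_⟩
  filter_upwards [hC, e2, e4] with s h1 h2 h4 hs
  rw [VF_split h s]
  have hdj : ‖s - (1 / 2 + t₀ * I)‖ ^ (k - 1) ≤ 1 := pow_le_one₀ (norm_nonneg _) h4
  have hdj0 : 0 ≤ ‖s - (1 / 2 + t₀ * I)‖ ^ (k - 1) := by positivity
  calc ‖s - (1 / 2 + t₀ * I)‖ ^ (k - 1) * ‖(W s - coefA k t₀ / (s - (1 / 2 + t₀ * I)) ^ k) -
      ∑ τ ∈ F.erase t₀, coefA k τ / (s - (1 / 2 + τ * I)) ^ k‖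
      ≤ ‖s - (1 / 2 + t₀ * I)‖ ^ (k - 1) * (‖W s - coefA k t₀ / (s - (1 / 2 + t₀ * I)) ^ k‖ +
        ‖∑ τ ∈ F.erase t₀, coefA k τ / (s - (1 / 2 + τ * I)) ^ k‖) :=
        mul_le_mul_of_nonneg_left (norm_sub_le _ _) hdj0
    _ ≤ C + (S₀ + 1) := by
        rw [mul_add]
        apply add_le_add (h1 hs)
        calc ‖s - (1 / 2 + t₀ * I)‖ ^ (k - 1) *
            ‖∑ τ ∈ F.erase t₀, coefA k τ / (s - (1 / 2 + τ * I)) ^ k‖ ≤ 1 * (S₀ + 1) :=
              mul_le_mul hdj h2.le (norm_nonneg _) zero_le_one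
          _ = S₀ + 1 := one_mul _

/-- Uniform bound on compact sets of the closed half plane. -/
lemma VF_compact {k : ℕ} (hk : 1 ≤ k) {c : ℕ → ℂ} {W : ℂ → ℂ}
    (hW : IsW k c W) {F : Finset ℝ} {N : ℝ}
    (hF : ∀ t : ℝ, |t| ≤ N → t ∈ F ∨ coefA k t = 0) :
    ∃ C : ℝ, 0 < C ∧ ∀ δ : ℝ, 0 < δ → δ ≤ 1 → ∀ t : ℝ, |t| ≤ N →
      δ ^ (k - 1) * ‖VF k W F (1 / 2 + δ + t * I)‖ ≤ C := by
  have hK : IsCompact (Icc (1 / 2 : ℝ) (3 / 2) ×ℂ Icc (-N) N) := by
    exact isCompact_Icc.reProdIm isCompact_Icc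
  have main : ∃ C : ℝ, ∀ s ∈ (Icc (1 / 2 : ℝ) (3 / 2) ×ℂ Icc (-N) N), s ∈ OM →
      (s.re - 1 / 2) ^ (k - 1) * ‖VF k W F s‖ ≤ C := by
    refine hK.induction_on (p := fun S => ∃ C : ℝ, ∀ s ∈ S, s ∈ OM →
      (s.re - 1 / 2) ^ (k - 1) * ‖VF k W F s‖ ≤ C) ?_ ?_ ?_ ?_
    · exact ⟨0, fun s hs => absurd hs (notMem_empty s)⟩
    · rintro S S' hSS ⟨C, hC⟩
      exact ⟨C, fun s hs => hC s (hSS hs)⟩
    · rintro S S' ⟨C, hC⟩ ⟨C', hC'⟩
      refine ⟨max C C', fun s hs hs' => ?_⟩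
      rcases hs with hs | hs
      · exact (hC s hs hs').trans (le_max_left _ _)
      · exact (hC' s hs hs').trans (le_max_right _ _)
    · intro z hz
      rw [mem_reProdIm] at hz
      rcases eq_or_lt_of_le hz.1.1 with hz1 | hz1
      · -- on the critical line
        have hzt : z = 1 / 2 + z.im * I := by
          apply Complex.ext
          · simp; linarith
          · simp
        obtain ⟨C, _, hC⟩ := VF_local hk hW (hF z.im (abs_le.mpr hz.2))
        rw [← hzt] at hC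
        refine ⟨{s | s ∈ OM → ‖s - z‖ ^ (k - 1) * ‖VF k W F s‖ ≤ C},
          mem_nhdsWithin_of_mem_nhds hC, C, ?_⟩
        intro s hs1 hs3
        have hre : 1 / 2 < s.re := hs3
        refine le_trans (mul_le_mul_of_nonneg_right ?_ (norm_nonneg _)) (hs1 hs3)
        have h1 : s.re - 1 / 2 ≤ ‖s - z‖ := by
          have := Complex.re_le_norm (s - z)
          rw [Complex.sub_re, ← hz1] at this
          exact this
        exact pow_le_pow_left₀ (by linarith) h1 _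
      · -- interior
        have hzO : z ∈ OM := hz1
        have hcont : ContinuousAt (fun s => (s.re - 1 / 2) ^ (k - 1) * ‖VF k W F s‖) z := by
          have h1 : ContinuousAt (VF k W F) z :=
            ((VF_diff hW F) z hzO).continuousWithinAt.continuousAt (OM_open.mem_nhds hzO)
          have h2 : ContinuousAt (fun s : ℂ => (s.re - 1 / 2) ^ (k - 1)) z := by fun_prop
          exact h2.mul h1.norm
        have := hcont.eventually (Iio_mem_nhds (show (z.re - 1 / 2) ^ (k - 1) * ‖VF k W F z‖ <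
          (z.re - 1 / 2) ^ (k - 1) * ‖VF k W F z‖ + 1 by linarith))
        refine ⟨_, mem_nhdsWithin_of_mem_nhds this, (z.re - 1 / 2) ^ (k - 1) * ‖VF k W F z‖ + 1, ?_⟩
        intro s hs _
        exact le_of_lt hs
  obtain ⟨C, hC⟩ := main
  refine ⟨|C| + 1, by positivity, ?_⟩
  intro δ hδ hδ1 t ht
  have hre : (1 / 2 + δ + t * I : ℂ).re = 1 / 2 + δ := by simp
  have him : (1 / 2 + δ + t * I : ℂ).im = t := by simp
  have h1 := hC (1 / 2 + δ + t * I) ?_ ?_
  · rw [hre] at h1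
    have e1 : (1 / 2 + δ - 1 / 2 : ℝ) = δ := by ring
    rw [e1] at h1
    exact h1.trans ((le_abs_self C).trans (by linarith))
  · rw [mem_reProdIm, hre, him]
    exact ⟨⟨by linarith, by linarith⟩, abs_le.mp ht⟩
  · show (1 : ℝ) / 2 < (1 / 2 + δ + t * I : ℂ).re
    rw [hre]; linarith

/-- pointwise limit. -/
lemma VF_pointwise {k : ℕ} (hk : 2 ≤ k) {c : ℕ → ℂ} {W : ℂ → ℂ}
    (hW : IsW k c W) {F : Finset ℝ} {t : ℝ} (ht : riemannZeta (1 / 2 + t * I) ≠ 0) (htF : t ∉ F) :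
    Tendsto (fun δ : ℝ => δ ^ (k - 1) * ‖VF k W F (1 / 2 + δ + t * I)‖) (𝓝[>] 0) (𝓝 0) := by
  have h1 := pointwise_limit hk hW ht
  have h2 : Tendsto (fun δ : ℝ => δ ^ (k - 1) *
      ‖∑ τ ∈ F, coefA k τ / ((1 / 2 + δ + t * I : ℂ) - (1 / 2 + τ * I)) ^ k‖) (𝓝[>] 0) (𝓝 0) := by
    have hc := (sum_erase_continuousAt (k := k) F t)
    rw [Finset.erase_eq_of_notMem htF] at hc
    have hlim : Tendsto (fun δ : ℝ => (1 / 2 + δ + t * I : ℂ)) (𝓝[>] 0) (𝓝 (1 / 2 + t * I)) := by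
      have h1 : Continuous (fun δ : ℝ => (1 / 2 + δ + t * I : ℂ)) := by fun_prop
      have h2 := h1.tendsto 0
      simp only [Complex.ofReal_zero, add_zero] at h2
      exact h2.mono_left nhdsWithin_le_nhds
    have h3 : Tendsto (fun δ : ℝ => δ ^ (k - 1)) (𝓝[>] 0) (𝓝 0) := by
      have := (continuous_pow (k - 1)).tendsto (0 : ℝ)
      have e : (0 : ℝ) ^ (k - 1) = 0 := zero_pow (by omega)
      rw [e] at this
      exact this.mono_left nhdsWithin_le_nhds
    have h4 := h3.mul ((hc.tendsto.comp hlim).norm)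
    rw [zero_mul] at h4
    exact h4
  have h3 := h1.add h2
  rw [add_zero] at h3
  refine squeeze_zero' ?_ ?_ h3
  · filter_upwards [self_mem_nhdsWithin] with δ hδ
    have : 0 < δ := hδ
    positivity
  · filter_upwards [self_mem_nhdsWithin] with δ hδ
    have : 0 < δ := hδ
    rw [← mul_add]
    apply mul_le_mul_of_nonneg_left _ (by positivity)
    unfold VF
    exact norm_sub_le _ _

/-- window limit. -/
lemma VF_window {k : ℕ} (hk : 2 ≤ k) {c : ℕ → ℂ} {W : ℂ → ℂ}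
    (hW : IsW k c W) {F : Finset ℝ} {N : ℝ}
    (hF : ∀ t : ℝ, |t| ≤ N → t ∈ F ∨ coefA k t = 0) {a b : ℝ} (ha : |a| ≤ N) (hb : |b| ≤ N) :
    Tendsto (fun δ : ℝ => δ ^ (k - 1) * ∫ t in a..b, ‖VF k W F (1 / 2 + δ + t * I)‖)
      (𝓝[>] 0) (𝓝 0) := by
  obtain ⟨C, hC0, hC⟩ := VF_compact (by omega) hW hF
  have h1 : Tendsto (fun δ : ℝ => ∫ t in a..b, δ ^ (k - 1) * ‖VF k W F (1 / 2 + δ + t * I)‖)
      (𝓝[>] 0) (𝓝 (∫ t in a..b, (0 : ℝ))) := by
    apply intervalIntegral.tendsto_integral_filter_of_dominated_convergence (fun _ => C)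
    · filter_upwards [self_mem_nhdsWithin] with δ hδ
      have hδ' : 0 < δ := hδ
      have hc := continuous_line (VF_diff hW F) (a := 1 / 2 + δ) (by linarith)
      push_cast at hc
      exact (continuous_const.mul hc.norm).aestronglyMeasurable
    · have : Ioc (0 : ℝ) 1 ∈ 𝓝[>] (0 : ℝ) := Ioc_mem_nhdsGT one_pos
      filter_upwards [this] with δ hδ
      refine ae_of_all _ (fun t ht => ?_)
      rw [norm_mul, norm_norm, norm_pow, Real.norm_eq_abs, abs_of_pos hδ.1]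
      apply hC δ hδ.1 hδ.2
      rw [uIoc, mem_Ioc] at ht
      rw [abs_le] at ha hb ⊢
      constructor
      · have h2 : -N ≤ min a b := le_min ha.1 hb.1
        linarith [ht.1]
      · have h2 : max a b ≤ N := max_le ha.2 hb.2
        linarith [ht.2]
    · exact intervalIntegrable_const
    · have hFc : ∀ᵐ t : ℝ, t ∉ F := by
        rw [ae_iff]
        simp only [not_not]
        exact (Finset.finite_toSet F).measure_zero volume
      filter_upwards [ae_zeta_ne_zero, hFc] with t ht htF _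
      exact VF_pointwise hk hW ht htF
  simp only [intervalIntegral.integral_zero, intervalIntegral.integral_const_mul] at h1
  exact h1

end Pool.Agent.Lib.MP_6bc78b_nt.H11
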