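import Mathlib
import Pool.Agent.Lib.MP_6bc78b_nt.H11.ExpLocal

/-! Integrals of the pole terms. -/

namespace Pool.Agent.Lib.MP_6bc78b_nt.H11

open Complex MeasureTheory Set Filter Topology Metric

/-- the Poisson kernel. -/
noncomputable def pk (δ τ t : ℝ) : ℝ := δ / (δ ^ 2 + (t - τ) ^ 2)

lemma pk_nonneg {δ : ℝ} (hδ : 0 < δ) (τ t : ℝ) : 0 ≤ pk δ τ t := by
  unfold pk; positivity

lemma pk_continuous {δ : ℝ} (hδ : 0 < δ) (τ : ℝ) : Continuous (pk δ τ) := by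
  unfold pk
  apply Continuous.div continuous_const (by fun_prop)
  intro t; positivity

lemma pk_eq {δ : ℝ} (hδ : 0 < δ) (τ t : ℝ) :
    pk δ τ t = δ⁻¹ * (1 + (δ⁻¹ * (t - τ)) ^ 2)⁻¹ := by
  unfold pk
  have h1 : 1 + (δ⁻¹ * (t - τ)) ^ 2 = (δ ^ 2 + (t - τ) ^ 2) / δ ^ 2 := by
    field_simp
  rw [h1, inv_div]
  field_simp

lemma pk_integrable {δ : ℝ} (hδ : 0 < δ) (τ : ℝ) : Integrable (pk δ τ) := by
  have h1 : Integrable (fun t : ℝ => (1 + t ^ 2)⁻¹) := integrable_inv_one_add_sq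
  have h2 : Integrable (fun t : ℝ => (1 + (δ⁻¹ * t) ^ 2)⁻¹) := h1.comp_mul_left' (by positivity)
  have h3 : Integrable (fun t : ℝ => (1 + (δ⁻¹ * (t - τ)) ^ 2)⁻¹) := h2.comp_sub_right τ
  refine (h3.const_mul δ⁻¹).congr (ae_of_all _ fun t => ?_)
  exact (pk_eq hδ τ t).symm

lemma pk_integral {δ : ℝ} (hδ : 0 < δ) (τ : ℝ) : ∫ t, pk δ τ t = Real.pi := by
  simp_rw [pk_eq hδ τ]
  rw [integral_const_mul]
  rw [integral_sub_right_eq_self (fun t : ℝ => (1 + (δ⁻¹ * t) ^ 2)⁻¹) τ]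
  rw [Measure.integral_comp_mul_left (fun t : ℝ => (1 + t ^ 2)⁻¹) δ⁻¹]
  rw [integral_univ_inv_one_add_sq, inv_inv, abs_of_pos hδ, smul_eq_mul]
  field_simp

/-- far part of the Poisson integral. -/
lemma pk_far {δ : ℝ} (hδ : 0 < δ) (τ : ℝ) {E : Set ℝ} (hE : MeasurableSet E)
    (hd : ∀ t ∈ E, 1 / 2 ≤ |t - τ|) : ∫ t in E, pk δ τ t ≤ 5 * Real.pi * δ := by
  have h1 : Integrable (fun t : ℝ => (1 + t ^ 2)⁻¹) := integrable_inv_one_add_sq
  have h2 : Integrable (fun t : ℝ => (1 + (t - τ) ^ 2)⁻¹) := h1.comp_sub_right τ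
  have h3 : ∫ t in E, pk δ τ t ≤ ∫ t in E, 5 * δ * (1 + (t - τ) ^ 2)⁻¹ := by
    apply setIntegral_mono_on (pk_integrable hδ τ).integrableOn (h2.const_mul _).integrableOn hE
    intro t ht
    have h4 := hd t ht
    have h5 : 1 / 4 ≤ (t - τ) ^ 2 := by
      rw [← sq_abs]
      nlinarith
    unfold pk
    rw [← div_eq_mul_inv, div_le_div_iff₀ (by positivity) (by positivity)]
    nlinarith [sq_nonneg δ, mul_pos hδ (show (0:ℝ) < 1 by norm_num), mul_nonneg hδ.le (sq_nonneg δ)]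
  have h4 : ∫ t in E, 5 * δ * (1 + (t - τ) ^ 2)⁻¹ ≤ ∫ t : ℝ, 5 * δ * (1 + (t - τ) ^ 2)⁻¹ := by
    apply setIntegral_le_integral (h2.const_mul _)
    exact ae_of_all _ fun t => by positivity
  have h5 : ∫ t : ℝ, 5 * δ * (1 + (t - τ) ^ 2)⁻¹ = 5 * Real.pi * δ := by
    rw [integral_const_mul, integral_sub_right_eq_self (fun t : ℝ => (1 + t ^ 2)⁻¹) τ,
      integral_univ_inv_one_add_sq]
    ring
  linarith

lemma pk_set_le {δ : ℝ} (hδ : 0 < δ) (τ : ℝ) (E : Set ℝ) : ∫ t in E, pk δ τ t ≤ Real.pi := by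
  rw [← pk_integral hδ τ]
  exact setIntegral_le_integral (pk_integrable hδ τ) (ae_of_all _ fun t => pk_nonneg hδ τ t)

lemma pole_norm_sq (δ τ t : ℝ) :
    ‖(1 / 2 + δ + t * I : ℂ) - (1 / 2 + τ * I)‖ ^ 2 = δ ^ 2 + (t - τ) ^ 2 := by
  have := line_norm_sq (δ := δ) (t := t) (ρ := (1 / 2 + τ * I : ℂ)) (by simp)
  simpa using this

lemma pole_norm_le {k : ℕ} (hk : 2 ≤ k) {δ : ℝ} (hδ : 0 < δ) (τ t : ℝ) (a : ℂ) :
    δ ^ (k - 1) * ‖a / ((1 / 2 + δ + t * I : ℂ) - (1 / 2 + τ * I)) ^ k‖ ≤ ‖a‖ * pk δ τ t := by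
  obtain ⟨j, rfl⟩ : ∃ j, k = j + 2 := ⟨k - 2, by omega⟩
  have hsq := pole_norm_sq δ τ t
  set z : ℂ := (1 / 2 + δ + t * I : ℂ) - (1 / 2 + τ * I) with hz
  have hre : z.re = δ := by rw [hz]; simp
  have hzδ : δ ≤ ‖z‖ := by rw [← hre]; exact Complex.re_le_norm z
  have hz0 : 0 < ‖z‖ := by linarith
  have e1 : j + 2 - 1 = j + 1 := by omega
  rw [e1, norm_div, norm_pow]
  unfold pk
  have e2 : δ ^ (j + 1) = δ ^ j * δ := pow_succ _ _
  have e3 : ‖z‖ ^ (j + 2) = ‖z‖ ^ j * ‖z‖ ^ 2 := pow_add _ _ _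
  rw [← hsq, e2, e3]
  have h1 : δ ^ j / ‖z‖ ^ j ≤ 1 := by
    rw [div_le_one (by positivity)]
    exact pow_le_pow_left₀ hδ.le hzδ j
  have h2 : 0 ≤ δ * (‖a‖ / ‖z‖ ^ 2) := by positivity
  calc δ ^ j * δ * (‖a‖ / (‖z‖ ^ j * ‖z‖ ^ 2))
      = (δ ^ j / ‖z‖ ^ j) * (δ * (‖a‖ / ‖z‖ ^ 2)) := by field_simp
    _ ≤ 1 * (δ * (‖a‖ / ‖z‖ ^ 2)) := mul_le_mul_of_nonneg_right h1 h2
    _ = ‖a‖ * (δ / ‖z‖ ^ 2) := by ring

lemma pole_continuous {k : ℕ} {δ : ℝ} (hδ : 0 < δ) (τ : ℝ) (a : ℂ) :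
    Continuous (fun t : ℝ => a / ((1 / 2 + δ + t * I : ℂ) - (1 / 2 + τ * I)) ^ k) := by
  apply Continuous.div continuous_const (by fun_prop)
  intro t
  apply pow_ne_zero
  intro h
  have := congrArg Complex.re h
  simp at this
  linarith

lemma pole_integrable {k : ℕ} (hk : 2 ≤ k) {δ : ℝ} (hδ : 0 < δ) (τ : ℝ) (a : ℂ) :
    Integrable (fun t : ℝ => a / ((1 / 2 + δ + t * I : ℂ) - (1 / 2 + τ * I)) ^ k) := by
  refine Integrable.mono' (((pk_integrable hδ τ).const_mul (‖a‖)).const_mul ((δ ^ (k - 1))⁻¹))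
    (pole_continuous hδ τ a).aestronglyMeasurable (ae_of_all _ fun t => ?_)
  have h1 := pole_norm_le hk hδ τ t a
  have h2 : 0 < δ ^ (k - 1) := by positivity
  rw [← div_eq_inv_mul, le_div_iff₀ h2]
  linarith

lemma pole_set_int {k : ℕ} (hk : 2 ≤ k) {δ : ℝ} (hδ : 0 < δ) (τ : ℝ) (a : ℂ) (E : Set ℝ) :
    δ ^ (k - 1) * ∫ t in E, ‖a / ((1 / 2 + δ + t * I : ℂ) - (1 / 2 + τ * I)) ^ k‖ ≤
      ‖a‖ * ∫ t in E, pk δ τ t := by
  rw [← integral_const_mul, ← integral_const_mul]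
  apply integral_mono
  · exact ((pole_integrable hk hδ τ a).norm.const_mul _).integrableOn
  · exact ((pk_integrable hδ τ).const_mul _).integrableOn
  · intro t
    exact pole_norm_le hk hδ τ t a

/-- tail of `W`. -/
theorem W_tail (hRH : RiemannHypothesis) {k : ℕ} (hk : 2 ≤ k) {c : ℕ → ℂ} {W : ℂ → ℂ}
    (hW : IsW k c W) {ε : ℝ} (hε : 0 < ε) :
    ∃ N₀ : ℕ, ∀ N : ℕ, N₀ ≤ N → ∀ δ : ℝ, 0 < δ → δ ≤ 1 →
      δ ^ (k - 1) * ∫ t in {t : ℝ | (N : ℝ) - 1 / 2 < |t|}, ‖W (1 / 2 + δ + t * I)‖ ≤ ε := by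
  obtain ⟨C₁, hC₁0, hC₁⟩ := W_window hRH hk hW
  set b : ℤ → ℝ := fun n => C₁ * |(n : ℝ)| ^ (-(3 / 2 : ℝ)) with hb
  have hb0 : ∀ n, 0 ≤ b n := fun n => by
    have : 0 ≤ |(n : ℝ)| ^ (-(3 / 2 : ℝ)) := Real.rpow_nonneg (abs_nonneg _) _
    positivity
  have hsum : Summable b := (Real.summable_abs_int_rpow (by norm_num)).mul_left C₁
  have hlim : Tendsto (fun N : ℕ => ∑' n : ℤ, (if |n| < (N : ℤ) then 0 else b n)) atTop (𝓝 (∑' _ : ℤ, (0 : ℝ))) := by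
    apply tendsto_tsum_of_dominated_convergence hsum
    · intro n
      apply tendsto_const_nhds.congr'
      filter_upwards [eventually_gt_atTop (|n|).toNat] with N hN
      have : |n| < (N : ℤ) := by
        have h1 : ((|n|).toNat : ℤ) = |n| := Int.toNat_of_nonneg (abs_nonneg n)
        omega
      rw [if_pos this]
    · filter_upwards with N n
      split_ifs
      · rw [norm_zero]; exact hb0 n
      · rw [Real.norm_eq_abs, abs_of_nonneg (hb0 n)]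
  rw [tsum_zero] at hlim
  obtain ⟨N₀, hN₀⟩ := eventually_atTop.mp (hlim.eventually (Iio_mem_nhds hε))
  refine ⟨max N₀ 4, fun N hN δ hδ hδ1 => ?_⟩
  have hN1 : N₀ ≤ N := le_trans (le_max_left _ _) hN
  have hN4 : 4 ≤ N := le_trans (le_max_right _ _) hN
  have hlt := hN₀ N hN1
  set E : Set ℝ := {t : ℝ | (N : ℝ) - 1 / 2 < |t|} with hE
  have hEm : MeasurableSet E := measurableSet_lt measurable_const (by fun_prop)
  obtain ⟨C, hC0, hC⟩ := W_uniform hRH (by omega) hW hδ hδ1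
  have hint := integrable_line hW.1 (a := 1 / 2 + δ) (C := C) (by linarith)
    (fun t => hC (1 / 2 + δ) ⟨le_rfl, by linarith⟩ t)
  push_cast at hint
  have hint2 : Integrable (E.indicator (fun t : ℝ => ‖W (1 / 2 + δ + t * I)‖)) :=
    hint.norm.indicator hEm
  rw [← integral_indicator hEm, ← (hint2.hasSum_intervalIntegral (-(1 / 2))).tsum_eq, ← tsum_mul_left]
  have hs1 := (hint2.hasSum_intervalIntegral (-(1 / 2))).summable.mul_left (δ ^ (k - 1))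
  have hs2 : Summable (fun n : ℤ => if |n| < (N : ℤ) then 0 else b n) := by
    refine Summable.of_nonneg_of_le ?_ ?_ hsum
    · intro n; split_ifs
      · exact le_rfl
      · exact hb0 n
    · intro n; split_ifs
      · exact hb0 n
      · exact le_rfl
  refine (Summable.tsum_le_tsum ?_ hs1 hs2).trans (le_of_lt hlt)
  intro n
  have e1 : (-(1 / 2 : ℝ) + n) = (n : ℝ) - 1 / 2 := by ring
  have e2 : (-(1 / 2 : ℝ) + n + 1) = (n : ℝ) + 1 / 2 := by ring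
  rw [e2, e1]
  have hle : (n : ℝ) - 1 / 2 ≤ (n : ℝ) + 1 / 2 := by linarith
  split_ifs with hn
  · have h0 : ∫ t in ((n : ℝ) - 1 / 2)..((n : ℝ) + 1 / 2),
        E.indicator (fun t : ℝ => ‖W (1 / 2 + δ + t * I)‖) t = ∫ t in ((n : ℝ) - 1 / 2)..((n : ℝ) + 1 / 2), (0 : ℝ) := by
      apply intervalIntegral.integral_congr
      intro t ht
      rw [uIcc_of_le hle] at ht
      simp only
      rw [indicator_of_notMem]
      intro hmem
      have h1 : (N : ℝ) - 1 / 2 < |t| := hmem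
      have h2 : |n| + 1 ≤ (N : ℤ) := by omega
      have h3 : |(n : ℝ)| + 1 ≤ N := by exact_mod_cast h2
      have h4 : |t| ≤ |(n : ℝ)| + 1 / 2 := by
        have h5 : |t - n| ≤ 1 / 2 := by rw [abs_le]; constructor <;> linarith [ht.1, ht.2]
        calc |t| = |(t - n) + n| := by ring_nf
          _ ≤ |t - n| + |(n : ℝ)| := abs_add_le _ _
          _ ≤ _ := by linarith
      linarith
    rw [h0, intervalIntegral.integral_zero, mul_zero]
  · have h4 : 4 ≤ |(n : ℝ)| := by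
      have h5 : (4 : ℤ) ≤ |n| := by omega
      exact_mod_cast h5
    refine le_trans ?_ (hC₁ δ hδ hδ1 n h4)
    apply mul_le_mul_of_nonneg_left _ (by positivity)
    apply intervalIntegral.integral_mono_on hle hint2.intervalIntegrable hint.norm.intervalIntegrable
    intro t _
    exact indicator_le_self' (fun _ _ => norm_nonneg _) t

end Pool.Agent.Lib.MP_6bc78b_nt.H11
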