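import Mathlib
import Pool.Agent.Lib.MP_6bc78b_nt.H11.ExpPole

/-! Absolute summability of the coefficients. -/

namespace Pool.Agent.Lib.MP_6bc78b_nt.H11

open Complex MeasureTheory Set Filter Topology Metric

lemma coefA_norm_le (k : ℕ) (t : ℝ) (ht : 1 ≤ |t|) :
    ‖coefA k t‖ ≤ (zeroMult t : ℝ) ^ k / |t| ^ 2 := by
  unfold coefA
  rw [norm_div, norm_mul, norm_pow, norm_neg, norm_one, one_pow, one_mul, norm_mul,
    Complex.norm_natCast]
  have h0 : 0 < |t| := by linarith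
  apply div_le_div₀ (by positivity)
  · exact_mod_cast Nat.descFactorial_le_pow _ _
  · positivity
  · rw [sq]
    apply mul_le_mul _ _ h0.le (norm_nonneg _)
    · have := Complex.abs_im_le_norm (1 / 2 + t * I : ℂ)
      simpa using this
    · have := Complex.abs_im_le_norm (3 / 2 + t * I : ℂ)
      simpa using this

lemma sum_pow_le_pow_sum (S : Finset ℝ) (f : ℝ → ℝ) (hf : ∀ x, 0 ≤ f x) {k : ℕ} (hk : 1 ≤ k) :
    ∑ x ∈ S, f x ^ k ≤ (∑ x ∈ S, f x) ^ k := by
  induction S using Finset.induction_on with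
  | empty =>
    simp
  | insert a S ha ih =>
    rw [Finset.sum_insert ha, Finset.sum_insert ha]
    have h1 : 0 ≤ ∑ x ∈ S, f x := Finset.sum_nonneg fun x _ => hf x
    have h2 : f a ^ k + (∑ x ∈ S, f x) ^ k ≤ (f a + ∑ x ∈ S, f x) ^ k := by
      obtain ⟨j, rfl⟩ : ∃ j, k = j + 1 := ⟨k - 1, by omega⟩
      have h3 : f a ^ j ≤ (f a + ∑ x ∈ S, f x) ^ j := pow_le_pow_left₀ (hf a) (by linarith) j
      have h4 : (∑ x ∈ S, f x) ^ j ≤ (f a + ∑ x ∈ S, f x) ^ j :=
        pow_le_pow_left₀ h1 (by linarith [hf a]) j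
      have h5 := mul_le_mul_of_nonneg_right h3 (hf a)
      have h6 := mul_le_mul_of_nonneg_right h4 h1
      calc f a ^ (j + 1) + (∑ x ∈ S, f x) ^ (j + 1)
          = f a ^ j * f a + (∑ x ∈ S, f x) ^ j * (∑ x ∈ S, f x) := by rw [pow_succ, pow_succ]
        _ ≤ (f a + ∑ x ∈ S, f x) ^ j * f a + (f a + ∑ x ∈ S, f x) ^ j * (∑ x ∈ S, f x) :=
          add_le_add h5 h6
        _ = (f a + ∑ x ∈ S, f x) ^ (j + 1) := by rw [pow_succ]; ring
    linarith

/-- the window bound for multiplicities. -/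
lemma mult_window : ∃ T : ℝ, 4 ≤ T ∧ ∀ n : ℝ, T ≤ |n| → ∀ S : Finset ℝ, (∀ γ ∈ S, |γ - n| ≤ 1 / 2) →
    ∑ γ ∈ S, (zeroMult γ : ℝ) ≤ Real.cosh (Real.pi / 2) * Real.log |n| := by
  obtain ⟨T, hT⟩ := zeta_sech_bound (1 / 2) (by norm_num)
  refine ⟨max T 4, le_max_right _ _, fun n hn S hS => ?_⟩
  have hnT : T ≤ |n| := le_trans (le_max_left _ _) hn
  have hn4 : 4 ≤ |n| := le_trans (le_max_right _ _) hn
  have h1 := hT n hnT S zeroMult (fun γ _ => zeroMult_le γ)
  have hlog : 0 ≤ Real.log |n| := Real.log_nonneg (by linarith)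
  have hc : 0 < Real.cosh (Real.pi / 2) := Real.cosh_pos _
  have h2 : ∑ γ ∈ S, (zeroMult γ : ℝ) ≤ Real.cosh (Real.pi / 2) *
      ∑ γ ∈ S, (zeroMult γ : ℝ) / Real.cosh (Real.pi * (n - γ)) := by
    rw [Finset.mul_sum]
    apply Finset.sum_le_sum
    intro γ hγ
    have h3 : Real.cosh (Real.pi * (n - γ)) ≤ Real.cosh (Real.pi / 2) := by
      rw [Real.cosh_le_cosh, abs_mul, abs_of_pos Real.pi_pos, abs_of_pos (by positivity : 0 < Real.pi / 2),
        abs_sub_comm]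
      have := hS γ hγ
      have := Real.pi_pos
      nlinarith
    have h4 : 0 < Real.cosh (Real.pi * (n - γ)) := Real.cosh_pos _
    rw [← mul_div_assoc, le_div_iff₀ h4, mul_comm]
    exact mul_le_mul_of_nonneg_right h3 (Nat.cast_nonneg _)
  have h3 : (1 / (2 * Real.pi) + 1 / 2) ≤ 1 := by
    have := Real.pi_gt_three
    have h4 : 1 / (2 * Real.pi) ≤ 1 / 6 := one_div_le_one_div_of_le (by norm_num) (by linarith)
    linarith
  refine h2.trans (mul_le_mul_of_nonneg_left ?_ hc.le)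
  refine h1.trans ?_
  nlinarith

lemma zeros_in_compact_finite (M : ℝ) :
    {t : ℝ | |t| ≤ M ∧ riemannZeta (1 / 2 + t * I) = 0}.Finite := by
  have h1 := (isCompact_closedBall (0 : ℂ) (1 / 2 + M)).inter_riemannZetaZeros_finite
  have hinj : Function.Injective (fun t : ℝ => (1 / 2 + t * I : ℂ)) := fun a b h => crit_injective h
  refine (h1.preimage hinj.injOn).subset ?_
  rintro t ⟨ht1, ht2⟩
  refine ⟨?_, ?_⟩
  · rw [mem_closedBall_zero_iff]
    calc ‖(1 / 2 + t * I : ℂ)‖ ≤ ‖(1 / 2 : ℂ)‖ + ‖(t * I : ℂ)‖ := norm_add_le _ _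
      _ ≤ 1 / 2 + M := by
        rw [norm_mul, Complex.norm_I, mul_one, Complex.norm_real, Real.norm_eq_abs]
        have : ‖(1 / 2 : ℂ)‖ = 1 / 2 := by norm_num
        rw [this]; linarith
  · rw [mem_riemannZetaZeros]
    exact ht2

lemma coefA_zero_of_ne {k : ℕ} (hk : 1 ≤ k) {t : ℝ} (h : riemannZeta (1 / 2 + t * I) ≠ 0) :
    coefA k t = 0 := by
  apply coefA_eq_zero
  rw [zeroMult_eq_zero_of_ne h]
  omega

theorem coefA_summable {k : ℕ} (hk : 1 ≤ k) : Summable (fun t : ℝ => ‖coefA k t‖) := by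
  obtain ⟨T, hT4, hT⟩ := mult_window
  obtain ⟨C₀, hC₀, hlog⟩ := log_pow_le k
  set K := Real.cosh (Real.pi / 2) with hK
  have hK0 : 0 < K := Real.cosh_pos _
  set b : ℤ → ℝ := fun n => (4 * K ^ k * C₀) * |(n : ℝ)| ^ (-(3 / 2 : ℝ)) with hb
  have hb0 : ∀ n, 0 ≤ b n := fun n => by
    have : 0 ≤ |(n : ℝ)| ^ (-(3 / 2 : ℝ)) := Real.rpow_nonneg (abs_nonneg _) _
    positivity
  have hbs : Summable b := (Real.summable_abs_int_rpow (by norm_num)).mul_left _
  set M := T + 1 with hM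
  set Z := (zeros_in_compact_finite M).toFinset with hZ
  apply summable_of_sum_le (c := (∑ γ ∈ Z, ‖coefA k γ‖) + ∑' n, b n) (fun t => norm_nonneg _)
  intro S
  classical
  rw [← Finset.sum_filter_add_sum_filter_not S (fun γ => |γ| ≤ M)]
  apply add_le_add
  · -- small part
    have h1 : ∑ γ ∈ S.filter (fun γ => |γ| ≤ M), ‖coefA k γ‖ =
        ∑ γ ∈ (S.filter (fun γ => |γ| ≤ M)).filter (fun γ : ℝ => riemannZeta (1 / 2 + γ * I) = 0),
          ‖coefA k γ‖ := by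
      symm
      apply Finset.sum_subset (Finset.filter_subset _ _)
      intro γ hγ hγ2
      rw [Finset.mem_filter, not_and] at hγ2
      have h2 := hγ2 hγ
      rw [coefA_zero_of_ne hk h2, norm_zero]
    rw [h1]
    apply Finset.sum_le_sum_of_subset_of_nonneg
    · intro γ hγ
      rw [Finset.mem_filter, Finset.mem_filter] at hγ
      rw [hZ, Set.Finite.mem_toFinset]
      exact ⟨hγ.1.2, hγ.2⟩
    · intro γ _ _
      exact norm_nonneg _
  · -- large part
    set S' := S.filter (fun γ => ¬ |γ| ≤ M) with hS'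
    rw [← Finset.sum_fiberwise_of_maps_to (t := S'.image round) (g := round)
      (fun x hx => Finset.mem_image_of_mem _ hx)]
    refine le_trans (Finset.sum_le_sum (g := b) ?_) (hbs.sum_le_tsum _ (fun n _ => hb0 n))
    intro n hn
    rw [Finset.mem_image] at hn
    obtain ⟨γ₀, hγ₀, hγ₀n⟩ := hn
    rw [hS', Finset.mem_filter, not_le] at hγ₀
    have hr0 : |γ₀ - n| ≤ 1 / 2 := by rw [← hγ₀n]; exact abs_sub_round γ₀
    have hnT : T ≤ |(n : ℝ)| := by
      have h1 : |γ₀| ≤ |γ₀ - n| + |(n : ℝ)| := by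
        calc |γ₀| = |(γ₀ - n) + n| := by ring_nf
          _ ≤ _ := abs_add_le _ _
      have h2 := hγ₀.2
      rw [hM] at h2
      linarith
    have hn0 : 0 < |(n : ℝ)| := by linarith
    set S'' := S'.filter (fun γ => round γ = n) with hS''
    have hwin : ∀ γ ∈ S'', |γ - n| ≤ 1 / 2 := by
      intro γ hγ
      rw [hS'', Finset.mem_filter] at hγ
      rw [← hγ.2]; exact abs_sub_round γ
    have hm := hT n hnT S'' hwin
    have h1 : ∑ γ ∈ S'', ‖coefA k γ‖ ≤ ∑ γ ∈ S'', (4 / |(n : ℝ)| ^ 2) * (zeroMult γ : ℝ) ^ k := by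
      apply Finset.sum_le_sum
      intro γ hγ
      have h2 := hwin γ hγ
      have h3 : |(n : ℝ)| / 2 ≤ |γ| := by
        have h4 : |(n : ℝ)| ≤ |γ - n| + |γ| := by
          calc |(n : ℝ)| = |-(γ - n) + γ| := by ring_nf
            _ ≤ |-(γ - n)| + |γ| := abs_add_le _ _
            _ = _ := by rw [abs_neg]
        linarith
      have h5 : 0 < |γ| := by linarith
      refine (coefA_norm_le k γ (by linarith)).trans ?_
      rw [div_eq_mul_inv, mul_comm]
      apply mul_le_mul_of_nonneg_right _ (by positivity)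
      rw [← one_div, div_le_div_iff₀ (by positivity) (by positivity)]
      have h6 : (|(n : ℝ)| / 2) ^ 2 ≤ |γ| ^ 2 := pow_le_pow_left₀ (by positivity) h3 2
      nlinarith
    refine h1.trans ?_
    rw [← Finset.mul_sum]
    have h2 := sum_pow_le_pow_sum S'' (fun γ => (zeroMult γ : ℝ)) (fun γ => Nat.cast_nonneg _) hk
    have h0 : 0 ≤ ∑ γ ∈ S'', (zeroMult γ : ℝ) := Finset.sum_nonneg fun _ _ => Nat.cast_nonneg _
    have h3 : (∑ γ ∈ S'', (zeroMult γ : ℝ)) ^ k ≤ (K * Real.log |(n : ℝ)|) ^ k :=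
      pow_le_pow_left₀ h0 hm k
    have h4 := hlog |(n : ℝ)| (by linarith)
    have h5 : |(n : ℝ)| ^ (1 / 2 : ℝ) / |(n : ℝ)| ^ 2 = |(n : ℝ)| ^ (-(3 / 2 : ℝ)) := by
      rw [← Real.rpow_natCast, ← Real.rpow_sub hn0]
      congr 1; norm_num
    calc 4 / |(n : ℝ)| ^ 2 * ∑ γ ∈ S'', (zeroMult γ : ℝ) ^ k
        ≤ 4 / |(n : ℝ)| ^ 2 * (K ^ k * (C₀ * |(n : ℝ)| ^ (1 / 2 : ℝ))) := by
          apply mul_le_mul_of_nonneg_left _ (by positivity)
          refine (h2.trans h3).trans ?_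
          rw [mul_pow]
          exact mul_le_mul_of_nonneg_left h4 (by positivity)
      _ = (4 * K ^ k * C₀) * (|(n : ℝ)| ^ (1 / 2 : ℝ) / |(n : ℝ)| ^ 2) := by ring
      _ = b n := by rw [h5]

end Pool.Agent.Lib.MP_6bc78b_nt.H11
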