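import Mathlib
import Pool.Agent.Lib.MP_6bc78b_nt.ZetaBounds
import Pool.Agent.Lib.MP_6bc78b_nt.H11.ZetaLocal

/-! In a zero-free region, `log ζ` is small: Borel-Caratheodory and the three circles theorem. -/

namespace Pool.Agent.Lib.MP_6bc78b_nt.H11

open Complex MeasureTheory Set Filter Topology Metric

lemma log_branch {h : ℂ → ℂ} {c : ℂ} {r : ℝ} (hr : 0 < r) (hh : DifferentiableOn ℂ h (ball c r))
    (hne : ∀ z ∈ ball c r, h z ≠ 0) :
    ∃ g : ℂ → ℂ, DifferentiableOn ℂ g (ball c r) ∧ g c = 0 ∧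
      ∀ z ∈ ball c r, h z = h c * Complex.exp (g z) := by
  have hcb : c ∈ ball c r := mem_ball_self hr
  have hdlog : DifferentiableOn ℂ (fun z => deriv h z / h z) (ball c r) :=
    (hh.deriv isOpen_ball).div hh hne
  obtain ⟨g, hg0, hg⟩ := (hdlog.isExactOn_ball).with_val_at c 0
  refine ⟨g, fun z hz => (hg z hz).differentiableAt.differentiableWithinAt, hg0, ?_⟩
  have hconst : ∀ z ∈ ball c r, h z * Complex.exp (-g z) = h c * Complex.exp (-g c) := by
    intro z hz
    have hd : ∀ x ∈ ball c r, HasDerivAt (fun z => h z * Complex.exp (-g z)) 0 x := by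
      intro x hx
      have h1 : HasDerivAt h (deriv h x) x :=
        ((hh x hx).differentiableAt (isOpen_ball.mem_nhds hx)).hasDerivAt
      have h2 := (hg x hx).neg.cexp
      have h3 := h1.mul h2
      have h4 : deriv h x * Complex.exp (-g x) +
          h x * (Complex.exp (-g x) * -(deriv h x / h x)) = 0 := by
        have := hne x hx
        field_simp
        ring
      have h3' : HasDerivAt (fun z => h z * Complex.exp (-g z)) 0 x := by
        rw [← h4]; exact h3
      exact h3'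
    exact isOpen_ball.is_const_of_deriv_eq_zero (convex_ball c r).isPreconnected
      (fun x hx => (hd x hx).differentiableAt.differentiableWithinAt)
      (fun x hx => (hd x hx).deriv) hz hcb
  intro z hz
  have h1 := hconst z hz
  rw [hg0, neg_zero, Complex.exp_zero, mul_one] at h1
  rw [← h1, mul_assoc, ← Complex.exp_add]
  simp

lemma bc_ball {g : ℂ → ℂ} {c : ℂ} {r L : ℝ} (hr : 0 < r) (hL : 0 < L)
    (hgd : DifferentiableOn ℂ g (ball c r)) (hg0 : g c = 0)
    (hre : ∀ z ∈ ball c r, (g z).re ≤ L) :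
    ∀ z ∈ ball c r, ‖g z‖ ≤ 2 * L * ‖z - c‖ / (r - ‖z - c‖) := by
  intro z hz
  have hz' : ‖z - c‖ < r := by rwa [mem_ball_iff_norm] at hz
  have hmaps : ∀ w ∈ ball (0 : ℂ) r, w + c ∈ ball c r := by
    intro w hw
    rw [mem_ball_iff_norm]
    simpa using hw
  have := Complex.borelCaratheodory_zero (f := fun w => g (w + c)) (M := L) (R := r)
    (z := z - c) hL ?_ ?_ hr ?_ ?_
  · simpa using this
  · intro w hw
    have h1 := (hgd (w + c) (hmaps w hw)).differentiableAt (isOpen_ball.mem_nhds (hmaps w hw))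
    have h2 : DifferentiableAt ℂ (fun w => w + c) w := by fun_prop
    exact (DifferentiableAt.comp w h1 h2).differentiableWithinAt
  · intro w hw
    exact hre _ (hmaps w hw)
  · simpa using hz'
  · simpa using hg0

/-- three circles, with inner radius `1`. -/
lemma three_circles {g : ℂ → ℂ} {c : ℂ} {r r₃ A B : ℝ} (hr3 : 1 < r₃) (hr : r₃ < r)
    (hgd : DifferentiableOn ℂ g (ball c r)) (hA : ∀ z, ‖z - c‖ = 1 → ‖g z‖ ≤ A)
    (hB : ∀ z ∈ closedBall c r₃, ‖g z‖ ≤ B) {z : ℂ} (hz1 : 1 ≤ ‖z - c‖) (hz3 : ‖z - c‖ ≤ r₃) :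
    ‖g z‖ ≤ A ^ (1 - Real.log ‖z - c‖ / Real.log r₃) * B ^ (Real.log ‖z - c‖ / Real.log r₃) := by
  set G : ℂ → ℂ := fun w => g (c + Complex.exp w) with hG
  have hlog3 : 0 < Real.log r₃ := Real.log_pos hr3
  have hzc : z - c ≠ 0 := by
    intro h; rw [h, norm_zero] at hz1; linarith
  set w₀ := Complex.log (z - c) with hw₀
  have hw₀re : w₀.re = Real.log ‖z - c‖ := Complex.log_re _
  have hGw : G w₀ = g z := by
    simp only [hG, hw₀, Complex.exp_log hzc]
    congr 1; ring
  have hmem : ∀ w : ℂ, w.re ≤ Real.log r₃ → c + Complex.exp w ∈ closedBall c r₃ := by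
    intro w hw
    rw [mem_closedBall_iff_norm, add_sub_cancel_left, Complex.norm_exp]
    rw [← Real.exp_log (show 0 < r₃ by linarith)]
    exact Real.exp_le_exp.mpr hw
  have hsub : closedBall c r₃ ⊆ ball c r := closedBall_subset_ball hr
  have hcl : closure (Complex.HadamardThreeLines.verticalStrip 0 (Real.log r₃)) =
      Complex.HadamardThreeLines.verticalClosedStrip 0 (Real.log r₃) := by
    rw [Complex.HadamardThreeLines.verticalStrip, Complex.HadamardThreeLines.verticalClosedStrip,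
      Complex.closure_preimage_re, closure_Ioo hlog3.ne]
  have hd : DiffContOnCl ℂ G (Complex.HadamardThreeLines.verticalStrip 0 (Real.log r₃)) := by
    apply DifferentiableOn.diffContOnCl
    rw [hcl]
    intro w hw
    have hw' : w.re ≤ Real.log r₃ := hw.2
    have h1 := hsub (hmem w hw')
    have h2 := (hgd _ h1).differentiableAt (isOpen_ball.mem_nhds h1)
    have h3 : DifferentiableAt ℂ (fun w => c + Complex.exp w) w := by fun_prop
    exact (DifferentiableAt.comp w h2 h3).differentiableWithinAt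
  have hB' : BddAbove ((norm ∘ G) '' (Complex.HadamardThreeLines.verticalClosedStrip 0 (Real.log r₃))) := by
    refine ⟨B, ?_⟩
    rintro _ ⟨w, hw, rfl⟩
    exact hB _ (hmem w hw.2)
  have key := Complex.HadamardThreeLines.norm_le_interp_of_mem_verticalClosedStrip' (f := G) (z := w₀)
    (a := A) (b := B) hlog3 ?_ hd hB' ?_ ?_
  · rw [hGw, hw₀re, sub_zero, sub_zero] at key
    exact key
  · constructor
    · show 0 ≤ w₀.re
      rw [hw₀re]; exact Real.log_nonneg hz1
    · show w₀.re ≤ Real.log r₃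
      rw [hw₀re]; exact Real.log_le_log (by linarith) hz3
  · intro w hw
    have hw' : w.re = 0 := hw
    apply hA
    rw [add_sub_cancel_left, Complex.norm_exp, hw', Real.exp_zero]
  · intro w hw
    have hw' : w.re = Real.log r₃ := hw
    exact hB _ (hmem w hw'.le)

lemma zeta_bounded_right : ∃ M : ℝ, 1 ≤ M ∧ ∀ s : ℂ, 3 / 2 ≤ s.re → ‖riemannZeta s‖ ≤ M := by
  have hs1 : LSeriesSummable (1 : ℕ → ℂ) ((3 / 2 : ℝ) : ℂ) := by
    rw [LSeriesSummable_one_iff]; simp; norm_num
  set M := ∑' n, ‖LSeries.term (1 : ℕ → ℂ) ((3 / 2 : ℝ) : ℂ) n‖ with hM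
  have hsumm : Summable fun n => ‖LSeries.term (1 : ℕ → ℂ) ((3 / 2 : ℝ) : ℂ) n‖ := hs1.norm
  refine ⟨max M 1, le_max_right _ _, fun s hs => ?_⟩
  have hs' : 1 < s.re := by linarith
  rw [← LSeries_one_eq_riemannZeta hs']
  refine le_trans ?_ (le_max_left _ _)
  rw [LSeries]
  refine tsum_of_norm_bounded hsumm.hasSum ?_
  intro n
  rcases Nat.eq_zero_or_pos n with rfl | hn
  · simp
  · rw [LSeries.norm_term_eq, LSeries.norm_term_eq, if_neg hn.ne', if_neg hn.ne']
    have hn1 : (1 : ℝ) ≤ n := by exact_mod_cast hn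
    apply div_le_div_of_nonneg_left (norm_nonneg _)
    · positivity
    · rw [Complex.ofReal_re]
      exact Real.rpow_le_rpow_of_exponent_le hn1 hs

theorem log_zeta_small {σ₀ δ ε : ℝ} (h1 : 1 / 2 ≤ σ₀) (h2 : σ₀ ≤ 1) (hδ : 0 < δ) (hδ' : δ ≤ 1 / 2)
    (hε : 0 < ε) :
    ∃ T : ℝ, 10 ≤ T ∧ ∀ v : ℝ, T ≤ |v| →
      (∀ z : ℂ, |z.im - v| < 5 / 2 → σ₀ < z.re → riemannZeta z ≠ 0) →
      ∀ s : ℂ, s.im = v → σ₀ + δ ≤ s.re → s.re ≤ 3 →
        Real.exp (-(ε * Real.log |v|)) ≤ ‖riemannZeta s‖ ∧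
          ‖riemannZeta s‖ ≤ Real.exp (ε * Real.log |v|) := by
  obtain ⟨M₀, hM₀, hM⟩ := zeta_bounded_right
  set r : ℝ := 3 - σ₀ with hr
  set r₂ : ℝ := r - δ with hr₂
  set r₃ : ℝ := r - δ / 2 with hr₃
  have hr2' : 1 < r₂ := by rw [hr₂, hr]; linarith
  have hr23 : r₂ < r₃ := by rw [hr₂, hr₃]; linarith
  have hr3' : 1 < r₃ := by linarith
  have hr3r : r₃ < r := by rw [hr₃]; linarith
  have hr0 : 0 < r := by linarith
  have hr52 : r ≤ 5 / 2 := by rw [hr]; linarith
  set κ : ℝ := Real.log r₂ / Real.log r₃ with hκ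
  have hl2 : 0 < Real.log r₂ := Real.log_pos hr2'
  have hl3 : 0 < Real.log r₃ := Real.log_pos hr3'
  have hκ0 : 0 < κ := div_pos hl2 hl3
  have hκ1 : κ < 1 := by
    rw [hκ, div_lt_one hl3]
    exact Real.log_lt_log (by linarith) hr23
  set C₁ : ℝ := Real.log (3 * M₀) with hC₁
  have hC₁0 : 0 < C₁ := Real.log_pos (by linarith)
  set C₂ : ℝ := max (4 * C₁) 1 with hC₂
  have hC₂1 : 1 ≤ C₂ := le_max_right _ _
  -- asymptotics
  have hasym : ∀ᶠ u : ℝ in atTop, C₁ + C₂ * ((20 / δ) ^ κ * u ^ κ) ≤ ε * u := by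
    have e1 : Tendsto (fun u : ℝ => u ^ (κ - 1)) atTop (𝓝 0) := by
      have := tendsto_rpow_neg_atTop (show 0 < 1 - κ by linarith)
      simpa using this
    have e2 : Tendsto (fun u : ℝ => C₁ * u⁻¹ + C₂ * ((20 / δ) ^ κ * u ^ (κ - 1))) atTop (𝓝 0) := by
      have h3 := (tendsto_inv_atTop_zero (𝕜 := ℝ)).const_mul C₁
      have h4 := (e1.const_mul ((20 / δ) ^ κ)).const_mul C₂
      have h5 := h3.add h4
      simpa using h5
    filter_upwards [e2.eventually (Iio_mem_nhds hε), eventually_gt_atTop (0 : ℝ)] with u hu hu0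
    have hu' : C₁ * u⁻¹ + C₂ * ((20 / δ) ^ κ * u ^ (κ - 1)) < ε := hu
    have h5 := mul_le_mul_of_nonneg_right hu'.le hu0.le
    have h6 : u ^ (κ - 1) * u = u ^ κ := by
      rw [← Real.rpow_add_one hu0.ne']
      congr 1; ring
    calc C₁ + C₂ * ((20 / δ) ^ κ * u ^ κ)
        = (C₁ * u⁻¹ + C₂ * ((20 / δ) ^ κ * u ^ (κ - 1))) * u := by
          rw [← h6]; field_simp
      _ ≤ ε * u := h5
  obtain ⟨U, hU⟩ := eventually_atTop.mp hasym
  refine ⟨max (Real.exp (max U (Real.log 60))) 10, le_max_right _ _, ?_⟩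
  intro v hv hzf s hsim hsre hsre3
  have hv10 : 10 ≤ |v| := le_trans (le_max_right _ _) hv
  have hv0 : 0 < |v| := by linarith
  have hvU : max U (Real.log 60) ≤ Real.log |v| := by
    have h3 : Real.exp (max U (Real.log 60)) ≤ |v| := le_trans (le_max_left _ _) hv
    rwa [Real.le_log_iff_exp_le hv0]
  have hvU1 : U ≤ Real.log |v| := le_trans (le_max_left _ _) hvU
  have hv60 : Real.log 60 ≤ Real.log |v| := le_trans (le_max_right _ _) hvU
  have hlv : 1 ≤ Real.log |v| := by
    refine le_trans ?_ hv60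
    rw [Real.le_log_iff_exp_le (by norm_num)]
    have := Real.exp_one_lt_d9
    linarith
  set c : ℂ := 3 + v * I with hc
  have hcre : c.re = 3 := by rw [hc]; simp
  have hcim : c.im = v := by rw [hc]; simp
  -- geometry
  have hgeo : ∀ z ∈ ball c r, σ₀ < z.re ∧ |z.im - v| < 5 / 2 := by
    intro z hz
    rw [mem_ball_iff_norm] at hz
    have e1 := (Complex.abs_re_le_norm (z - c)).trans_lt hz
    have e2 := (Complex.abs_im_le_norm (z - c)).trans_lt hz
    rw [Complex.sub_re, hcre] at e1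
    rw [Complex.sub_im, hcim] at e2
    constructor
    · have := (abs_lt.mp e1).1
      rw [hr] at this; linarith
    · linarith
  have himne : ∀ z : ℂ, |z.im - v| < 5 / 2 → 1 ≤ |z.im| ∧ |z.im| ≤ |v| + 5 / 2 := by
    intro z hz
    have e1 : |v| ≤ |v - z.im| + |z.im| := by
      calc |v| = |(v - z.im) + z.im| := by ring_nf
        _ ≤ _ := abs_add_le _ _
    have e2 : |z.im| ≤ |z.im - v| + |v| := by
      calc |z.im| = |(z.im - v) + v| := by ring_nf
        _ ≤ _ := abs_add_le _ _
    rw [abs_sub_comm] at e1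
    constructor <;> linarith
  have hne1 : ∀ z ∈ ball c r, z ≠ 1 := by
    intro z hz h
    have := (himne z (hgeo z hz).2).1
    rw [h] at this
    simp at this
    linarith
  have hzd : DifferentiableOn ℂ riemannZeta (ball c r) := fun z hz =>
    (differentiableAt_riemannZeta (hne1 z hz)).differentiableWithinAt
  obtain ⟨g, hgd, hg0, hgexp⟩ := log_branch hr0 hzd
    (fun z hz => hzf z (hgeo z hz).2 (hgeo z hz).1)
  have hzc : (1 : ℝ) / 3 ≤ ‖riemannZeta c‖ := norm_zeta_three v
  have hzc0 : 0 < ‖riemannZeta c‖ := by linarith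
  have hzcM : ‖riemannZeta c‖ ≤ M₀ := hM c (by rw [hcre]; norm_num)
  have hreg : ∀ z ∈ ball c r, ∀ K : ℝ, 0 < K → ‖riemannZeta z‖ ≤ K → (g z).re ≤ Real.log (3 * K) := by
    intro z hz K hK hzK
    have e1 := congrArg norm (hgexp z hz)
    rw [norm_mul, Complex.norm_exp] at e1
    have e2 : 1 / 3 * Real.exp (g z).re ≤ K := by
      calc 1 / 3 * Real.exp (g z).re ≤ ‖riemannZeta c‖ * Real.exp (g z).re :=
            mul_le_mul_of_nonneg_right hzc (Real.exp_pos _).le
        _ = ‖riemannZeta z‖ := e1.symm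
        _ ≤ K := hzK
    rw [Real.le_log_iff_exp_le (by positivity)]
    linarith
  -- outer bound
  set L : ℝ := 2 * Real.log |v| with hL
  have hL0 : 0 < L := by rw [hL]; linarith
  have hreL : ∀ z ∈ ball c r, (g z).re ≤ L := by
    intro z hz
    obtain ⟨e1, e2⟩ := hgeo z hz
    obtain ⟨e3, e4⟩ := himne z e2
    have hz1 := hne1 z hz
    have e5 := zeta_growth (s := z) (by linarith) hz1
    have hzre : |z.re| ≤ 11 / 2 := by
      rw [mem_ball_iff_norm] at hz
      have e6 := (Complex.abs_re_le_norm (z - c)).trans_lt hz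
      rw [Complex.sub_re, hcre] at e6
      rw [abs_le]
      constructor
      · linarith
      · have := (abs_lt.mp e6).2; linarith
    have e6 : ‖z‖ ≤ |v| + 8 := by
      have := Complex.norm_le_abs_re_add_abs_im z
      linarith
    have e7 : 1 ≤ ‖z - 1‖ := by
      have := Complex.abs_im_le_norm (z - 1)
      rw [Complex.sub_im, Complex.one_im, sub_zero] at this
      linarith
    have e8 : ‖z‖ / ‖z - 1‖ ≤ ‖z‖ := div_le_self (norm_nonneg _) e7
    have e9 : ‖riemannZeta z‖ ≤ 20 * |v| := by linarith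
    have e10 := hreg z hz (20 * |v|) (by positivity) e9
    refine e10.trans ?_
    have e11 : 3 * (20 * |v|) = 60 * |v| := by ring
    rw [e11, Real.log_mul (by norm_num) hv0.ne', hL]
    linarith
  have hbc := bc_ball hr0 hL0 hgd hg0 hreL
  have hB : ∀ z ∈ closedBall c r₃, ‖g z‖ ≤ 10 * L / δ := by
    intro z hz
    have hz' : ‖z - c‖ ≤ r₃ := by rwa [mem_closedBall_iff_norm] at hz
    have e1 := hbc z (closedBall_subset_ball hr3r hz)
    refine e1.trans ?_
    have e2 : δ / 2 ≤ r - ‖z - c‖ := by rw [hr₃] at hz'; linarith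
    calc 2 * L * ‖z - c‖ / (r - ‖z - c‖) ≤ 2 * L * (5 / 2) / (δ / 2) := by
          apply div_le_div₀ (by positivity) _ (by positivity) e2
          apply mul_le_mul_of_nonneg_left _ (by positivity)
          linarith
      _ = 10 * L / δ := by field_simp; ring
  -- inner bound
  have hr32 : (3 : ℝ) / 2 ≤ r := by linarith
  have hinner : ∀ z ∈ closedBall c 1, ‖g z‖ ≤ C₂ := by
    intro z hz
    have hz' : ‖z - c‖ ≤ 1 := by rwa [mem_closedBall_iff_norm] at hz
    have hsubb : ball c (3 / 2) ⊆ ball c r := ball_subset_ball hr32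
    have e1 := bc_ball (r := 3 / 2) (L := C₁) (by norm_num) hC₁0 (hgd.mono hsubb) hg0 (by
      intro w hw
      apply hreg w (hsubb hw) M₀ (by linarith)
      apply hM
      rw [mem_ball_iff_norm] at hw
      have e2 := (Complex.abs_re_le_norm (w - c)).trans_lt hw
      rw [Complex.sub_re, hcre] at e2
      have := (abs_lt.mp e2).1
      linarith) z (by rw [mem_ball_iff_norm]; linarith)
    refine e1.trans (le_trans ?_ (le_max_left _ _))
    calc 2 * C₁ * ‖z - c‖ / (3 / 2 - ‖z - c‖) ≤ 2 * C₁ * 1 / (1 / 2) := by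
          apply div_le_div₀ (by positivity) _ (by norm_num) (by linarith)
          apply mul_le_mul_of_nonneg_left hz' (by positivity)
      _ = 4 * C₁ := by ring
  -- the point s
  have hsc : ‖s - c‖ = 3 - s.re := by
    have : s - c = (((s.re - 3 : ℝ)) : ℂ) := by
      apply Complex.ext
      · rw [Complex.sub_re, hcre]; simp
      · rw [Complex.sub_im, hcim, hsim]; simp
    rw [this, Complex.norm_real, Real.norm_eq_abs, abs_of_nonpos (by linarith)]
    ring
  have hsr2 : ‖s - c‖ ≤ r₂ := by rw [hsc, hr₂, hr]; linarith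
  have hsball : s ∈ ball c r := by rw [mem_ball_iff_norm]; linarith
  have hBge : 1 ≤ 10 * L / δ := by
    rw [le_div_iff₀ hδ, hL]; linarith
  have hgs : ‖g s‖ ≤ C₂ * (10 * L / δ) ^ κ := by
    rcases le_or_gt ‖s - c‖ 1 with h | h
    · have e1 := hinner s (by rwa [mem_closedBall_iff_norm])
      have e2 : 1 ≤ (10 * L / δ) ^ κ := Real.one_le_rpow hBge hκ0.le
      nlinarith
    · have e1 := three_circles hr3' hr3r hgd (A := C₂) (B := 10 * L / δ)
        (fun z hz => hinner z (by rw [mem_closedBall_iff_norm]; exact hz.le)) hB h.le (by linarith)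
      refine e1.trans ?_
      have e2 : 0 ≤ Real.log ‖s - c‖ / Real.log r₃ := div_nonneg (Real.log_nonneg h.le) hl3.le
      have e3 : Real.log ‖s - c‖ / Real.log r₃ ≤ κ := by
        rw [hκ]
        apply div_le_div_of_nonneg_right _ hl3.le
        exact Real.log_le_log (by linarith) hsr2
      apply mul_le_mul
      · calc C₂ ^ (1 - Real.log ‖s - c‖ / Real.log r₃) ≤ C₂ ^ (1 : ℝ) :=
              Real.rpow_le_rpow_of_exponent_le hC₂1 (by linarith)
          _ = C₂ := Real.rpow_one _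
      · exact Real.rpow_le_rpow_of_exponent_le hBge e3
      · positivity
      · linarith
  have hfin : C₁ + ‖g s‖ ≤ ε * Real.log |v| := by
    have e1 := hU (Real.log |v|) hvU1
    refine le_trans ?_ e1
    apply add_le_add le_rfl
    refine hgs.trans ?_
    apply mul_le_mul_of_nonneg_left _ (by linarith)
    have e2 : 10 * L / δ = (20 / δ) * Real.log |v| := by rw [hL]; ring
    rw [e2, Real.mul_rpow (by positivity) (by linarith)]
  have e1 := congrArg norm (hgexp s hsball)
  rw [norm_mul, Complex.norm_exp] at e1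
  have e2 : |(g s).re| ≤ ‖g s‖ := Complex.abs_re_le_norm _
  have e3 := abs_le.mp e2
  rw [e1]
  have hexpC : Real.exp C₁ = 3 * M₀ := Real.exp_log (by linarith)
  constructor
  · have e4 : Real.exp (-C₁) ≤ ‖riemannZeta c‖ := by
      rw [Real.exp_neg, hexpC]
      refine le_trans ?_ hzc
      rw [inv_le_comm₀ (by positivity) (by norm_num)]
      linarith
    calc Real.exp (-(ε * Real.log |v|)) ≤ Real.exp (-C₁ + (g s).re) := by
          apply Real.exp_le_exp.mpr; linarith [e3.1]
      _ = Real.exp (-C₁) * Real.exp (g s).re := Real.exp_add _ _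
      _ ≤ _ := mul_le_mul_of_nonneg_right e4 (Real.exp_pos _).le
  · have e4 : ‖riemannZeta c‖ ≤ Real.exp C₁ := by rw [hexpC]; linarith
    calc ‖riemannZeta c‖ * Real.exp (g s).re ≤ Real.exp C₁ * Real.exp (g s).re :=
          mul_le_mul_of_nonneg_right e4 (Real.exp_pos _).le
      _ = Real.exp (C₁ + (g s).re) := (Real.exp_add _ _).symm
      _ ≤ _ := by apply Real.exp_le_exp.mpr; linarith [e3.2]

end Pool.Agent.Lib.MP_6bc78b_nt.H11
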