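import Mathlib
import Pool.Agent.Lib.MP_6bc78b_nt.ZetaBounds
import Pool.Agent.Lib.MP_6bc78b_nt.ZetaStrip
import Pool.Agent.Lib.MP_6bc78b_nt.H11.LogZeta

/-! Bounds for the functional equation factor, and for zeta to the left of the critical line. -/

namespace Pool.Agent.Lib.MP_6bc78b_nt.H11

open Complex MeasureTheory Set Filter Topology Metric

lemma norm_cos_sq (x y : ℝ) :
    ‖Complex.cos (x + y * I)‖ ^ 2 = Real.cos x ^ 2 + Real.sinh y ^ 2 := by
  have h1 : Complex.cos (x + y * I) =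
      ((Real.cos x * Real.cosh y : ℝ) : ℂ) - ((Real.sin x * Real.sinh y : ℝ) : ℂ) * I := by
    rw [Complex.cos_add_mul_I]
    push_cast
    ring
  rw [h1, Complex.sq_norm, Complex.normSq_apply]
  simp only [sub_re, ofReal_re, mul_re, I_re, mul_zero, ofReal_im, I_im, mul_one, sub_self,
    sub_zero, sub_im, mul_im, add_zero, zero_sub]
  have h2 := Real.cosh_sq y
  have h3 := Real.sin_sq_add_cos_sq x
  have h4 : Real.cos x * Real.cosh y * (Real.cos x * Real.cosh y) =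
      Real.cos x ^ 2 * Real.cosh y ^ 2 := by ring
  rw [h4, h2]
  have h5 : Real.sin x ^ 2 = 1 - Real.cos x ^ 2 := by linarith
  have h6 : -(Real.sin x * Real.sinh y) * -(Real.sin x * Real.sinh y) =
      Real.sin x ^ 2 * Real.sinh y ^ 2 := by ring
  rw [h6, h5]
  ring

lemma norm_cos_le_cosh (x y : ℝ) : ‖Complex.cos (x + y * I)‖ ≤ Real.cosh y := by
  apply (sq_le_sq₀ (norm_nonneg _) (Real.cosh_pos y).le).mp
  rw [norm_cos_sq, Real.cosh_sq]
  have := Real.cos_sq_le_one x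
  linarith

lemma abs_sinh_le_norm_cos (x y : ℝ) : |Real.sinh y| ≤ ‖Complex.cos (x + y * I)‖ := by
  apply (sq_le_sq₀ (abs_nonneg _) (norm_nonneg _)).mp
  rw [norm_cos_sq, sq_abs]
  have := sq_nonneg (Real.cos x)
  linarith

/-- extension of the bound for `Γ(s) cos(πs/2)` to `Re s ≥ 1/2`. -/
lemma exists_norm_Gamma_cos_le_half :
    ∃ C : ℝ, 0 < C ∧ ∀ s : ℂ, 1 / 2 ≤ s.re → s.re ≤ 2 → 1 ≤ |s.im| →
      ‖Complex.Gamma s * Complex.cos (Real.pi * s / 2)‖ ≤ C * (1 + |s.im|) ^ (s.re - 1 / 2) := by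
  obtain ⟨C, hC, h⟩ := exists_norm_Gamma_cos_le
  refine ⟨4 * C, by positivity, ?_⟩
  intro s h1 h2 h3
  rcases le_or_gt 1 s.re with h4 | h4
  · refine (h s h4 h2).trans ?_
    have : 0 ≤ (1 + |s.im|) ^ (s.re - 1 / 2) := by positivity
    nlinarith
  · have hs0 : s ≠ 0 := by
      intro h; rw [h] at h1; simp at h1; linarith
    have h5 := h (s + 1) (by simp; linarith) (by simp; linarith)
    have him : (s + 1).im = s.im := by simp
    have hre : (s + 1).re = s.re + 1 := by simp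
    rw [him, hre] at h5
    rw [norm_mul] at h5 ⊢
    rw [Complex.Gamma_add_one s hs0, norm_mul] at h5
    have e1 : (Real.pi : ℂ) * s / 2 = ((Real.pi * s.re / 2 : ℝ) : ℂ) + ((Real.pi * s.im / 2 : ℝ) : ℂ) * I := by
      apply Complex.ext
      · simp
      · simp
    have e2 : (Real.pi : ℂ) * (s + 1) / 2 =
        ((Real.pi * (s.re + 1) / 2 : ℝ) : ℂ) + ((Real.pi * s.im / 2 : ℝ) : ℂ) * I := by
      apply Complex.ext
      · simp
      · simp
    have e3 : ‖Complex.cos (Real.pi * s / 2)‖ ≤ Real.cosh (Real.pi * s.im / 2) := by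
      rw [e1]; exact norm_cos_le_cosh _ _
    have e4 : |Real.sinh (Real.pi * s.im / 2)| ≤ ‖Complex.cos (Real.pi * (s + 1) / 2)‖ := by
      rw [e2]; exact abs_sinh_le_norm_cos _ _
    have e5 : Real.cosh (Real.pi * s.im / 2) ≤ 2 * |Real.sinh (Real.pi * s.im / 2)| := by
      rw [← Real.cosh_abs, Real.abs_sinh]
      apply cosh_le_two_mul_sinh
      rw [abs_div, abs_mul, abs_of_pos Real.pi_pos, abs_of_pos (by norm_num : (0:ℝ) < 2)]
      have := Real.pi_gt_three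
      rw [le_div_iff₀ (by norm_num)]
      nlinarith
    have hsn : |s.im| ≤ ‖s‖ := Complex.abs_im_le_norm s
    have hw : 0 < 1 + |s.im| := by positivity
    have e6 : ‖Complex.cos (Real.pi * s / 2)‖ ≤ 2 * ‖Complex.cos (Real.pi * (s + 1) / 2)‖ := by
      linarith
    have e7 : (1 + |s.im|) ^ (s.re + 1 - 1 / 2) = (1 + |s.im|) ^ (s.re - 1 / 2) * (1 + |s.im|) := by
      rw [← Real.rpow_add_one hw.ne']
      congr 1; ring
    rw [e7] at h5
    have hG : 0 ≤ ‖Complex.Gamma s‖ := norm_nonneg _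
    have hc : 0 ≤ ‖Complex.cos (Real.pi * (s + 1) / 2)‖ := norm_nonneg _
    have e8 : |s.im| * (‖Complex.Gamma s‖ * ‖Complex.cos (Real.pi * (s + 1) / 2)‖) ≤
        C * ((1 + |s.im|) ^ (s.re - 1 / 2) * (1 + |s.im|)) := by
      refine le_trans ?_ h5
      rw [mul_assoc ‖s‖]
      exact mul_le_mul_of_nonneg_right hsn (mul_nonneg hG hc)
    have e9 : C * ((1 + |s.im|) ^ (s.re - 1 / 2) * (1 + |s.im|)) ≤
        |s.im| * (2 * C * (1 + |s.im|) ^ (s.re - 1 / 2)) := by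
      have : 0 ≤ C * (1 + |s.im|) ^ (s.re - 1 / 2) := by positivity
      nlinarith
    have e10 := le_of_mul_le_mul_left (e8.trans e9) (by linarith)
    calc ‖Complex.Gamma s‖ * ‖Complex.cos (Real.pi * s / 2)‖
        ≤ ‖Complex.Gamma s‖ * (2 * ‖Complex.cos (Real.pi * (s + 1) / 2)‖) :=
          mul_le_mul_of_nonneg_left e6 hG
      _ = 2 * (‖Complex.Gamma s‖ * ‖Complex.cos (Real.pi * (s + 1) / 2)‖) := by ring
      _ ≤ 2 * (2 * C * (1 + |s.im|) ^ (s.re - 1 / 2)) := by linarith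
      _ = 4 * C * (1 + |s.im|) ^ (s.re - 1 / 2) := by ring

/-- the value of zeta on the left in terms of the value on the right. -/
lemma exists_zeta_reflect :
    ∃ C : ℝ, 0 < C ∧ ∀ s : ℂ, 1 / 2 ≤ s.re → s.re ≤ 2 → 1 ≤ |s.im| →
      ‖riemannZeta (1 - s)‖ ≤ C * (1 + |s.im|) ^ (s.re - 1 / 2) * ‖riemannZeta s‖ := by
  obtain ⟨C, hC, h⟩ := exists_norm_Gamma_cos_le_half
  refine ⟨2 * C, by positivity, ?_⟩
  intro s h1 h2 h3
  have hn : ∀ n : ℕ, s ≠ -n := by
    intro n hn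
    rw [hn] at h1
    simp at h1
    have : (0 : ℝ) ≤ n := Nat.cast_nonneg n
    linarith
  have hs1 : s ≠ 1 := by
    intro hh; rw [hh] at h3; simp at h3; linarith
  rw [riemannZeta_one_sub hn hs1]
  have e1 : 2 * (2 * (Real.pi : ℂ)) ^ (-s) * Complex.Gamma s * Complex.cos (Real.pi * s / 2) * riemannZeta s =
      2 * (2 * (Real.pi : ℂ)) ^ (-s) * (Complex.Gamma s * Complex.cos (Real.pi * s / 2)) * riemannZeta s := by
    ring
  rw [e1, norm_mul, norm_mul, norm_mul]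
  have e2 : ‖(2 * (Real.pi : ℂ)) ^ (-s)‖ ≤ 1 := by
    have h4 : (2 * (Real.pi : ℂ)) = ((2 * Real.pi : ℝ) : ℂ) := by push_cast; rfl
    rw [h4, Complex.norm_cpow_eq_rpow_re_of_pos (by positivity)]
    apply Real.rpow_le_one_of_one_le_of_nonpos
    · have := Real.pi_gt_three; linarith
    · simp; linarith
  have e3 : ‖(2 : ℂ)‖ = 2 := by simp
  rw [e3]
  apply mul_le_mul_of_nonneg_right _ (norm_nonneg _)
  calc 2 * ‖(2 * (Real.pi : ℂ)) ^ (-s)‖ * ‖Complex.Gamma s * Complex.cos (Real.pi * s / 2)‖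
      ≤ 2 * 1 * (C * (1 + |s.im|) ^ (s.re - 1 / 2)) := by
        apply mul_le_mul _ (h s h1 h2 h3) (norm_nonneg _) (by norm_num)
        linarith
    _ = 2 * C * (1 + |s.im|) ^ (s.re - 1 / 2) := by ring

end Pool.Agent.Lib.MP_6bc78b_nt.H11
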