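import Mathlib

set_option autoImplicit false

open Complex Set Filter Topology Metric MeasureTheory

namespace Pool.Agent.Lib.MP_6bc78b_nt.H11

/-- Euler's approximations of the Gamma function are bounded by its value at the real part. -/
lemma norm_GammaSeq_le {z : ℂ} (hz : 0 < z.re) {n : ℕ} (hn : n ≠ 0) :
    ‖GammaSeq z n‖ ≤ Real.Gamma z.re := by
  rw [GammaSeq_eq_approx_Gamma_integral hz hn]
  have hn0 : (0 : ℝ) ≤ n := by positivity
  rw [intervalIntegral.integral_of_le hn0, Real.Gamma_eq_integral hz]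
  refine (norm_integral_le_integral_norm _).trans ?_
  have hint : IntegrableOn (fun x : ℝ => Real.exp (-x) * x ^ (z.re - 1)) (Ioi 0) :=
    Real.GammaIntegral_convergent hz
  have h1 : (∫ x in Ioc (0:ℝ) n, ‖((((1 - x / n) ^ n : ℝ)) : ℂ) * (x : ℂ) ^ (z - 1)‖) ≤
      ∫ x in Ioc (0:ℝ) n, Real.exp (-x) * x ^ (z.re - 1) := by
    apply setIntegral_mono_on₀
    · have hi : IntervalIntegrable (fun x : ℝ => ((((1 - x / n) ^ n : ℝ)) : ℂ) * (x : ℂ) ^ (z - 1))
          volume 0 n := by
        apply IntervalIntegrable.continuousOn_mul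
        · refine intervalIntegral.intervalIntegrable_cpow' ?_
          rw [sub_re, one_re]; linarith
        · fun_prop
      exact ((intervalIntegrable_iff_integrableOn_Ioc_of_le hn0).1 hi).norm
    · exact hint.mono_set Ioc_subset_Ioi_self
    · exact measurableSet_Ioc.nullMeasurableSet
    · intro x hx
      have hx0 : 0 < x := hx.1
      rw [norm_mul, Complex.norm_of_nonneg
          (pow_nonneg (sub_nonneg.mpr <| div_le_one_of_le₀ hx.2 <| by positivity) _),
          norm_cpow_eq_rpow_re_of_pos hx0, sub_re, one_re]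
      gcongr
      exact Real.one_sub_div_pow_le_exp_neg hx.2
  refine h1.trans ?_
  apply setIntegral_mono_set hint
  · filter_upwards [ae_restrict_mem measurableSet_Ioi] with x hx
    have : 0 < x := hx
    show 0 ≤ Real.exp (-x) * x ^ (z.re - 1)
    positivity
  · exact Ioc_subset_Ioi_self.eventuallyLE

lemma GammaSeq_analytic {n : ℕ} (hn : n ≠ 0) {z : ℂ} (hz : 0 < z.re) :
    DifferentiableAt ℂ (fun s => GammaSeq s n) z := by
  have hn' : (n : ℂ) ≠ 0 := by exact_mod_cast hn
  unfold GammaSeq
  apply DifferentiableAt.div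
  · apply DifferentiableAt.mul_const
    exact (differentiableAt_id.const_cpow (Or.inl hn'))
  · fun_prop
  · rw [Finset.prod_ne_zero_iff]
    intro k _ h
    have := congrArg Complex.re h
    simp at this
    have h3 : (0:ℝ) ≤ k := by positivity
    linarith

lemma GammaSeq_logDeriv {n : ℕ} (hn : n ≠ 0) {z : ℂ} (hz : 0 < z.re) :
    logDeriv (fun s => GammaSeq s n) z =
      Real.log n - ∑ k ∈ Finset.range (n + 1), 1 / (z + k) := by
  have hn' : (n : ℂ) ≠ 0 := by exact_mod_cast hn
  have hk : ∀ k : ℕ, z + k ≠ 0 := by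
    intro k h
    have := congrArg Complex.re h
    simp at this
    have h3 : (0:ℝ) ≤ k := by positivity
    linarith
  have hprod : (∏ j ∈ Finset.range (n + 1), (z + (j : ℂ))) ≠ 0 := by
    rw [Finset.prod_ne_zero_iff]
    intro k _
    exact hk k
  have hd1 : DifferentiableAt ℂ (fun s : ℂ => (n : ℂ) ^ s * (n.factorial : ℂ)) z :=
    (differentiableAt_id.const_cpow (Or.inl hn')).mul_const _
  have hd2 : DifferentiableAt ℂ (fun s : ℂ => ∏ j ∈ Finset.range (n + 1), (s + (j : ℂ))) z := by
    fun_prop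
  have hne1 : (n : ℂ) ^ z * (n.factorial : ℂ) ≠ 0 := by
    apply mul_ne_zero
    · rw [cpow_def_of_ne_zero hn']; exact exp_ne_zero _
    · exact_mod_cast n.factorial_ne_zero
  have e : (fun s => GammaSeq s n) = fun s => ((n : ℂ) ^ s * (n.factorial : ℂ)) /
      (∏ j ∈ Finset.range (n + 1), (s + (j : ℂ))) := rfl
  rw [e, logDeriv_div z hne1 hprod hd1 hd2]
  congr 1
  · rw [logDeriv_mul_const z _ (by exact_mod_cast n.factorial_ne_zero)]
    rw [logDeriv_apply]
    have h1 : HasDerivAt (fun s : ℂ => (n : ℂ) ^ s) ((n : ℂ) ^ z * Complex.log n * 1) z :=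
      (hasDerivAt_id z).const_cpow (Or.inl hn')
    rw [h1.deriv]
    have h2 : (n : ℂ) ^ z ≠ 0 := by rw [cpow_def_of_ne_zero hn']; exact exp_ne_zero _
    rw [mul_one, mul_div_assoc, mul_comm, div_mul_cancel₀ _ h2, ← ofReal_natCast, ← ofReal_log (by positivity)]
  · rw [logDeriv_prod]
    · apply Finset.sum_congr rfl
      intro k _
      rw [logDeriv_apply]
      have : deriv (fun s : ℂ => s + (k : ℂ)) z = 1 := by
        simp
      rw [this]
    · intro k _; exact hk k
    · intro k _; fun_prop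

/-- Euler's formula for the digamma function. -/
theorem digamma_tendsto {s : ℂ} (hs : 0 < s.re) :
    Tendsto (fun n : ℕ => (Real.log n : ℂ) - ∑ k ∈ Finset.range (n + 1), 1 / (s + k)) atTop
      (𝓝 (logDeriv Gamma s)) := by
  set R : ℝ := s.re / 2 with hR
  have hR0 : 0 < R := by positivity
  -- points of the circle
  have hre : ∀ z ∈ closedBall s R, R ≤ z.re ∧ z.re ≤ 3 * R := by
    intro z hz
    rw [mem_closedBall_iff_norm] at hz
    have h1 := (Complex.abs_re_le_norm (z - s)).trans hz
    rw [sub_re, abs_le] at h1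
    constructor <;> linarith [h1.1, h1.2]
  obtain ⟨M, hM⟩ : ∃ M : ℝ, ∀ x ∈ Icc R (3 * R), Real.Gamma x ≤ M := by
    have hc : ContinuousOn Real.Gamma (Icc R (3 * R)) := by
      intro x hx
      have hx0 : 0 < x := lt_of_lt_of_le hR0 hx.1
      exact (Real.differentiableAt_Gamma (fun m => by
        have : (0:ℝ) ≤ m := by positivity
        linarith)).continuousAt.continuousWithinAt
    obtain ⟨M, hM⟩ := isCompact_Icc.bddAbove_image hc
    exact ⟨M, fun x hx => hM ⟨x, hx, rfl⟩⟩
  -- derivative as a circle integral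
  have hder : ∀ f : ℂ → ℂ, (∀ z ∈ closedBall s R, DifferentiableAt ℂ f z) →
      deriv f s = (2 * Real.pi * I)⁻¹ * ∮ z in C(s, R), (1 / (z - s) ^ 2) • f z := by
    intro f hf
    have h1 : DiffContOnCl ℂ f (ball s R) := by
      apply DifferentiableOn.diffContOnCl
      rw [closure_ball _ hR0.ne']
      exact fun z hz => (hf z hz).differentiableWithinAt
    rw [h1.deriv_eq_smul_circleIntegral hR0, smul_eq_mul, ← mul_assoc,
      inv_mul_cancel₀ two_pi_I_ne_zero, one_mul]
  have hlim : Tendsto (fun n : ℕ => ∮ z in C(s, R), (1 / (z - s) ^ 2) • GammaSeq z n) atTop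
      (𝓝 (∮ z in C(s, R), (1 / (z - s) ^ 2) • Gamma z)) := by
    unfold circleIntegral
    apply intervalIntegral.tendsto_integral_filter_of_dominated_convergence
      (fun _ => R * ((1 / R ^ 2) * M))
    · filter_upwards [eventually_ne_atTop 0] with n hn
      apply Continuous.aestronglyMeasurable
      have hc : ∀ θ : ℝ, circleMap s R θ ∈ closedBall s R := fun θ =>
        circleMap_mem_closedBall s hR0.le θ
      have h1 : Continuous (fun θ : ℝ => GammaSeq (circleMap s R θ) n) := by
        rw [continuous_iff_continuousAt]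
        intro θ
        have h2 : ContinuousAt (fun s => GammaSeq s n) (circleMap s R θ) :=
          (GammaSeq_analytic hn (lt_of_lt_of_le hR0 (hre _ (hc θ)).1)).continuousAt
        exact h2.comp (f := circleMap s R) (continuous_circleMap s R).continuousAt
      have h3 : Continuous (fun θ : ℝ => 1 / (circleMap s R θ - s) ^ 2) := by
        apply Continuous.div continuous_const
        · fun_prop
        · intro θ
          exact pow_ne_zero _ (sub_ne_zero.2 (circleMap_ne_center hR0.ne'))
      have h4 : Continuous (deriv (circleMap s R)) := by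
        have : deriv (circleMap s R) = fun θ => circleMap 0 R θ * I := by
          funext θ; exact deriv_circleMap s R θ
        rw [this]; fun_prop
      exact h4.smul (h3.smul h1)
    · filter_upwards [eventually_ne_atTop 0] with n hn
      refine Filter.Eventually.of_forall fun θ _ => ?_
      have hc : circleMap s R θ ∈ closedBall s R := circleMap_mem_closedBall s hR0.le θ
      have h1 := (norm_GammaSeq_le (lt_of_lt_of_le hR0 (hre _ hc).1) hn).trans (hM _ (hre _ hc))
      rw [norm_smul, norm_smul, deriv_circleMap, norm_mul, norm_I, mul_one, norm_circleMap_zero,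
        abs_of_pos hR0, norm_div, norm_one, norm_pow, circleMap_sub_center, norm_circleMap_zero,
        abs_of_pos hR0]
      gcongr
    · exact intervalIntegrable_const
    · refine Filter.Eventually.of_forall fun θ _ => ?_
      exact ((GammaSeq_tendsto_Gamma _).const_smul _).const_smul _
  have hd : Tendsto (fun n : ℕ => deriv (fun z => GammaSeq z n) s) atTop (𝓝 (deriv Gamma s)) := by
    rw [hder Gamma (fun z hz => differentiableAt_Gamma z (fun m h => by
      have h1 := (hre z hz).1
      rw [h] at h1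
      simp at h1
      have : (0:ℝ) ≤ m := by positivity
      linarith))]
    refine (hlim.const_mul ((2 * Real.pi * I)⁻¹)).congr' ?_
    filter_upwards [eventually_ne_atTop 0] with n hn
    rw [hder (fun z => GammaSeq z n) (fun z hz => GammaSeq_analytic hn
      (lt_of_lt_of_le hR0 (hre z hz).1))]
  have hG : Gamma s ≠ 0 := Gamma_ne_zero_of_re_pos hs
  have h := hd.div (GammaSeq_tendsto_Gamma s) hG
  rw [← logDeriv_apply] at h
  refine h.congr' ?_
  filter_upwards [eventually_ne_atTop 0] with n hn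
  rw [← GammaSeq_logDeriv hn hs, logDeriv_apply]
  rfl

/-- One step of the comparison of the harmonic type sum with the logarithm. -/
lemma log_step {a : ℂ} (ha : 0 < a.re) :
    ‖(log (a + 1) - log a) - 1 / a‖ ≤ 1 / ‖a‖ ^ 2 := by
  have ha0 : a ≠ 0 := by rintro rfl; simp at ha
  have hna : 0 < ‖a‖ := norm_pos_iff.2 ha0
  have hsl : ∀ u : ℝ, 0 ≤ u → a + u ∈ slitPlane := by
    intro u hu
    left
    simp
    linarith
  have hd : ∀ u ∈ Icc (0:ℝ) 1, HasDerivWithinAt (fun u : ℝ => log (a + u) - u / a)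
      (1 / (a + u) - 1 / a) (Icc 0 1) u := by
    intro u hu
    have h1 : HasDerivAt (fun u : ℝ => a + (u : ℂ)) 1 u :=
      (Complex.ofRealCLM.hasDerivAt (x := u)).const_add a
    have h2 := h1.clog_real (hsl u hu.1)
    have h3 : HasDerivAt (fun u : ℝ => (u : ℂ) / a) (1 / a) u :=
      (Complex.ofRealCLM.hasDerivAt (x := u)).div_const a
    exact (h2.sub h3).hasDerivWithinAt
  have hb : ∀ u ∈ Icc (0:ℝ) 1, ‖(1 / (a + u) - 1 / a : ℂ)‖ ≤ 1 / ‖a‖ ^ 2 := by
    intro u hu
    have hau : a + u ≠ 0 := slitPlane_ne_zero (hsl u hu.1)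
    have e : (1 / (a + u) - 1 / a : ℂ) = -u / ((a + u) * a) := by
      field_simp
      ring
    rw [e, norm_div, norm_neg, norm_mul, Complex.norm_of_nonneg hu.1]
    have hge : ‖a‖ ≤ ‖a + u‖ := by
      apply (sq_le_sq₀ (norm_nonneg _) (norm_nonneg _)).1
      rw [Complex.sq_norm, Complex.sq_norm, Complex.normSq_apply, Complex.normSq_apply]
      simp only [add_re, ofReal_re, add_im, ofReal_im, add_zero]
      nlinarith [hu.1, mul_nonneg hu.1 ha.le]
    have h4 : ‖a‖ ^ 2 ≤ ‖a + u‖ * ‖a‖ := by nlinarith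
    calc u / (‖a + u‖ * ‖a‖) ≤ 1 / (‖a + u‖ * ‖a‖) := by gcongr; exact hu.2
      _ ≤ 1 / ‖a‖ ^ 2 := by gcongr
  have h := (convex_Icc (0:ℝ) 1).norm_image_sub_le_of_norm_hasDerivWithin_le hd hb
    (left_mem_Icc.2 zero_le_one) (right_mem_Icc.2 zero_le_one)
  have e : (log (a + 1) - log a) - 1 / a =
      (log (a + ((1:ℝ):ℂ)) - ((1:ℝ):ℂ) / a) - (log (a + ((0:ℝ):ℂ)) - ((0:ℝ):ℂ) / a) := by
    push_cast
    rw [add_zero]
    ring
  rw [e]
  simpa using h

lemma norm_add_nat_sq (s : ℂ) (hs : 0 < s.re) (k : ℕ) : (k : ℝ) ^ 2 + s.im ^ 2 ≤ ‖s + k‖ ^ 2 := by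
  rw [Complex.sq_norm, Complex.normSq_apply]
  have hk : (0:ℝ) ≤ k := by positivity
  simp only [add_re, natCast_re, add_im, natCast_im, add_zero]
  nlinarith

lemma sum_inv_sq_le {t : ℝ} (ht : 0 < t) (n : ℕ) :
    ∑ k ∈ Finset.range (n + 1), 1 / ((k : ℝ) ^ 2 + t ^ 2) ≤
      1 / t ^ 2 + (1 / t) * Real.arctan (n / t) := by
  induction n with
  | zero => simp
  | succ n ih =>
    rw [Finset.sum_range_succ]
    have h0 : (0:ℝ) ≤ n := by positivity
    have hstep : 1 / (((n + 1 : ℕ) : ℝ) ^ 2 + t ^ 2) ≤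
        (1 / t) * (Real.arctan (((n + 1 : ℕ) : ℝ) / t) - Real.arctan (n / t)) := by
      have hm : ∃ c ∈ Ioo ((n:ℝ) / t) (((n + 1 : ℕ) : ℝ) / t),
          1 / (1 + c ^ 2) = (Real.arctan (((n + 1 : ℕ) : ℝ) / t) - Real.arctan (n / t)) /
            (((n + 1 : ℕ) : ℝ) / t - (n:ℝ) / t) := by
        apply exists_hasDerivAt_eq_slope Real.arctan (fun x => 1 / (1 + x ^ 2))
        · push_cast; gcongr; linarith
        · exact Real.continuous_arctan.continuousOn
        · intro x _; exact Real.hasDerivAt_arctan x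
      obtain ⟨c, hc, hc2⟩ := hm
      have hlen : ((n + 1 : ℕ) : ℝ) / t - (n:ℝ) / t = 1 / t := by push_cast; field_simp; ring
      rw [hlen] at hc2
      have h5 : Real.arctan (((n + 1 : ℕ) : ℝ) / t) - Real.arctan (n / t) = (1 / t) * (1 / (1 + c ^ 2)) := by
        rw [hc2]; field_simp
      rw [h5]
      have hc0 : 0 ≤ c := le_trans (by positivity) hc.1.le
      have h6 : c ^ 2 ≤ (((n + 1 : ℕ) : ℝ) / t) ^ 2 := by gcongr; exact hc.2.le
      have h7 : (1 / t) * ((1 / t) * (1 / (1 + c ^ 2))) = 1 / (t ^ 2 * (1 + c ^ 2)) := by field_simp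
      rw [h7]
      apply one_div_le_one_div_of_le (by positivity)
      have h8 : t ^ 2 * (((n + 1 : ℕ) : ℝ) / t) ^ 2 = ((n + 1 : ℕ) : ℝ) ^ 2 := by field_simp
      nlinarith [sq_nonneg t, mul_le_mul_of_nonneg_left h6 (sq_nonneg t)]
    have e : 1 / t ^ 2 + (1 / t) * Real.arctan (((n + 1 : ℕ) : ℝ) / t) =
        (1 / t ^ 2 + (1 / t) * Real.arctan (n / t)) +
        (1 / t) * (Real.arctan (((n + 1 : ℕ) : ℝ) / t) - Real.arctan (n / t)) := by ring
    rw [e]
    exact add_le_add ih hstep

/-- `ψ(s) = log s + O(1/|Im s|)`. -/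
theorem digamma_sub_log {s : ℂ} (hs : 0 < s.re) (ht : 1 ≤ |s.im|) :
    ‖logDeriv Gamma s - log s‖ ≤ 3 / |s.im| := by
  set t := |s.im| with htd
  have ht0 : 0 < t := by linarith
  have hs0 : s ≠ 0 := by rintro rfl; simp at hs
  have hlim := (digamma_tendsto hs).sub_const (log s)
  -- the logarithm of the last term
  have hlog : Tendsto (fun n : ℕ => log (s + (n + 1 : ℕ)) - (Real.log n : ℂ)) atTop (𝓝 0) := by
    have h1 : Tendsto (fun n : ℕ => log (1 + (s + 1) / n)) atTop (𝓝 (log (1 + 0))) := by
      apply Tendsto.clog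
      · apply Tendsto.const_add
        have : Tendsto (fun n : ℕ => (s + 1) * ((n : ℂ))⁻¹) atTop (𝓝 ((s + 1) * 0)) :=
          (tendsto_inv_atTop_nhds_zero_nat (𝕜 := ℂ)).const_mul _
        simpa [div_eq_mul_inv] using this
      · simp
    rw [add_zero, log_one] at h1
    refine h1.congr' ?_
    filter_upwards [eventually_gt_atTop 0] with n hn
    have hn' : (0:ℝ) < n := by exact_mod_cast hn
    have hne : (1 + (s + 1) / n : ℂ) ≠ 0 := by
      intro h
      have h2 := congrArg (fun z : ℂ => z * n) h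
      have hnc : (n : ℂ) ≠ 0 := by exact_mod_cast hn.ne'
      simp only [add_mul, div_mul_cancel₀ _ hnc, zero_mul, one_mul] at h2
      have h3 := congrArg Complex.re h2
      simp at h3
      linarith
    have e : s + ((n + 1 : ℕ) : ℂ) = ((n : ℝ) : ℂ) * (1 + (s + 1) / n) := by
      have hnc : (n : ℂ) ≠ 0 := by exact_mod_cast hn.ne'
      push_cast
      field_simp
      ring
    rw [e, log_ofReal_mul hn' hne]
    ring
  have hlim2 := hlim.add hlog
  rw [add_zero] at hlim2
  refine le_of_tendsto hlim2.norm ?_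
  refine Filter.Eventually.of_forall fun n => ?_
  have e : ((Real.log n : ℂ) - ∑ k ∈ Finset.range (n + 1), 1 / (s + k) - log s) +
      (log (s + (n + 1 : ℕ)) - (Real.log n : ℂ)) =
      ∑ k ∈ Finset.range (n + 1), ((log (s + k + 1) - log (s + k)) - 1 / (s + k)) := by
    rw [Finset.sum_sub_distrib]
    have htel : ∑ k ∈ Finset.range (n + 1), (log (s + k + 1) - log (s + k)) =
        log (s + (n + 1 : ℕ)) - log s := by
      have := Finset.sum_range_sub (fun k : ℕ => log (s + k)) (n + 1)
      simp only [Nat.cast_zero, add_zero] at this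
      rw [← this]
      apply Finset.sum_congr rfl
      intro k _
      push_cast
      rw [add_assoc]
    rw [htel]
    ring
  rw [e]
  calc ‖∑ k ∈ Finset.range (n + 1), ((log (s + k + 1) - log (s + k)) - 1 / (s + k))‖
      ≤ ∑ k ∈ Finset.range (n + 1), 1 / ((k : ℝ) ^ 2 + t ^ 2) := by
        apply norm_sum_le_of_le
        intro k _
        have hk : 0 < (s + k).re := by
          simp only [add_re, natCast_re]
          have : (0:ℝ) ≤ k := by positivity
          linarith
        refine (log_step hk).trans ?_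
        apply one_div_le_one_div_of_le (by positivity)
        have := norm_add_nat_sq s hs k
        rw [htd, sq_abs]
        exact this
    _ ≤ 1 / t ^ 2 + (1 / t) * Real.arctan (n / t) := sum_inv_sq_le ht0 n
    _ ≤ 1 / t + (1 / t) * 2 := by
        gcongr
        · nlinarith
        · have := Real.arctan_lt_pi_div_two ((n:ℝ) / t)
          have hpi := Real.pi_lt_four
          linarith
    _ = 3 / t := by ring

end Pool.Agent.Lib.MP_6bc78b_nt.H11
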