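import Mathlib
import Pool.Agent.Lib.MP_6bc78b_nt.Blaschke
import Pool.Agent.Lib.MP_6bc78b_nt.LL.Xi
import Pool.Agent.Lib.MP_6bc78b_nt.LL.GammaLog

/-! Two lemmas of `LL.Master`, `LL.Bounds` without their heavy imports. -/

set_option autoImplicit false

open Complex Set Filter Topology MeasureTheory

namespace Pool.Agent.Lib.MP_6bc78b_nt.H11

open Pool.Agent.Lib.MP_6bc78b_nt Pool.Agent.Lib.MP_6bc78b_nt.LL

/-- Dividing out the zeros in a finite set exactly. -/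
lemma exists_cofactor_light {F : ℂ → ℂ} (hF : Differentiable ℂ F) (Z : Finset ℂ)
    (hord : ∀ w ∈ Z, analyticOrderAt F w ≠ ⊤) :
    ∃ h : ℂ → ℂ, Differentiable ℂ h ∧
      (∀ s, F s = (∏ w ∈ Z, (s - w) ^ analyticOrderNatAt F w) * h s) ∧ ∀ w ∈ Z, h w ≠ 0 := by
  classical
  obtain ⟨h, hh, hFh⟩ := exists_eq_prod_mul hF Z (fun w => analyticOrderNatAt F w) (by
    intro w hw
    rw [Nat.cast_analyticOrderNatAt (hord w hw)])
  refine ⟨h, hh, hFh, fun s hs hs0 => ?_⟩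
  obtain ⟨n, hn⟩ : ∃ n : ℕ, n = analyticOrderNatAt F s := ⟨_, rfl⟩
  have hh1 : ((1 : ℕ) : ℕ∞) ≤ analyticOrderAt h s := by
    rw [Nat.cast_one, Order.one_le_iff_ne_zero]
    intro h0
    rw [(hh.analyticAt s).analyticOrderAt_eq_zero] at h0
    exact h0 hs0
  obtain ⟨h2, hh2, hF2⟩ := exists_eq_sub_pow_mul hh s 1 hh1
  have hle : ((n + 1 : ℕ) : ℕ∞) ≤ analyticOrderAt F s := by
    rw [natCast_le_analyticOrderAt (hF.analyticAt s)]
    refine ⟨fun z => (∏ w ∈ Z.erase s, (z - w) ^ analyticOrderNatAt F w) * h2 z, ?_,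
      Eventually.of_forall fun z => ?_⟩
    · have : Differentiable ℂ (fun z : ℂ => (∏ w ∈ Z.erase s,
        (z - w) ^ analyticOrderNatAt F w) * h2 z) := by
        apply Differentiable.mul _ hh2
        fun_prop
      exact this.analyticAt s
    · rw [hFh z, hF2 z, ← Finset.mul_prod_erase _ _ hs, ← hn, smul_eq_mul]
      ring
  rw [← Nat.cast_analyticOrderNatAt (hord s hs), ← hn] at hle
  have : n + 1 ≤ n := by exact_mod_cast hle
  omega

lemma exists_gPart_light :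
    ∃ C : ℝ, 0 ≤ C ∧ ∀ s : ℂ, 1/2 ≤ s.re → s.re ≤ 3/2 → 8 ≤ |s.im| →
      ‖gPart s‖ ≤ Real.log |s.im| / 2 + C := by
  obtain ⟨C, hC, h⟩ := exists_logDeriv_Gammaℝ
  refine ⟨C + 2, by linarith, ?_⟩
  intro s h1 h2 h3
  have h4 := h s h1 h2 h3
  have h5 : 1 ≤ ‖s‖ := by
    have := Complex.abs_im_le_norm s; linarith
  have h6 : 1 ≤ ‖s - 1‖ := by
    have := Complex.abs_im_le_norm (s - 1)
    simp only [Complex.sub_im, Complex.one_im, sub_zero] at this
    linarith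
  have h7 : ‖1 / s‖ ≤ 1 := by
    rw [norm_div, norm_one, div_le_one (by linarith)]; exact h5
  have h8 : ‖1 / (s - 1)‖ ≤ 1 := by
    rw [norm_div, norm_one, div_le_one (by linarith)]; exact h6
  rw [gPart]
  have h9 : ‖1 / s + 1 / (s - 1) + logDeriv Gammaℝ s‖ ≤
      ‖1 / s‖ + ‖1 / (s - 1)‖ + ‖logDeriv Gammaℝ s‖ := norm_add₃_le
  linarith

end Pool.Agent.Lib.MP_6bc78b_nt.H11
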