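import Mathlib
import Pool.Agent.Lib.MP_6bc78b_nt.H11.Light
import Pool.Agent.Lib.MP_6bc78b_nt.LL.Rect
import Pool.Agent.Lib.MP_6bc78b_nt.LL.Heights
import Pool.Agent.Lib.MP_6bc78b_nt.H11.ExpSum
import Pool.Agent.Lib.MP_6bc78b_nt.H11.Order

/-! # Sums over the zeros as line integrals (RH)

For an entire `k` with `|k(s)| ≤ C/(1+(Im s)^2)` in `-1/2 ≤ Re s ≤ 3/2`,
`2π ∑_γ m(γ) k(1/2+iγ) = ∫ (ξ'/ξ)(1/2+w+it) (k(1/2+w+it) + k(1/2-w-it)) dt`, `1/2 < w ≤ 1`. -/

set_option autoImplicit false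

open Complex Set Filter Topology MeasureTheory intervalIntegral

namespace Pool.Agent.Lib.MP_6bc78b_nt.H11

open Pool.Agent.Lib.MP_6bc78b_nt Pool.Agent.Lib.MP_6bc78b_nt.LL

/-- multiplicities are summable against `1/(1+γ²)`. -/
lemma mult_summable : Summable (fun γ : ℝ => (zeroMult γ : ℝ) / (1 + γ ^ 2)) := by
  refine Summable.of_nonneg_of_le (fun γ => by positivity) ?_
    ((coefA_summable (k := 1) le_rfl).mul_left 3)
  intro γ
  unfold coefA
  rw [norm_div, norm_mul, norm_pow, norm_neg, norm_one, one_pow, one_mul, norm_mul,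
    Complex.norm_natCast, Nat.descFactorial_one]
  have h1 : ‖(1 / 2 + γ * I : ℂ)‖ * ‖(3 / 2 + γ * I : ℂ)‖ ≤ 3 * (1 + γ ^ 2) := by
    have h2 : ‖(1 / 2 + γ * I : ℂ)‖ ≤ 1 / 2 + |γ| := by
      refine (norm_add_le _ _).trans ?_
      rw [norm_mul, Complex.norm_I, mul_one, Complex.norm_real, Real.norm_eq_abs]
      norm_num
    have h3 : ‖(3 / 2 + γ * I : ℂ)‖ ≤ 3 / 2 + |γ| := by
      refine (norm_add_le _ _).trans ?_
      rw [norm_mul, Complex.norm_I, mul_one, Complex.norm_real, Real.norm_eq_abs]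
      norm_num
    calc ‖(1 / 2 + γ * I : ℂ)‖ * ‖(3 / 2 + γ * I : ℂ)‖ ≤ (1 / 2 + |γ|) * (3 / 2 + |γ|) := by
          gcongr
      _ ≤ 3 * (1 + γ ^ 2) := by
          rw [← sq_abs γ]
          nlinarith [sq_nonneg (|γ| - 1/2), abs_nonneg γ]
  have h4 : 0 < ‖(1 / 2 + γ * I : ℂ)‖ * ‖(3 / 2 + γ * I : ℂ)‖ := by
    apply mul_pos
    · rw [norm_pos_iff]; intro h
      have := congrArg Complex.re h
      simp at this
    · rw [norm_pos_iff]; intro h
      have := congrArg Complex.re h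
      simp at this
  have h5 : (0:ℝ) < 1 + γ ^ 2 := by positivity
  rw [div_le_iff₀ h5]
  have h6 : (zeroMult γ : ℝ) * (‖(1 / 2 + γ * I : ℂ)‖ * ‖(3 / 2 + γ * I : ℂ)‖) ≤
      (zeroMult γ : ℝ) * (3 * (1 + γ ^ 2)) := mul_le_mul_of_nonneg_left h1 (Nat.cast_nonneg _)
  have h7 : 3 * ((zeroMult γ : ℝ) / (‖(1 / 2 + γ * I : ℂ)‖ * ‖(3 / 2 + γ * I : ℂ)‖)) * (1 + γ ^ 2) =
      ((zeroMult γ : ℝ) * (3 * (1 + γ ^ 2))) / (‖(1 / 2 + γ * I : ℂ)‖ * ‖(3 / 2 + γ * I : ℂ)‖) := by
    ring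
  rw [h7, le_div_iff₀ h4]
  exact h6

/-- Under RH the zeros of `xi` are the `1/2 + iγ` with `zeroMult γ > 0`. -/
lemma xi_zero_iff (hRH : RiemannHypothesis) (s : ℂ) :
    xi s = 0 ↔ ∃ γ : ℝ, s = 1 / 2 + γ * I ∧ riemannZeta (1 / 2 + γ * I) = 0 := by
  constructor
  · intro h
    obtain ⟨h0, h1⟩ := xi_zero_re h
    have hz := xi_zero_zeta h
    have hre : s.re = 1 / 2 := zero_re_of_RH hRH hz h0
    refine ⟨s.im, ?_, ?_⟩
    · apply Complex.ext
      · simp [hre]
      · simp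
    · have e : (1 / 2 + s.im * I : ℂ) = s := by
        apply Complex.ext
        · simp [hre]
        · simp
      rw [e]; exact hz
  · rintro ⟨γ, rfl, h⟩
    rw [xi_eq (by simp) (crit_ne_one γ), h, mul_zero]

lemma xi_mult (γ : ℝ) : analyticOrderNatAt xi (1 / 2 + γ * I) = zeroMult γ := by
  rw [analyticOrderNatAt, xi_order (by simp) (crit_ne_one γ), order_eq]
  rfl

/-- growth of `ξ'/ξ` to the right of the critical line on good heights and on vertical lines. -/
lemma exists_logDeriv_xi_vertical {σ : ℝ} (hσ : 1 < σ) (hσ2 : σ ≤ 3 / 2) :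
    ∃ C : ℝ, 0 ≤ C ∧ ∀ t : ℝ, ‖logDeriv xi (σ + t * I)‖ ≤ C * Real.log (3 + |t|) := by
  obtain ⟨M, hM, hMb⟩ := exists_logDeriv_zeta_bound hσ
  obtain ⟨G, hG, hGb⟩ := exists_gPart_light
  have hcont : Continuous (fun t : ℝ => logDeriv xi (σ + t * I)) := by
    have h1 : ∀ t : ℝ, xi (σ + t * I) ≠ 0 := fun t => xi_ne_zero_of_one_le (by simp; linarith)
    have : (fun t : ℝ => logDeriv xi (σ + t * I)) =
        fun t : ℝ => deriv xi (σ + t * I) / xi (σ + t * I) := by
      funext t; rw [logDeriv_apply]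
    rw [this]
    apply Continuous.div _ _ h1
    · exact (differentiable_xi.contDiff (n := 1)).continuous_deriv_one.comp (by fun_prop)
    · exact differentiable_xi.continuous.comp (by fun_prop)
  obtain ⟨B, hB⟩ := (isCompact_Icc (a := (-8:ℝ)) (b := 8)).exists_bound_of_continuousOn
    hcont.continuousOn
  have hlog3 : (1:ℝ) ≤ Real.log 3 := by
    rw [Real.le_log_iff_exp_le (by norm_num)]
    exact Real.exp_one_lt_d9.le.trans (by norm_num)
  refine ⟨max B 0 + M + G + 1, by positivity, fun t => ?_⟩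
  have hl : 1 ≤ Real.log (3 + |t|) := hlog3.trans
    (Real.log_le_log (by norm_num) (by linarith [abs_nonneg t]))
  rcases le_total |t| 8 with h | h
  · have h1 := hB t (abs_le.1 h)
    have h2 : ‖logDeriv xi (σ + t * I)‖ ≤ max B 0 + M + G + 1 := by
      have := le_max_left B 0
      linarith
    have h3 : 0 ≤ max B 0 + M + G + 1 := by positivity
    nlinarith
  · have hre : (σ + t * I : ℂ).re = σ := by simp
    have him : (σ + t * I : ℂ).im = t := by simp
    rw [logDeriv_xi_eq (by rw [hre]; linarith)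
      (by intro h1; have := congrArg Complex.re h1; rw [hre] at this; simp at this; linarith)
      (riemannZeta_ne_zero_of_one_le_re (by rw [hre]; linarith))]
    refine (norm_add_le _ _).trans ?_
    have h1 := hMb (σ + t * I) hre
    have h2 := hGb (σ + t * I) (by rw [hre]; linarith) (by rw [hre]; linarith) (by rw [him]; exact h)
    rw [him] at h2
    have h3 : Real.log |t| ≤ Real.log (3 + |t|) := Real.log_le_log (by linarith) (by linarith)
    have h4 : 0 ≤ max B 0 := le_max_right _ _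
    nlinarith

lemma log_le_quarter (t : ℝ) : Real.log (3 + |t|) ≤ 4 * (1 + t ^ 2) ^ (1 / 4 : ℝ) := by
  have h0 : 0 ≤ |t| := abs_nonneg t
  have h1 := Real.log_le_rpow_div (x := 3 + |t|) (by positivity) (ε := 1 / 2) (by norm_num)
  have h2 : (3 + |t|) ^ (1 / 2 : ℝ) ≤ (16 * (1 + t ^ 2)) ^ (1 / 4 : ℝ) := by
    have e : (3 + |t|) ^ (1 / 2 : ℝ) = ((3 + |t|) ^ 2) ^ (1 / 4 : ℝ) := by
      rw [← Real.rpow_natCast, ← Real.rpow_mul (by positivity)]
      norm_num
    rw [e]
    apply Real.rpow_le_rpow (by positivity) _ (by norm_num)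
    rw [← sq_abs t]
    nlinarith [sq_nonneg (|t| - 1)]
  have h3 : (16 * (1 + t ^ 2)) ^ (1 / 4 : ℝ) = 2 * (1 + t ^ 2) ^ (1 / 4 : ℝ) := by
    rw [Real.mul_rpow (by norm_num) (by positivity)]
    congr 1
    rw [show (16:ℝ) = 2 ^ (4:ℝ) by norm_num, ← Real.rpow_mul (by norm_num)]
    norm_num
  rw [h3] at h2
  linarith

lemma integrable_log_div : Integrable (fun t : ℝ => Real.log (3 + |t|) / (1 + t ^ 2)) := by
  have h := (integrable_rpow_neg_one_add_norm_sq (E := ℝ) (μ := volume) (r := 3 / 2)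
    (by simp; norm_num)).const_mul 4
  refine h.mono' ?_ ?_
  · apply Continuous.aestronglyMeasurable
    apply Continuous.div
    · apply Continuous.log (by fun_prop)
      intro t; positivity
    · fun_prop
    · intro t; positivity
  · refine Filter.Eventually.of_forall fun t => ?_
    have h1 : (0:ℝ) < 1 + t ^ 2 := by positivity
    have hl : 0 ≤ Real.log (3 + |t|) := Real.log_nonneg (by linarith [abs_nonneg t])
    rw [Real.norm_of_nonneg (by positivity), div_le_iff₀ h1, Real.norm_eq_abs, sq_abs]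
    have e : 4 * (1 + t ^ 2) ^ (-(3 / 2 : ℝ) / 2) * (1 + t ^ 2) = 4 * (1 + t ^ 2) ^ (1 / 4 : ℝ) := by
      have h2 : (1 + t ^ 2) ^ (-(3 / 2 : ℝ) / 2) * (1 + t ^ 2) = (1 + t ^ 2) ^ (1 / 4 : ℝ) := by
        nth_rewrite 2 [← Real.rpow_one (1 + t ^ 2)]
        rw [← Real.rpow_add h1]
        norm_num
      rw [mul_assoc, h2]
    rw [e]
    exact log_le_quarter t

/-- good heights for `ξ'/ξ` on both sides of the real axis. -/
lemma good_xi : ∃ C : ℝ, 0 < C ∧ ∀ n : ℕ, 9 ≤ n → ∃ v ∈ Icc ((n:ℝ) - 1/4) (n + 1/4),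
    ∀ x ∈ Icc (-(1/2) : ℝ) (3/2), (xi (x + v * I) ≠ 0 ∧
      ‖logDeriv xi (x + v * I)‖ ≤ C * (Real.log n) ^ 2) ∧
      (xi (x + (-v : ℝ) * I) ≠ 0 ∧ ‖logDeriv xi (x + (-v : ℝ) * I)‖ ≤ C * (Real.log n) ^ 2) := by
  obtain ⟨C₁, hC₁, h1⟩ := exists_good_height
  obtain ⟨G, hG, hGb⟩ := exists_gPart_light
  refine ⟨C₁ + G + 2, by positivity, fun n hn => ?_⟩
  have hn9 : (9:ℝ) ≤ n := by exact_mod_cast hn
  obtain ⟨v, hv, hx⟩ := h1 n (by rw [abs_of_pos (by linarith)]; linarith)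
  rw [abs_of_pos (by linarith : (0:ℝ) < n)] at hx
  have hl : 1 ≤ Real.log n := by
    rw [Real.le_log_iff_exp_le (by linarith)]
    exact Real.exp_one_lt_d9.le.trans (by linarith)
  -- right half
  have hR : ∀ x ∈ Icc (1/2 : ℝ) (3/2), xi (x + v * I) ≠ 0 ∧
      ‖logDeriv xi (x + v * I)‖ ≤ (C₁ + G + 2) * (Real.log n) ^ 2 := by
    intro x hx2
    obtain ⟨h2, h3⟩ := hx x ⟨hx2.1, by linarith [hx2.2]⟩
    refine ⟨fun h => h2 (xi_zero_zeta h), ?_⟩
    have hre : (x + v * I : ℂ).re = x := by simp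
    have him : (x + v * I : ℂ).im = v := by simp
    rw [logDeriv_xi_eq (by rw [hre]; linarith [hx2.1])
      (by intro h4; have := congrArg Complex.im h4; rw [him] at this; simp at this; linarith [hv.1]) h2]
    refine (norm_add_le _ _).trans ?_
    have h4 := hGb (x + v * I) (by rw [hre]; exact hx2.1) (by rw [hre]; exact hx2.2)
      (by rw [him, abs_of_pos (by linarith [hv.1])]; linarith [hv.1])
    rw [him, abs_of_pos (by linarith [hv.1])] at h4
    have h5 : Real.log v ≤ Real.log n + 1 := by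
      have h6 : Real.log v ≤ Real.log (n * 2) := Real.log_le_log (by linarith [hv.1]) (by linarith [hv.2])
      rw [Real.log_mul (by linarith) (by norm_num)] at h6
      have := Real.log_two_lt_d9
      linarith
    have h6 : Real.log n ≤ (Real.log n) ^ 2 := by nlinarith
    have h7 : 1 ≤ (Real.log n) ^ 2 := by nlinarith
    nlinarith
  have hA : ∀ x ∈ Icc (-(1/2) : ℝ) (3/2), xi (x + v * I) ≠ 0 ∧
      ‖logDeriv xi (x + v * I)‖ ≤ (C₁ + G + 2) * (Real.log n) ^ 2 := by
    intro x hx2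
    rcases le_total (1/2) x with h5 | h5
    · exact hR x ⟨h5, hx2.2⟩
    · have h6 := hR (1 - x) ⟨by linarith, by linarith [hx2.1]⟩
      have e : (((1 - x : ℝ) : ℂ) + v * I) = 1 - (starRingEnd ℂ) (x + v * I) := by
        apply Complex.ext <;> simp
      rw [e, xi_one_sub, xi_conj, logDeriv_xi_one_sub, logDeriv_xi_conj, norm_neg,
        Complex.norm_conj] at h6
      refine ⟨fun h => h6.1 (by rw [h]; simp), h6.2⟩
  refine ⟨v, hv, fun x hx2 => ⟨hA x hx2, ?_⟩⟩
  obtain ⟨h2, h3⟩ := hA x hx2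
  have e : ((x : ℂ) + (-v : ℝ) * I) = (starRingEnd ℂ) (x + v * I) := by
    apply Complex.ext <;> simp
  rw [e, xi_conj, logDeriv_xi_conj, Complex.norm_conj]
  exact ⟨fun h => h2 (by simpa using h), h3⟩

/-- **sums over the zeros** as an integral on a vertical line. -/
theorem zero_sum (hRH : RiemannHypothesis) {k : ℂ → ℂ} (hk : Differentiable ℂ k) {C : ℝ}
    (hC : ∀ s : ℂ, -(1/2) ≤ s.re → s.re ≤ 3/2 → ‖k s‖ ≤ C / (1 + s.im ^ 2)) {w : ℝ}
    (hw : 1/2 < w) (hw1 : w ≤ 1) :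
    Summable (fun γ : ℝ => (zeroMult γ : ℂ) * k (1/2 + γ * I)) ∧
    Integrable (fun t : ℝ => logDeriv xi ((1/2 + w : ℝ) + t * I) * k ((1/2 + w : ℝ) + t * I)) ∧
    Integrable (fun t : ℝ => logDeriv xi ((1/2 + w : ℝ) + t * I) *
      k (1 - ((1/2 + w : ℝ) + t * I))) ∧
    2 * Real.pi * ∑' γ : ℝ, (zeroMult γ : ℂ) * k (1/2 + γ * I) =
      (∫ t : ℝ, logDeriv xi ((1/2 + w : ℝ) + t * I) * k ((1/2 + w : ℝ) + t * I)) +
      ∫ t : ℝ, logDeriv xi ((1/2 + w : ℝ) + t * I) * k (1 - ((1/2 + w : ℝ) + t * I)) := by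
  classical
  have hw0 : 0 < w := by linarith
  have hC0 : 0 ≤ C := by
    have h1 := hC 0 (by simp) (by simp; norm_num)
    simp at h1
    exact (norm_nonneg _).trans h1
  obtain ⟨b, hb⟩ : ∃ b : ℝ, b = 1/2 + w := ⟨_, rfl⟩
  obtain ⟨a, ha⟩ : ∃ a : ℝ, a = 1/2 - w := ⟨_, rfl⟩
  have hab : a ≤ b := by linarith
  rw [← hb]
  obtain ⟨f, hf⟩ : ∃ f : ℂ → ℂ, f = fun z => logDeriv xi z * k z := ⟨_, rfl⟩
  have hfz : ∀ z, f z = logDeriv xi z * k z := fun z => by rw [hf]
  -- summability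
  have hsum : Summable (fun γ : ℝ => (zeroMult γ : ℂ) * k (1/2 + γ * I)) := by
    apply Summable.of_norm_bounded (mult_summable.mul_left C)
    intro γ
    rw [norm_mul, Complex.norm_natCast]
    have e1 : (1/2 + γ * I : ℂ).re = 1/2 := by simp
    have h1 := hC (1/2 + γ * I) (by rw [e1]; norm_num) (by rw [e1]; norm_num)
    have h2 : (1/2 + γ * I : ℂ).im = γ := by simp
    rw [h2] at h1
    calc (zeroMult γ : ℝ) * ‖k (1/2 + γ * I)‖ ≤ (zeroMult γ : ℝ) * (C / (1 + γ ^ 2)) := by gcongr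
      _ = C * ((zeroMult γ : ℝ) / (1 + γ ^ 2)) := by ring
  -- vertical lines
  obtain ⟨V, hV0, hV⟩ := exists_logDeriv_xi_vertical (σ := b) (by linarith) (by linarith)
  have hxiR : ∀ t : ℝ, xi (b + t * I) ≠ 0 := fun t => xi_ne_zero_of_one_le (by simp; linarith)
  have hcontR : Continuous (fun t : ℝ => logDeriv xi (b + t * I)) := by
    have : (fun t : ℝ => logDeriv xi (b + t * I)) =
        fun t : ℝ => deriv xi (b + t * I) / xi (b + t * I) := by
      funext t; rw [logDeriv_apply]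
    rw [this]
    apply Continuous.div _ _ hxiR
    · exact (differentiable_xi.contDiff (n := 1)).continuous_deriv_one.comp (by fun_prop)
    · exact differentiable_xi.continuous.comp (by fun_prop)
  have hI1 : Integrable (fun t : ℝ => logDeriv xi (b + t * I) * k (b + t * I)) := by
    refine (integrable_log_div.const_mul (V * C)).mono'
      (hcontR.mul (hk.continuous.comp (by fun_prop))).aestronglyMeasurable ?_
    refine Filter.Eventually.of_forall fun t => ?_
    have h1 := hC (b + t * I) (by simp; linarith) (by simp; linarith)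
    have h2 : (b + t * I : ℂ).im = t := by simp
    rw [h2] at h1
    rw [norm_mul]
    calc ‖logDeriv xi (b + t * I)‖ * ‖k (b + t * I)‖ ≤
        (V * Real.log (3 + |t|)) * (C / (1 + t ^ 2)) := by
          gcongr
          exact (norm_nonneg _).trans (hV t)
          exact hV t
      _ = V * C * (Real.log (3 + |t|) / (1 + t ^ 2)) := by ring
  have hI2 : Integrable (fun t : ℝ => logDeriv xi (b + t * I) * k (1 - (b + t * I))) := by
    refine (integrable_log_div.const_mul (V * C)).mono'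
      (hcontR.mul (hk.continuous.comp (by fun_prop))).aestronglyMeasurable ?_
    refine Filter.Eventually.of_forall fun t => ?_
    have h1 := hC (1 - (b + t * I)) (by simp; linarith) (by simp; linarith)
    have h2 : (1 - (b + t * I) : ℂ).im = -t := by simp
    rw [h2, neg_sq] at h1
    rw [norm_mul]
    calc ‖logDeriv xi (b + t * I)‖ * ‖k (1 - (b + t * I))‖ ≤
        (V * Real.log (3 + |t|)) * (C / (1 + t ^ 2)) := by
          gcongr
          exact (norm_nonneg _).trans (hV t)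
          exact hV t
      _ = V * C * (Real.log (3 + |t|) / (1 + t ^ 2)) := by ring
  refine ⟨hsum, hI1, hI2, ?_⟩
  -- heights
  obtain ⟨D, hD, hgood⟩ := good_xi
  have hgood' : ∀ n : ℕ, ∃ v : ℝ, 9 ≤ n → v ∈ Icc ((n:ℝ) - 1/4) (n + 1/4) ∧
    ∀ x ∈ Icc (-(1/2) : ℝ) (3/2), (xi (x + v * I) ≠ 0 ∧
      ‖logDeriv xi (x + v * I)‖ ≤ D * (Real.log n) ^ 2) ∧
      (xi (x + (-v : ℝ) * I) ≠ 0 ∧ ‖logDeriv xi (x + (-v : ℝ) * I)‖ ≤ D * (Real.log n) ^ 2) := by
    intro n
    by_cases h : 9 ≤ n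
    · obtain ⟨v, hv1, hv2⟩ := hgood n h
      exact ⟨v, fun _ => ⟨hv1, hv2⟩⟩
    · exact ⟨0, fun h' => absurd h' h⟩
  choose v hv using hgood'
  have hvtop : Tendsto v atTop atTop := by
    have h1 : Tendsto (fun n : ℕ => (n:ℝ) - 1/4) atTop atTop :=
      tendsto_natCast_atTop_atTop.atTop_add tendsto_const_nhds
    refine tendsto_atTop_mono' _ ?_ h1
    filter_upwards [eventually_ge_atTop 9] with n hn
    exact (hv n hn).1.1
  -- the zeros below the height
  obtain ⟨Fn, hFn⟩ : ∃ Fn : ℕ → Finset ℝ, Fn = fun n => (zeros_in_compact_finite (v n)).toFinset :=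
    ⟨_, rfl⟩
  have hmemF : ∀ n γ, γ ∈ Fn n ↔ |γ| ≤ v n ∧ riemannZeta (1/2 + γ * I) = 0 := by
    intro n γ
    rw [hFn]
    simp
  have hres : ∀ n : ℕ, 9 ≤ n → rectI f a b (-(v n)) (v n) =
      2 * Real.pi * I * ∑ γ ∈ Fn n, (zeroMult γ : ℂ) * k (1/2 + γ * I) := by
    intro n hn
    obtain ⟨hv1, hv2⟩ := hv n hn
    have hn9 : (9:ℝ) ≤ n := by exact_mod_cast hn
    have hvpos : 0 < v n := by linarith [hv1.1]
    obtain ⟨Z, hZ⟩ : ∃ Z : Finset ℂ, Z = (Fn n).image (fun γ : ℝ => (1/2 + γ * I : ℂ)) := ⟨_, rfl⟩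
    have hinj : Set.InjOn (fun γ : ℝ => (1/2 + γ * I : ℂ)) (Fn n : Set ℝ) :=
      fun x _ y _ h => crit_injective h
    have hne0 : ∀ γ ∈ Fn n, |γ| < v n := by
      intro γ hγ
      obtain ⟨h1, h2⟩ := (hmemF n γ).1 hγ
      rcases lt_or_eq_of_le h1 with h3 | h3
      · exact h3
      · exfalso
        have hx := hv2 (1/2) ⟨by norm_num, by norm_num⟩
        have hxi : xi (1/2 + γ * I) = 0 := (xi_zero_iff hRH _).2 ⟨γ, rfl, h2⟩
        rcases abs_eq hvpos.le |>.1 h3 with h4 | h4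
        · apply hx.1.1
          rw [← h4]
          push_cast
          exact hxi
        · apply hx.2.1
          rw [← h4]
          push_cast
          exact hxi
    have hZmem : ∀ s, s ∈ Z ↔ ∃ γ ∈ Fn n, (1/2 + γ * I : ℂ) = s := by
      intro s; rw [hZ, Finset.mem_image]
    obtain ⟨h, hh, hFh, hhZ⟩ := exists_cofactor_light differentiable_xi Z (by
      intro s hs
      obtain ⟨γ, hγ, rfl⟩ := (hZmem s).1 hs
      rw [xi_order (by simp) (crit_ne_one γ), order_eq]
      simp)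
    have hR := rectI_logDeriv (F := xi) (h := h) (k := k) (a := a) (b := b)
      (c := -(v n)) (d := v n) hk hh hab (by linarith) Z
      (fun s => analyticOrderNatAt xi s) hFh
      (by
        intro s hs
        obtain ⟨γ, hγ, rfl⟩ := (hZmem s).1 hs
        have h1 := abs_lt.1 (hne0 γ hγ)
        simp only [add_re, div_ofNat_re, one_re, mul_re, ofReal_re, I_re, mul_zero, ofReal_im, I_im,
          mul_one, sub_self, add_zero, add_im, div_ofNat_im, one_im, zero_div, mul_im, zero_add]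
        exact ⟨⟨by linarith, by linarith⟩, h1.1, h1.2⟩)
      (by
        intro s h1 h2 h3 h4 h5
        have hx : xi s = 0 := by rw [hFh s, h5, mul_zero]
        obtain ⟨γ, rfl, hγ⟩ := (xi_zero_iff hRH s).1 hx
        have him : (1/2 + γ * I : ℂ).im = γ := by simp
        rw [him] at h3 h4
        have hm : γ ∈ Fn n := (hmemF n γ).2 ⟨abs_le.2 ⟨h3, h4⟩, hγ⟩
        exact hhZ _ ((hZmem _).2 ⟨γ, hm, rfl⟩) h5)
    rw [hf, hR, hZ, Finset.sum_image hinj]
    congr 1
    apply Finset.sum_congr rfl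
    intro γ _
    rw [xi_mult]
  -- limits
  have hlimS : Tendsto (fun n => ∑ γ ∈ Fn n, (zeroMult γ : ℂ) * k (1/2 + γ * I)) atTop
      (𝓝 (∑' γ : ℝ, (zeroMult γ : ℂ) * k (1/2 + γ * I))) := by
    have h1 : ∀ n, ∑ γ ∈ Fn n, (zeroMult γ : ℂ) * k (1/2 + γ * I) =
        ∑' γ : ℝ, if γ ∈ Fn n then (zeroMult γ : ℂ) * k (1/2 + γ * I) else 0 := by
      intro n
      rw [tsum_eq_sum (s := Fn n) (fun γ hγ => if_neg hγ)]
      apply Finset.sum_congr rfl
      intro γ hγ
      rw [if_pos hγ]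
    simp_rw [h1]
    apply tendsto_tsum_of_dominated_convergence hsum.norm
    · intro γ
      by_cases hγ : riemannZeta (1/2 + γ * I) = 0
      · apply tendsto_const_nhds.congr'
        filter_upwards [hvtop.eventually_ge_atTop |γ|] with n hn
        rw [if_pos ((hmemF n γ).2 ⟨hn, hγ⟩)]
      · rw [zeroMult_eq_zero_of_ne hγ]
        simp
    · refine Filter.Eventually.of_forall fun n γ => ?_
      split_ifs
      · exact le_rfl
      · rw [norm_zero]; exact norm_nonneg _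
  have hlimR : Tendsto (fun n => ∫ y in (-(v n))..(v n), f (b + y * I)) atTop
      (𝓝 (∫ t : ℝ, logDeriv xi (b + t * I) * k (b + t * I))) := by
    rw [hf]
    exact intervalIntegral_tendsto_integral hI1 (tendsto_neg_atTop_atBot.comp hvtop) hvtop
  have hleft : ∀ t : ℝ, f (a + t * I) = -(logDeriv xi (b + (-t : ℝ) * I) * k (1 - (b + (-t : ℝ) * I))) := by
    intro t
    have e : (a + t * I : ℂ) = 1 - (b + (-t : ℝ) * I) := by
      rw [ha, hb]; push_cast; ring
    rw [hfz, e, logDeriv_xi_one_sub]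
    ring
  have hI3 : Integrable (fun t : ℝ => f (a + t * I)) := by
    simp_rw [hleft]
    exact (hI2.comp_neg).neg
  have hlimL : Tendsto (fun n => ∫ y in (-(v n))..(v n), f (a + y * I)) atTop
      (𝓝 (-∫ t : ℝ, logDeriv xi (b + t * I) * k (1 - (b + t * I)))) := by
    have h1 := intervalIntegral_tendsto_integral hI3 (tendsto_neg_atTop_atBot.comp hvtop) hvtop
    have h2 : (∫ t : ℝ, f (a + t * I)) = -∫ t : ℝ, logDeriv xi (b + t * I) * k (1 - (b + t * I)) := by
      simp_rw [hleft]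
      rw [MeasureTheory.integral_neg]
      congr 1
      exact integral_neg_eq_self (fun t : ℝ => logDeriv xi (b + t * I) * k (1 - (b + t * I))) volume
    rw [h2] at h1
    exact h1
  -- horizontal edges
  have hlimH : ∀ ε : ℝ, (ε = 1 ∨ ε = -1) →
      Tendsto (fun n => ∫ x in a..b, f (x + ((ε * v n : ℝ) : ℂ) * I)) atTop (𝓝 0) := by
    intro ε hε
    have hbd : ∀ᶠ n : ℕ in atTop, ‖∫ x in a..b, f (x + ((ε * v n : ℝ) : ℂ) * I)‖ ≤
        (D * (Real.log n) ^ 2 * (C * (4 / (n:ℝ) ^ 2))) * |b - a| := by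
      filter_upwards [eventually_ge_atTop 9] with n hn
      have hn9 : (9:ℝ) ≤ n := by exact_mod_cast hn
      obtain ⟨hv1, hv2⟩ := hv n hn
      apply intervalIntegral.norm_integral_le_of_norm_le_const
      intro x hx
      rw [uIoc_of_le hab] at hx
      have hx' : x ∈ Icc (-(1/2) : ℝ) (3/2) := ⟨by linarith [hx.1], by linarith [hx.2]⟩
      have hk1 := hC (x + ((ε * v n : ℝ) : ℂ) * I) (by simpa using hx'.1) (by simpa using hx'.2)
      have him : (x + ((ε * v n : ℝ) : ℂ) * I : ℂ).im = ε * v n := by simp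
      rw [him] at hk1
      have hε2 : (ε * v n) ^ 2 = (v n) ^ 2 := by
        rcases hε with rfl | rfl <;> ring
      rw [hε2] at hk1
      have hk2 : C / (1 + (v n) ^ 2) ≤ C * (4 / (n:ℝ) ^ 2) := by
        rw [div_eq_mul_inv]
        apply mul_le_mul_of_nonneg_left _ hC0
        rw [inv_eq_one_div, div_le_div_iff₀ (by positivity) (by positivity)]
        have : (n:ℝ) - 1/4 ≤ v n := hv1.1
        nlinarith
      have hl1 : ‖logDeriv xi (x + ((ε * v n : ℝ) : ℂ) * I)‖ ≤ D * (Real.log n) ^ 2 := by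
        have h1 := hv2 x hx'
        rcases hε with rfl | rfl
        · rw [one_mul]; exact h1.1.2
        · rw [neg_one_mul]; exact h1.2.2
      rw [hfz, norm_mul]
      calc _ ≤ (D * (Real.log n) ^ 2) * (C * (4 / (n:ℝ) ^ 2)) := by
            apply mul_le_mul hl1 (hk1.trans hk2) (norm_nonneg _) (by positivity)
        _ = _ := by ring
    apply squeeze_zero_norm' hbd
    have h1 : Tendsto (fun n : ℕ => (Real.log n) ^ 2 / (n:ℝ) ^ 2) atTop (𝓝 0) := by
      have h2 : Tendsto (fun n : ℕ => Real.log n / (n:ℝ)) atTop (𝓝 0) :=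
        (Real.isLittleO_log_id_atTop.tendsto_div_nhds_zero).comp tendsto_natCast_atTop_atTop
      have h3 := h2.pow 2
      simpa [div_pow] using h3
    have h2 := h1.const_mul (D * C * 4 * |b - a|)
    rw [mul_zero] at h2
    refine h2.congr fun n => ?_
    ring
  have hT := hlimH 1 (Or.inl rfl)
  have hB := hlimH (-1) (Or.inr rfl)
  have hlimAll : Tendsto (fun n => rectI f a b (-(v n)) (v n)) atTop
      (𝓝 (0 - 0 + I * (∫ t : ℝ, logDeriv xi (b + t * I) * k (b + t * I)) -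
        I * (-∫ t : ℝ, logDeriv xi (b + t * I) * k (1 - (b + t * I))))) := by
    have hB' : Tendsto (fun n => ∫ x : ℝ in a..b, f (x + ((-(v n) : ℝ) : ℂ) * I)) atTop (𝓝 0) := by
      simpa using hB
    have hT' : Tendsto (fun n => ∫ x : ℝ in a..b, f (x + ((v n : ℝ) : ℂ) * I)) atTop (𝓝 0) := by
      simpa using hT
    exact ((hB'.sub hT').add (hlimR.const_mul I)).sub (hlimL.const_mul I)
  have hlim2 : Tendsto (fun n => rectI f a b (-(v n)) (v n)) atTop
      (𝓝 (2 * Real.pi * I * ∑' γ : ℝ, (zeroMult γ : ℂ) * k (1/2 + γ * I))) := by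
    refine (hlimS.const_mul (2 * Real.pi * I)).congr' ?_
    filter_upwards [eventually_ge_atTop 9] with n hn
    rw [hres n hn]
  have hfin := tendsto_nhds_unique hlim2 hlimAll
  have hI0 : (I : ℂ) ≠ 0 := I_ne_zero
  apply mul_left_cancel₀ hI0
  linear_combination hfin

end Pool.Agent.Lib.MP_6bc78b_nt.H11
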